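import Mathlib

set_option autoImplicit false

namespace Pool.Agent.CycE4

open MvPolynomial

/-- Weight of an exponent vector. -/
def wt (g : Fin 4 → ℕ) (e : Fin 4 → ℕ) : ℕ := ∑ i, e i * g i

lemma wt_add (g e f : Fin 4 → ℕ) : wt g (e + f) = wt g e + wt g f := by
  simp [wt, add_mul, Finset.sum_add_distrib]

lemma wt_eq (g e : Fin 4 → ℕ) :
    wt g e = e 0 * g 0 + e 1 * g 1 + e 2 * g 2 + e 3 * g 3 := by
  simp [wt, Fin.sum_univ_four]

/-- Three relations generate all relations. -/
def CI (g : Fin 4 → ℕ) : Prop :=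
  ∃ u v : Fin 3 → Fin 4 → ℕ, (∀ r, wt g (u r) = wt g (v r)) ∧
    ∀ R : AddCon (Fin 4 → ℕ), (∀ e f, R e f → wt g e = wt g f) → (∀ r, R (u r) (v r)) →
      ∀ e f, wt g e = wt g f → R e f

lemma wt_perm (g e : Fin 4 → ℕ) (σ : Equiv.Perm (Fin 4)) : wt (g ∘ σ) e = wt g (e ∘ σ.symm) := by
  unfold wt
  rw [← Equiv.sum_comp σ (fun i => (e ∘ σ.symm) i * g i)]
  simp

lemma CI_perm {g : Fin 4 → ℕ} (σ : Equiv.Perm (Fin 4)) (h : CI (g ∘ σ)) : CI g := by
  obtain ⟨u, v, huv, H⟩ := h
  refine ⟨fun r => u r ∘ σ.symm, fun r => v r ∘ σ.symm, ?_, ?_⟩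
  · intro r
    rw [← wt_perm, ← wt_perm]; exact huv r
  · intro R hR hr e f hef
    let φ : (Fin 4 → ℕ) → (Fin 4 → ℕ) := fun a => a ∘ σ.symm
    let R' : AddCon (Fin 4 → ℕ) :=
      { r := fun a b => R (φ a) (φ b)
        iseqv := ⟨fun a => R.refl _, fun h => R.symm h, fun h h' => R.trans h h'⟩
        add' := by
          intro a b c d h h'
          exact R.add h h' }
    have h1 := H R' (fun a b hab => by
      rw [wt_perm, wt_perm]; exact hR _ _ hab) hr (e ∘ σ) (f ∘ σ) (by
        rw [wt_perm, wt_perm]
        simpa [Function.comp_assoc] using hef)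
    have h2 : R (φ (e ∘ σ)) (φ (f ∘ σ)) := h1
    simpa [φ, Function.comp_assoc] using h2

/-- A rule application. -/
lemma rule {R : AddCon (Fin 4 → ℕ)} {u v e : Fin 4 → ℕ} (h : R u v) (hle : u ≤ e) :
    R e (e - u + v) := by
  have h1 : e = (e - u) + u := (tsub_add_cancel_of_le hle).symm
  conv_lhs => rw [h1]
  exact R.add (R.refl _) h

lemma CI_of_norm {g : Fin 4 → ℕ} (h0 : 0 < g 0) (u v : Fin 3 → Fin 4 → ℕ)
    (huv : ∀ r, wt g (u r) = wt g (v r)) (Norm : (Fin 4 → ℕ) → Prop)
    (N1 : ∀ R : AddCon (Fin 4 → ℕ), (∀ r, R (u r) (v r)) →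
      ∀ e, ∃ e', R e e' ∧ (1 ≤ e' 0 ∨ (e' 0 = 0 ∧ Norm e')))
    (N2 : ∀ e f, Norm e → e 0 = 0 → 1 ≤ f 0 → wt g f ≠ wt g e)
    (N3 : ∀ e f, Norm e → Norm f → e 0 = 0 → f 0 = 0 → wt g e = wt g f → e = f) : CI g := by
  refine ⟨u, v, huv, ?_⟩
  intro R hR hr
  have key : ∀ n e f, wt g e = n → wt g f = n → R e f := by
    intro n
    induction n using Nat.strong_induction_on with
    | _ n ih =>
      intro e f he hf
      obtain ⟨e', hee, he'⟩ := N1 R hr e
      obtain ⟨f', hff, hf'⟩ := N1 R hr f
      have we := hR _ _ hee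
      have wf := hR _ _ hff
      rcases he' with he' | ⟨he0, heN⟩
      · rcases hf' with hf' | ⟨hf0, hfN⟩
        · -- both have positive 0-coordinate
          let δ : Fin 4 → ℕ := fun i => if i = 0 then 1 else 0
          have hδ : wt g δ = g 0 := by simp [wt, δ]
          have hle : δ ≤ e' := by
            intro i; by_cases hi : i = 0
            · subst hi; simpa [δ] using he'
            · simp [δ, hi]
          have hlf : δ ≤ f' := by
            intro i; by_cases hi : i = 0
            · subst hi; simpa [δ] using hf'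
            · simp [δ, hi]
          have e1 : (e' - δ) + δ = e' := tsub_add_cancel_of_le hle
          have f1 : (f' - δ) + δ = f' := tsub_add_cancel_of_le hlf
          have w1 : wt g (e' - δ) + g 0 = n := by
            rw [← hδ, ← wt_add, e1]; omega
          have w2 : wt g (f' - δ) + g 0 = n := by
            rw [← hδ, ← wt_add, f1]; omega
          have h3 := ih (wt g (e' - δ)) (by omega) (e' - δ) (f' - δ) rfl (by omega)
          have h4 := R.add h3 (R.refl δ)
          rw [e1, f1] at h4
          exact R.trans hee (R.trans h4 (R.symm hff))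
        · exact absurd (by omega) (N2 f' e' hfN hf0 he')
      · rcases hf' with hf' | ⟨hf0, hfN⟩
        · exact absurd (by omega) (N2 e' f' heN he0 hf')
        · have := N3 e' f' heN hfN he0 hf0 (by omega)
          subst this
          exact R.trans hee (R.symm hff)
  intro e f hef
  exact key (wt g f) e f hef rfl

/-- monomial of an exponent vector -/
noncomputable def mon (e : Fin 4 → ℕ) : MvPolynomial (Fin 4) ℚ :=
  monomial (Finsupp.equivFunOnFinite.symm e) 1

lemma mon_add (e f : Fin 4 → ℕ) : mon (e + f) = mon e * mon f := by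
  unfold mon
  have h : (Finsupp.equivFunOnFinite.symm (e + f) : Fin 4 →₀ ℕ)
      = Finsupp.equivFunOnFinite.symm e + Finsupp.equivFunOnFinite.symm f := by
    ext i; simp
  rw [monomial_mul, mul_one, h]

/-- evaluation map -/
noncomputable def ev (g : Fin 4 → ℕ) : MvPolynomial (Fin 4) ℚ →ₐ[ℚ] Polynomial ℚ :=
  MvPolynomial.aeval (R := ℚ) (fun i : Fin 4 => (Polynomial.X : Polynomial ℚ) ^ g i)

lemma ev_monomial (g : Fin 4 → ℕ) (m : Fin 4 →₀ ℕ) (c : ℚ) :
    ev g (monomial m c) = Polynomial.C c * Polynomial.X ^ wt g m := by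
  unfold ev wt
  rw [aeval_monomial]
  congr 1
  rw [Finsupp.prod_fintype _ _ (by simp), ← Finset.prod_pow_eq_pow_sum]
  apply Finset.prod_congr rfl
  intro i _
  rw [← pow_mul, mul_comm]

lemma ev_mon (g e : Fin 4 → ℕ) : ev g (mon e) = Polynomial.X ^ wt g e := by
  unfold mon
  rw [ev_monomial]
  simp

theorem ideal_of_CI {g : Fin 4 → ℕ} (h : CI g) :
    ∃ s : Finset (MvPolynomial (Fin 4) ℚ), s.card ≤ 3 ∧
      Ideal.span (s : Set (MvPolynomial (Fin 4) ℚ))
        = RingHom.ker (MvPolynomial.aeval (R := ℚ)
            (fun i : Fin 4 => (Polynomial.X : Polynomial ℚ) ^ g i)) := by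
  classical
  obtain ⟨u, v, huv, H⟩ := h
  refine ⟨Finset.univ.image (fun r : Fin 3 => mon (u r) - mon (v r)), ?_, ?_⟩
  · refine le_trans Finset.card_image_le ?_
    simp
  · set J : Ideal (MvPolynomial (Fin 4) ℚ) := Ideal.span
      ((Finset.univ.image (fun r : Fin 3 => mon (u r) - mon (v r)) : Finset _) :
        Set (MvPolynomial (Fin 4) ℚ)) with hJ
    have hJmem : ∀ r, mon (u r) - mon (v r) ∈ J := by
      intro r
      apply Ideal.subset_span
      simp
    let R : AddCon (Fin 4 → ℕ) :=
      { r := fun e f => wt g e = wt g f ∧ mon e - mon f ∈ J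
        iseqv := by
          refine ⟨fun e => ⟨rfl, by simp⟩, ?_, ?_⟩
          · rintro e f ⟨h1, h2⟩
            refine ⟨h1.symm, ?_⟩
            rw [← neg_sub]; exact J.neg_mem h2
          · rintro e f k ⟨h1, h2⟩ ⟨h3, h4⟩
            refine ⟨h1.trans h3, ?_⟩
            have := J.add_mem h2 h4
            simpa using this
        add' := by
          rintro a b c d ⟨h1, h2⟩ ⟨h3, h4⟩
          refine ⟨by rw [wt_add, wt_add, h1, h3], ?_⟩
          rw [mon_add, mon_add]
          have : mon a * mon c - mon b * mon d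
            = mon a * (mon c - mon d) + mon d * (mon a - mon b) := by ring
          rw [this]
          exact J.add_mem (J.mul_mem_left _ h4) (J.mul_mem_left _ h2) }
    have hR : ∀ e f, wt g e = wt g f → mon e - mon f ∈ J := by
      intro e f hef
      exact (H R (fun a b hab => hab.1) (fun r => ⟨huv r, hJmem r⟩) e f hef).2
    apply le_antisymm
    · rw [hJ, Ideal.span_le]
      intro x hx
      simp only [Finset.coe_image, Finset.coe_univ, Set.image_univ, Set.mem_range] at hx
      obtain ⟨r, rfl⟩ := hx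
      change ev g _ = 0
      rw [map_sub, ev_mon, ev_mon, huv r, sub_self]
    · -- the section
      let τ : ℕ → (Fin 4 → ℕ) := fun n => if h : ∃ e, wt g e = n then h.choose else 0
      have hτ : ∀ e, wt g (τ (wt g e)) = wt g e := by
        intro e
        have hex : ∃ e', wt g e' = wt g e := ⟨e, rfl⟩
        simp only [τ]
        rw [dif_pos hex]
        exact hex.choose_spec
      let ψ : Polynomial ℚ →ₗ[ℚ] MvPolynomial (Fin 4) ℚ :=
        Polynomial.lsum (fun n => LinearMap.toSpanSingleton ℚ _ (mon (τ n)))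
      have hψ : ∀ n (c : ℚ), ψ (Polynomial.C c * Polynomial.X ^ n) = c • mon (τ n) := by
        intro n c
        rw [Polynomial.C_mul_X_pow_eq_monomial]
        simp only [ψ, Polynomial.lsum_apply]
        rw [Polynomial.sum_monomial_index _ _ (by simp)]
        simp
      have key : ∀ p : MvPolynomial (Fin 4) ℚ, p - ψ (ev g p) ∈ J := by
        intro p
        induction p using MvPolynomial.induction_on' with
        | monomial m c =>
          rw [ev_monomial, hψ]
          have h1 : (monomial m c : MvPolynomial (Fin 4) ℚ) = c • mon m := by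
            unfold mon
            rw [smul_monomial, smul_eq_mul, mul_one]
            congr 1
            ext i; simp
          rw [h1, ← smul_sub, MvPolynomial.smul_eq_C_mul]
          apply J.mul_mem_left
          apply hR
          exact (hτ _).symm
        | add p q hp hq =>
          rw [map_add, map_add]
          have := J.add_mem hp hq
          convert this using 1
          ring
      intro p hp
      have hp' : ev g p = 0 := hp
      have := key p
      rw [hp', map_zero, sub_zero] at this
      exact this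

end Pool.Agent.CycE4
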