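import Mathlib
import Pool.Agent.CycE4.Ideal

set_option autoImplicit false

namespace Pool.Agent.CycE4

/-- symmetric semigroup of integers generated by four positive integers -/
structure Sg (T : ℤ → Prop) (G n1 n2 n3 n4 : ℤ) : Prop where
  p1 : 0 < n1
  p2 : 0 < n2
  p3 : 0 < n3
  p4 : 0 < n4
  mem : ∀ x, T x ↔ ∃ a b c d : ℤ, 0 ≤ a ∧ 0 ≤ b ∧ 0 ≤ c ∧ 0 ≤ d ∧ x = a*n1+b*n2+c*n3+d*n4
  sym : ∀ x, T x ↔ ¬ T (G - x)

/-- `c` is the least positive integer with `c * n` in the semigroup of the others -/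
structure IsC (n m1 m2 m3 c : ℤ) : Prop where
  pos : 0 < c
  ex : ∃ a b d : ℤ, 0 ≤ a ∧ 0 ≤ b ∧ 0 ≤ d ∧ c*n = a*m1+b*m2+d*m3
  min : ∀ m a b d : ℤ, 0 < m → 0 ≤ a → 0 ≤ b → 0 ≤ d → m*n = a*m1+b*m2+d*m3 → c ≤ m

lemma IsC.s12 {n m1 m2 m3 c : ℤ} (h : IsC n m1 m2 m3 c) : IsC n m2 m1 m3 c where
  pos := h.pos
  ex := by
    obtain ⟨a, b, d, ha, hb, hd, e⟩ := h.ex
    exact ⟨b, a, d, hb, ha, hd, by linarith⟩
  min := fun m a b d hm ha hb hd e => h.min m b a d hm hb ha hd (by linarith)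

lemma IsC.s23 {n m1 m2 m3 c : ℤ} (h : IsC n m1 m2 m3 c) : IsC n m1 m3 m2 c where
  pos := h.pos
  ex := by
    obtain ⟨a, b, d, ha, hb, hd, e⟩ := h.ex
    exact ⟨a, d, b, ha, hd, hb, by linarith⟩
  min := fun m a b d hm ha hb hd e => h.min m a d b hm ha hd hb (by linarith)

/-- full data -/
structure Full (T : ℤ → Prop) (G n1 n2 n3 n4 c1 c2 c3 c4 : ℤ) : Prop extends
    Sg T G n1 n2 n3 n4 where
  C1 : IsC n1 n2 n3 n4 c1
  C2 : IsC n2 n1 n3 n4 c2
  C3 : IsC n3 n1 n2 n4 c3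
  C4 : IsC n4 n1 n2 n3 c4

section
variable {T : ℤ → Prop} {G n1 n2 n3 n4 c1 c2 c3 c4 : ℤ}

lemma Full.s12 (h : Full T G n1 n2 n3 n4 c1 c2 c3 c4) : Full T G n2 n1 n3 n4 c2 c1 c3 c4 where
  p1 := h.p2
  p2 := h.p1
  p3 := h.p3
  p4 := h.p4
  mem := by
    intro x
    rw [h.mem x]
    constructor
    · rintro ⟨a, b, c, d, ha, hb, hc, hd, e⟩
      exact ⟨b, a, c, d, hb, ha, hc, hd, by linarith⟩
    · rintro ⟨a, b, c, d, ha, hb, hc, hd, e⟩
      exact ⟨b, a, c, d, hb, ha, hc, hd, by linarith⟩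
  sym := h.sym
  C1 := h.C2
  C2 := h.C1
  C3 := h.C3.s12
  C4 := h.C4.s12

lemma Full.s23 (h : Full T G n1 n2 n3 n4 c1 c2 c3 c4) : Full T G n1 n3 n2 n4 c1 c3 c2 c4 where
  p1 := h.p1
  p2 := h.p3
  p3 := h.p2
  p4 := h.p4
  mem := by
    intro x
    rw [h.mem x]
    constructor
    · rintro ⟨a, b, c, d, ha, hb, hc, hd, e⟩
      exact ⟨a, c, b, d, ha, hc, hb, hd, by linarith⟩
    · rintro ⟨a, b, c, d, ha, hb, hc, hd, e⟩
      exact ⟨a, c, b, d, ha, hc, hb, hd, by linarith⟩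
  sym := h.sym
  C1 := h.C1.s12
  C2 := h.C3
  C3 := h.C2
  C4 := h.C4.s23

lemma Full.s34 (h : Full T G n1 n2 n3 n4 c1 c2 c3 c4) : Full T G n1 n2 n4 n3 c1 c2 c4 c3 where
  p1 := h.p1
  p2 := h.p2
  p3 := h.p4
  p4 := h.p3
  mem := by
    intro x
    rw [h.mem x]
    constructor
    · rintro ⟨a, b, c, d, ha, hb, hc, hd, e⟩
      exact ⟨a, b, d, c, ha, hb, hd, hc, by linarith⟩
    · rintro ⟨a, b, c, d, ha, hb, hc, hd, e⟩
      exact ⟨a, b, d, c, ha, hb, hd, hc, by linarith⟩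
  sym := h.sym
  C1 := h.C1.s23
  C2 := h.C2.s23
  C3 := h.C4
  C4 := h.C3

lemma Sg.of (h : Sg T G n1 n2 n3 n4) {x : ℤ} (a b c d : ℤ) (ha : 0 ≤ a) (hb : 0 ≤ b) (hc : 0 ≤ c)
    (hd : 0 ≤ d) (e : x = a*n1+b*n2+c*n3+d*n4) : T x :=
  (h.mem x).2 ⟨a, b, c, d, ha, hb, hc, hd, e⟩

lemma Sg.add (h : Sg T G n1 n2 n3 n4) {x y : ℤ} (hx : T x) (hy : T y) : T (x + y) := by
  obtain ⟨a, b, c, d, ha, hb, hc, hd, e⟩ := (h.mem x).1 hx
  obtain ⟨a', b', c', d', ha', hb', hc', hd', e'⟩ := (h.mem y).1 hy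
  exact h.of (a + a') (b + b') (c + c') (d + d') (by omega) (by omega) (by omega) (by omega)
    (by rw [e, e']; ring)

lemma Sg.nn (h : Sg T G n1 n2 n3 n4) {x : ℤ} (hx : T x) : 0 ≤ x := by
  obtain ⟨a, b, c, d, ha, hb, hc, hd, e⟩ := (h.mem x).1 hx
  have := h.p1; have := h.p2; have := h.p3; have := h.p4
  rw [e]; positivity

lemma Sg.notG (h : Sg T G n1 n2 n3 n4) : ¬ T G := by
  have h0 : T 0 := h.of 0 0 0 0 le_rfl le_rfl le_rfl le_rfl (by ring)
  have := (h.sym 0).1 h0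
  simpa using this

/-- adding an element and then some nonnegative combination equal to `G` is impossible -/
lemma Sg.noG (h : Sg T G n1 n2 n3 n4) {y : ℤ} (hy : T y) (a b c d : ℤ) (ha : 0 ≤ a) (hb : 0 ≤ b)
    (hc : 0 ≤ c) (hd : 0 ≤ d) : G ≠ y + (a*n1+b*n2+c*n3+d*n4) := by
  intro e
  apply h.notG
  rw [e]
  exact h.add hy (h.of a b c d ha hb hc hd rfl)

lemma Sg.omega1 (h : Sg T G n1 n2 n3 n4) {x : ℤ} (hx : ¬ T (x - n1)) :
    ∃ a b c d : ℤ, 0 ≤ a ∧ 0 ≤ b ∧ 0 ≤ c ∧ 0 ≤ d ∧ G + n1 = x + (a*n1+b*n2+c*n3+d*n4) := by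
  have h1 : T (G - (x - n1)) := by
    by_contra hcon
    exact hx ((h.sym _).2 hcon)
  obtain ⟨a, b, c, d, ha, hb, hc, hd, e⟩ := (h.mem _).1 h1
  exact ⟨a, b, c, d, ha, hb, hc, hd, by linarith⟩

/-- the difference lemma -/
lemma Full.DL (h : Full T G n1 n2 n3 n4 c1 c2 c3 c4) {b c d b' c' d' : ℤ}
    (e : b*n2+c*n3+d*n4 = b'*n2+c'*n3+d'*n4) :
    (b = b' ∧ c = c' ∧ d = d') ∨ (b + c2 ≤ b' ∧ c' ≤ c ∧ d' ≤ d) ∨ (b' + c2 ≤ b ∧ c ≤ c' ∧ d ≤ d') ∨
    (c + c3 ≤ c' ∧ b' ≤ b ∧ d' ≤ d) ∨ (c' + c3 ≤ c ∧ b ≤ b' ∧ d ≤ d') ∨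
    (d + c4 ≤ d' ∧ b' ≤ b ∧ c' ≤ c) ∨ (d' + c4 ≤ d ∧ b ≤ b' ∧ c ≤ c') := by
  have p2 := h.p2; have p3 := h.p3; have p4 := h.p4
  obtain ⟨x, rfl⟩ : ∃ x, b' = b + x := ⟨b' - b, by ring⟩
  obtain ⟨y, rfl⟩ : ∃ y, c' = c + y := ⟨c' - c, by ring⟩
  obtain ⟨z, rfl⟩ : ∃ z, d' = d + z := ⟨d' - d, by ring⟩
  have e0 : x*n2+y*n3+z*n4 = 0 := by linarith
  have z1 : 0 ≤ x → 0 ≤ y → 0 ≤ z → x = 0 ∧ y = 0 ∧ z = 0 := by
    intro hx hy hz
    have a1 : 0 ≤ x * n2 := by positivity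
    have a2 : 0 ≤ y * n3 := by positivity
    have a3 : 0 ≤ z * n4 := by positivity
    refine ⟨?_, ?_, ?_⟩
    · have : x * n2 = 0 := by linarith
      rcases mul_eq_zero.1 this with h | h
      · exact h
      · omega
    · have : y * n3 = 0 := by linarith
      rcases mul_eq_zero.1 this with h | h
      · exact h
      · omega
    · have : z * n4 = 0 := by linarith
      rcases mul_eq_zero.1 this with h | h
      · exact h
      · omega
  have z2 : x ≤ 0 → y ≤ 0 → z ≤ 0 → x = 0 ∧ y = 0 ∧ z = 0 := by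
    intro hx hy hz
    have a1 : 0 ≤ (-x) * n2 := mul_nonneg (by omega) p2.le
    have a2 : 0 ≤ (-y) * n3 := mul_nonneg (by omega) p3.le
    have a3 : 0 ≤ (-z) * n4 := mul_nonneg (by omega) p4.le
    refine ⟨?_, ?_, ?_⟩
    · have : x * n2 = 0 := by linarith
      rcases mul_eq_zero.1 this with h | h
      · exact h
      · omega
    · have : y * n3 = 0 := by linarith
      rcases mul_eq_zero.1 this with h | h
      · exact h
      · omega
    · have : z * n4 = 0 := by linarith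
      rcases mul_eq_zero.1 this with h | h
      · exact h
      · omega
  rcases le_or_gt x 0 with hx | hx
  · rcases le_or_gt y 0 with hy | hy
    · rcases le_or_gt z 0 with hz | hz
      · obtain ⟨a, b, c⟩ := z2 hx hy hz
        left; omega
      · have := h.C4.min z 0 (-x) (-y) hz le_rfl (by omega) (by omega) (by linarith)
        right; right; right; right; right; left; omega
    · rcases le_or_gt z 0 with hz | hz
      · have := h.C3.min y 0 (-x) (-z) hy le_rfl (by omega) (by omega) (by linarith)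
        right; right; right; left; omega
      · rcases eq_or_lt_of_le hx with hx' | hx'
        · obtain ⟨a, b, c⟩ := z1 (by omega) hy.le hz.le
          omega
        · have := h.C2.min (-x) 0 y z (by omega) le_rfl hy.le hz.le (by linarith)
          right; right; left; omega
  · rcases le_or_gt y 0 with hy | hy
    · rcases le_or_gt z 0 with hz | hz
      · have := h.C2.min x 0 (-y) (-z) hx le_rfl (by omega) (by omega) (by linarith)
        right; left; omega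
      · rcases eq_or_lt_of_le hy with hy' | hy'
        · obtain ⟨a, b, c⟩ := z1 hx.le (by omega) hz.le
          omega
        · have := h.C3.min (-y) 0 x z (by omega) le_rfl hx.le hz.le (by linarith)
          right; right; right; right; left; omega
    · rcases le_or_gt 0 z with hz | hz
      · obtain ⟨a, b, c⟩ := z1 hx.le hy.le hz
        omega
      · have := h.C4.min (-z) 0 x y (by omega) le_rfl hx.le hy.le (by linarith)
        right; right; right; right; right; right; omega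

/-- `(c2-1)*n2` is an Apéry element with respect to `n1` -/
lemma Full.top2 (h : Full T G n1 n2 n3 n4 c1 c2 c3 c4) : ¬ T ((c2-1)*n2 - n1) := by
  intro hT
  obtain ⟨a, b, c, d, ha, hb, hc, hd, e⟩ := (h.mem _).1 hT
  have p1 := h.p1; have p2 := h.p2; have p3 := h.p3; have p4 := h.p4
  have e' : (c2-1-b)*n2 = (a+1)*n1+c*n3+d*n4 := by linarith
  have hpos : 0 < (c2-1-b)*n2 := by rw [e']; positivity
  have := (mul_pos_iff_of_pos_right p2).1 hpos
  have := h.C2.min (c2-1-b) (a+1) c d this (by omega) hc hd e'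
  omega

/-- `c2` bound -/
lemma Full.ub2 (h : Full T G n1 n2 n3 n4 c1 c2 c3 c4) (h2 : T (c2*n2-n1)) {a b c d : ℤ}
    (ha : 0 ≤ a) (hc : 0 ≤ c) (hd : 0 ≤ d) (e : G + n1 = a*n1+b*n2+c*n3+d*n4) : b < c2 := by
  by_contra hb
  push Not at hb
  exact h.noG h2 a (b-c2) c d ha (by omega) hc hd (by linarith)

lemma Full.a0 (h : Full T G n1 n2 n3 n4 c1 c2 c3 c4) {a b c d : ℤ}
    (ha : 0 ≤ a) (hb : 0 ≤ b) (hc : 0 ≤ c) (hd : 0 ≤ d) (e : G + n1 = a*n1+b*n2+c*n3+d*n4) :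
    a = 0 := by
  by_contra hcon
  have : 1 ≤ a := by omega
  exact h.notG (h.of (a-1) b c d (by omega) hb hc hd (by linarith))

/-- below a factorization of `ω` everything is Apéry -/
lemma Full.ap (h : Full T G n1 n2 n3 n4 c1 c2 c3 c4) {b c d b' c' d' : ℤ}
    (hb : b ≤ b') (hc : c ≤ c') (hd : d ≤ d') (e : G + n1 = b'*n2+c'*n3+d'*n4) :
    ¬ T (b*n2+c*n3+d*n4-n1) := by
  intro hT
  exact h.noG hT 0 (b'-b) (c'-c) (d'-d) le_rfl (by omega) (by omega) (by omega) (by linarith)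

end

end Pool.Agent.CycE4
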