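import Mathlib
import Pool.Agent.CycE4.Semi

set_option autoImplicit false

namespace Pool.Agent.CycE4

variable {T : ℤ → Prop} {G n1 n2 n3 n4 c1 c2 c3 c4 : ℤ}

lemma Full.fac2 (h : Full T G n1 n2 n3 n4 c1 c2 c3 c4) (h2 : T (c2*n2-n1)) :
    ∃ c d : ℤ, 0 ≤ c ∧ 0 ≤ d ∧ G + n1 = (c2-1)*n2+c*n3+d*n4 := by
  obtain ⟨a, b, c, d, ha, hb, hc, hd, e⟩ := h.omega1 h.top2
  have hp := h.C2.pos
  have e' : G + n1 = a*n1+(b+(c2-1))*n2+c*n3+d*n4 := by linarith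
  have a0 := h.a0 ha (by omega) hc hd e'
  have b0 := h.ub2 h2 ha hc hd e'
  have : b = 0 := by omega
  subst a0 this
  exact ⟨c, d, hc, hd, by linarith⟩

lemma Full.box_omega (h : Full T G n1 n2 n3 n4 c1 c2 c3 c4) (h2 : T (c2*n2-n1))
    (h3 : T (c3*n3-n1)) (h4 : T (c4*n4-n1)) :
    G + n1 = (c2-1)*n2+(c3-1)*n3+(c4-1)*n4 := by
  obtain ⟨c, d, hc, hd, e⟩ := h.fac2 h2
  obtain ⟨b', d', hb', hd', e'⟩ := h.s23.fac2 h3
  obtain ⟨b'', c'', hb'', hc'', e''⟩ := h.s34.s23.fac2 h4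
  have q1 := h.C2.pos
  have q2 := h.C3.pos
  have q3 := h.C4.pos
  have u1 : c < c3 := h.s23.ub2 h3 (a := 0) (b := c) (c := c2-1) (d := d) le_rfl (by omega) hd
    (by linarith)
  have u2 : d < c4 := h.s34.s23.ub2 h4 (a := 0) (b := d) (c := c2-1) (d := c) le_rfl (by omega) hc
    (by linarith)
  have u3 : b' < c2 := h.ub2 h2 (a := 0) (b := b') (c := c3-1) (d := d') le_rfl (by omega) hd'
    (by linarith)
  have u4 : d' < c4 := h.s34.s23.ub2 h4 (a := 0) (b := d') (c := b') (d := c3-1) le_rfl hb'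
    (by omega) (by linarith)
  have u5 : b'' < c2 := h.ub2 h2 (a := 0) (b := b'') (c := c'') (d := c4-1) le_rfl hc'' (by omega)
    (by linarith)
  have u6 : c'' < c3 := h.s23.ub2 h3 (a := 0) (b := c'') (c := b'') (d := c4-1) le_rfl hb''
    (by omega) (by linarith)
  have d1 := h.DL (b := c2-1) (c := c) (d := d) (b' := b') (c' := c3-1) (d' := d') (by linarith)
  have d2 := h.DL (b := c2-1) (c := c) (d := d) (b' := b'') (c' := c'') (d' := c4-1) (by linarith)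
  have k1 : c = c3-1 := by omega
  have k2 : d = c4-1 := by omega
  rw [e, k1, k2]

lemma nat_of_int {g : Fin 4 → ℕ} {u v : Fin 4 → ℕ}
    (h : (u 0 : ℤ) * g 0 + u 1 * g 1 + u 2 * g 2 + u 3 * g 3
      = (v 0 : ℤ) * g 0 + v 1 * g 1 + v 2 * g 2 + v 3 * g 3) : wt g u = wt g v := by
  rw [wt_eq, wt_eq]
  exact_mod_cast h

lemma int_of_nat {g : Fin 4 → ℕ} {u v : Fin 4 → ℕ} (h : wt g u = wt g v) :
    (u 0 : ℤ) * g 0 + u 1 * g 1 + u 2 * g 2 + u 3 * g 3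
      = (v 0 : ℤ) * g 0 + v 1 * g 1 + v 2 * g 2 + v 3 * g 3 := by
  rw [wt_eq, wt_eq] at h
  exact_mod_cast h

lemma rule' {R : AddCon (Fin 4 → ℕ)} {u0 u1 u2 u3 v0 v1 v2 v3 : ℕ} {e : Fin 4 → ℕ}
    (h : R ![u0,u1,u2,u3] ![v0,v1,v2,v3]) (h0 : u0 ≤ e 0) (h1 : u1 ≤ e 1) (h2 : u2 ≤ e 2)
    (h3 : u3 ≤ e 3) : R e ![e 0 - u0 + v0, e 1 - u1 + v1, e 2 - u2 + v2, e 3 - u3 + v3] := by
  have hle : (![u0,u1,u2,u3] : Fin 4 → ℕ) ≤ e := by
    intro m; fin_cases m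
    · simpa using h0
    · simpa using h1
    · simpa using h2
    · simpa using h3
  have := rule h hle
  convert this using 1
  ext m; fin_cases m <;> rfl

theorem box {g : Fin 4 → ℕ} (h : Full T G (g 0) (g 1) (g 2) (g 3) c1 c2 c3 c4)
    (h2 : T (c2*g 1-g 0)) (h3 : T (c3*g 2-g 0)) (h4 : T (c4*g 3-g 0)) : CI g := by
  have hω := h.box_omega h2 h3 h4
  have q2 := h.C2.pos
  have q3 := h.C3.pos
  have q4 := h.C4.pos
  obtain ⟨a2, b2, d2, k2, ha2, hb2, hd2, hk2, e2⟩ := (h.mem _).1 h2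
  obtain ⟨a3, b3, d3, k3, ha3, hb3, hd3, hk3, e3⟩ := (h.mem _).1 h3
  obtain ⟨a4, b4, d4, k4, ha4, hb4, hd4, hk4, e4⟩ := (h.mem _).1 h4
  have q2' := q2.le
  have q3' := q3.le
  have q4' := q4.le
  lift c2 to ℕ using q2'
  lift c3 to ℕ using q3'
  lift c4 to ℕ using q4'
  lift a2 to ℕ using ha2
  lift b2 to ℕ using hb2
  lift d2 to ℕ using hd2
  lift k2 to ℕ using hk2
  lift a3 to ℕ using ha3
  lift b3 to ℕ using hb3
  lift d3 to ℕ using hd3
  lift k3 to ℕ using hk3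
  lift a4 to ℕ using ha4
  lift b4 to ℕ using hb4
  lift d4 to ℕ using hd4
  lift k4 to ℕ using hk4
  have hg0 : 0 < g 0 := by exact_mod_cast h.p1
  refine CI_of_norm hg0 ![![0,c2,0,0],![0,0,c3,0],![0,0,0,c4]]
    ![![a2+1,b2,d2,k2],![a3+1,b3,d3,k3],![a4+1,b4,d4,k4]] ?_
    (fun e => e 1 < c2 ∧ e 2 < c3 ∧ e 3 < c4) ?_ ?_ ?_
  · intro r
    fin_cases r
    · apply nat_of_int; simp; linarith
    · apply nat_of_int; simp; linarith
    · apply nat_of_int; simp; linarith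
  · intro R hR e
    by_cases t0 : 1 ≤ e 0
    · exact ⟨e, R.refl e, Or.inl t0⟩
    by_cases t1 : c2 ≤ e 1
    · refine ⟨_, rule' (hR 0) (e := e) (by omega) (by omega) (by omega) (by omega), Or.inl ?_⟩
      simp; omega
    by_cases t2 : c3 ≤ e 2
    · refine ⟨_, rule' (hR 1) (e := e) (by omega) (by omega) (by omega) (by omega), Or.inl ?_⟩
      simp; omega
    by_cases t3 : c4 ≤ e 3
    · refine ⟨_, rule' (hR 2) (e := e) (by omega) (by omega) (by omega) (by omega), Or.inl ?_⟩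
      simp; omega
    exact ⟨e, R.refl e, Or.inr ⟨by omega, by omega, by omega, by omega⟩⟩
  · rintro e f ⟨h1, h2, h3⟩ e0 f0 hw
    have hw' := int_of_nat hw
    refine h.ap (b := e 1) (c := e 2) (d := e 3) (by omega) (by omega) (by omega) hω ?_
    refine h.of ((f 0 : ℤ) - 1) (f 1) (f 2) (f 3) (by omega) (by omega) (by omega) (by omega) ?_
    rw [e0] at hw'
    push_cast at hw'
    linarith
  · rintro e f ⟨h1, h2, h3⟩ ⟨h1', h2', h3'⟩ e0 f0 hw
    have hw' := int_of_nat hw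
    rw [e0, f0] at hw'
    have := h.DL (b := e 1) (c := e 2) (d := e 3) (b' := f 1) (c' := f 2) (d' := f 3)
      (by push_cast at hw'; linarith)
    ext m
    fin_cases m
    · simp; omega
    · simp; omega
    · simp; omega
    · simp; omega

end Pool.Agent.CycE4
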