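import Mathlib
import Pool.Agent.CycE4.Cases

set_option autoImplicit false

namespace Pool.Agent.CycE4

variable {T : ℤ → Prop} {G n1 n2 n3 n4 c1 c2 c3 c4 : ℤ}

/-- uniqueness for normalized vectors in the case `c4 n4 = c3 n3` -/
lemma Full.gamU (h : Full T G n1 n2 n3 n4 c1 c2 c3 c4) (hw : c4*n4 = c3*n3) {b c d b' c' d' : ℤ}
    (hb : b < c2) (hc : c < c3) (hb' : b' < c2) (hc' : c' < c3) (b0 : 0 ≤ b) (c0 : 0 ≤ c)
    (b0' : 0 ≤ b') (c0' : 0 ≤ c')
    (e : b*n2+c*n3+d*n4 = b'*n2+c'*n3+d'*n4) : b = b' ∧ c = c' ∧ d = d' := by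
  have key : ∀ b c d b' c' d' : ℤ, b < c2 → c < c3 → b' < c2 → c' < c3 → 0 ≤ b → 0 ≤ c → 0 ≤ b' →
      0 ≤ c' → b*n2+c*n3+d*n4 = b'*n2+c'*n3+d'*n4 → d + c4 ≤ d' → b' ≤ b → c' ≤ c → False := by
    intro b c d b' c' d' hb hc hb' hc' b0 c0 b0' c0' e h1 h2 h3
    have p2 := h.p2; have p3 := h.p3; have p4 := h.p4
    have e1 : (b-b')*n2 = (d'-d-c4)*n4 + (c3-(c-c'))*n3 := by linarith
    have : 0 < (b-b')*n2 := by
      rw [e1]
      have q1 : 0 ≤ (d'-d-c4)*n4 := mul_nonneg (by omega) p4.le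
      have q2 : 0 < (c3-(c-c'))*n3 := mul_pos (by omega) p3
      omega
    have h4 := (mul_pos_iff_of_pos_right p2).1 this
    have := h.C2.min (b-b') 0 (c3-(c-c')) (d'-d-c4) h4 le_rfl (by omega) (by omega) (by linarith)
    omega
  rcases h.DL e with h1 | h1 | h1 | h1 | h1 | h1 | h1
  · exact h1
  · omega
  · omega
  · omega
  · omega
  · exact (key b c d b' c' d' hb hc hb' hc' b0 c0 b0' c0' e h1.1 h1.2.1 h1.2.2).elim
  · exact (key b' c' d' b c d hb' hc' hb hc b0' c0' b0 c0 e.symm h1.1 h1.2.1 h1.2.2).elim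

lemma Full.gam_omega (h : Full T G n1 n2 n3 n4 c1 c2 c3 c4) (hw : c4*n4 = c3*n3)
    (hA : ¬ T (c4*n4-n1)) (h2 : T (c2*n2-n1)) :
    ∃ Z Y' : ℤ, 1 ≤ Z ∧ Z ≤ c3 ∧ 1 ≤ Y' ∧ G + n1 = (c2-1)*n2+(Z-1)*n3+(Y'+c4-1)*n4 ∧
      T (Z*n3+Y'*n4-n1) := by
  obtain ⟨c, d, hc, hd, e⟩ := h.fac2 h2
  have q2 := h.C2.pos
  have q3 := h.C3.pos
  have q4 := h.C4.pos
  have norm : ∀ a b c d a' b' c' d' : ℤ, 0 ≤ a → 0 ≤ b → 0 ≤ c → 0 ≤ d →
      0 ≤ a' → 0 ≤ b' → 0 ≤ c' → 0 ≤ d' →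
      G + n1 = a*n1+b*n2+c*n3+d*n4 → G + n1 = a'*n1+b'*n2+c'*n3+d'*n4 →
      a = 0 ∧ b = b' ∧ c % c3 = c' % c3 ∧ d + (c/c3)*c4 = d' + (c'/c3)*c4 := by
    intro a b c d a' b' c' d' ha hb hc hd ha' hb' hc' hd' e e'
    have a0 := h.a0 ha hb hc hd e
    have a0' := h.a0 ha' hb' hc' hd' e'
    have b0 := h.ub2 h2 ha hc hd e
    have b0' := h.ub2 h2 ha' hc' hd' e'
    subst a0 a0'
    have m1 := Int.emod_lt_of_pos c q3
    have m2 := Int.emod_lt_of_pos c' q3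
    have m3 := Int.emod_nonneg c q3.ne'
    have m4 := Int.emod_nonneg c' q3.ne'
    have s1 : c3 * (c / c3) + c % c3 = c := by have := Int.mul_ediv_add_emod c c3; linarith
    have s2 : c3 * (c' / c3) + c' % c3 = c' := by have := Int.mul_ediv_add_emod c' c3; linarith
    have s3 : b*n2+(c%c3)*n3+(d+(c/c3)*c4)*n4 = G + n1 := by
      have : (c/c3)*(c4*n4) = (c/c3)*(c3*n3) := by rw [hw]
      have s1' : c * n3 = (c3 * (c / c3) + c % c3)*n3 := by rw [s1]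
      linarith
    have s4 : b'*n2+(c'%c3)*n3+(d'+(c'/c3)*c4)*n4 = G + n1 := by
      have : (c'/c3)*(c4*n4) = (c'/c3)*(c3*n3) := by rw [hw]
      have s1' : c' * n3 = (c3 * (c' / c3) + c' % c3)*n3 := by rw [s2]
      linarith
    have := h.gamU hw b0 m1 b0' m2 hb m3 hb' m4 (s3.trans s4.symm)
    exact ⟨rfl, this⟩
  have c2' : 0 ≤ c2 - 1 := by omega
  have F : ∀ a b x y : ℤ, 0 ≤ a → 0 ≤ b → 0 ≤ x → 0 ≤ y → G + n1 = a*n1+b*n2+x*n3+y*n4 →
      x % c3 = c % c3 ∧ y + (x/c3)*c4 = d + (c/c3)*c4 := by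
    intro a b x y ha hb hx hy e'
    exact (norm a b x y 0 (c2-1) c d ha hb hx hy le_rfl c2' hc hd e' (by linarith)).2.2
  have m1 := Int.emod_lt_of_pos c q3
  have m3 := Int.emod_nonneg c q3.ne'
  have s1 : c3 * (c / c3) + c % c3 = c := by have := Int.mul_ediv_add_emod c c3; linarith
  have dn : 0 ≤ c / c3 := Int.ediv_nonneg hc q3.le
  -- Y ≥ c4 + 1
  obtain ⟨a', b', x', y', ha', hb', hx', hy', e'⟩ := h.omega1 hA
  obtain ⟨f1, f2⟩ := F a' b' x' (y'+c4) ha' hb' hx' (by omega) (by linarith)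
  have dn' : 0 ≤ x' / c3 := Int.ediv_nonneg hx' q3.le
  have dn'' : 0 ≤ (x' / c3) * c4 := mul_nonneg dn' q4.le
  refine ⟨c % c3 + 1, d + (c/c3)*c4 + 1 - c4, by omega, by omega, by omega, ?_, ?_⟩
  · have : (c/c3)*(c4*n4) = (c/c3)*(c3*n3) := by rw [hw]
    have s1' : c * n3 = (c3 * (c / c3) + c % c3)*n3 := by rw [s1]
    linarith
  · by_contra hcon
    obtain ⟨a, b, x, y, ha, hb, hx, hy, e''⟩ := h.omega1 hcon
    obtain ⟨g1, g2⟩ := F a b (x + (c % c3 + 1)) (y + (d + (c/c3)*c4 + 1 - c4)) ha hb (by omega)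
      (by omega) (by linarith)
    have s5 := Int.mul_ediv_add_emod (x + (c % c3 + 1)) c3
    rw [g1] at s5
    have s6 : 0 < c3 * ((x + (c % c3 + 1)) / c3) := by omega
    have s7 := (mul_pos_iff_of_pos_left q3).1 s6
    have s8 : c4 ≤ ((x + (c % c3 + 1)) / c3) * c4 := by nlinarith
    omega

theorem gam {g : Fin 4 → ℕ} (h : Full T G (g 0) (g 1) (g 2) (g 3) c1 c2 c3 c4)
    (hw : c4*g 3 = c3*g 2) (hA : ¬ T (c4*g 3-g 0)) (h2 : T (c2*g 1-g 0)) : CI g := by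
  obtain ⟨Z, Y', hZ1, hZ2, hY', hω, hT⟩ := h.gam_omega hw hA h2
  have q2 := h.C2.pos
  have q3 := h.C3.pos
  have q4 := h.C4.pos
  obtain ⟨a2, b2, d2, k2, ha2, hb2, hd2, hk2, e2⟩ := (h.mem _).1 h2
  obtain ⟨a3, b3, d3, k3, ha3, hb3, hd3, hk3, e3⟩ := (h.mem _).1 hT
  have q2' := q2.le
  have q3' := q3.le
  have q4' := q4.le
  have hZ' : 0 ≤ Z := by omega
  have hY'' : 0 ≤ Y' := by omega
  lift Z to ℕ using hZ'
  lift Y' to ℕ using hY''
  lift c2 to ℕ using q2'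
  lift c3 to ℕ using q3'
  lift c4 to ℕ using q4'
  lift a2 to ℕ using ha2
  lift b2 to ℕ using hb2
  lift d2 to ℕ using hd2
  lift k2 to ℕ using hk2
  lift a3 to ℕ using ha3
  lift b3 to ℕ using hb3
  lift d3 to ℕ using hd3
  lift k3 to ℕ using hk3
  have hg0 : 0 < g 0 := by exact_mod_cast h.p1
  refine CI_of_norm hg0 ![![0,c2,0,0],![0,0,c3,0],![0,0,Z,Y']]
    ![![a2+1,b2,d2,k2],![0,0,0,c4],![a3+1,b3,d3,k3]] ?_
    (fun e => e 1 < c2 ∧ e 2 < c3 ∧ e 3 < Y' + c4 ∧ (e 2 < Z ∨ e 3 < Y')) ?_ ?_ ?_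
  · intro r
    fin_cases r
    · apply nat_of_int; simp; linarith
    · apply nat_of_int; simp; linarith
    · apply nat_of_int; simp; linarith
  · intro R hR
    have main : ∀ n, ∀ e : Fin 4 → ℕ, e 2 = n → ∃ e', R e e' ∧ (1 ≤ e' 0 ∨ (e' 0 = 0 ∧
        (e' 1 < c2 ∧ e' 2 < c3 ∧ e' 3 < Y' + c4 ∧ (e' 2 < Z ∨ e' 3 < Y')))) := by
      intro n
      induction n using Nat.strong_induction_on with
      | _ n ih =>
        intro e he
        by_cases t0 : 1 ≤ e 0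
        · exact ⟨e, R.refl e, Or.inl t0⟩
        by_cases t1 : c2 ≤ e 1
        · refine ⟨_, rule' (hR 0) (e := e) (by omega) (by omega) (by omega) (by omega), Or.inl ?_⟩
          simp; omega
        by_cases t2 : c3 ≤ e 2
        · have r1 := rule' (hR 1) (e := e) (by omega) (by omega) (by omega) (by omega)
          obtain ⟨e', h1, h2⟩ := ih (e 2 - c3) (by omega)
            ![e 0 - 0 + 0, e 1 - 0 + 0, e 2 - c3 + 0, e 3 - 0 + c4] (by simp)
          exact ⟨e', R.trans r1 h1, h2⟩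
        by_cases t3 : Z ≤ e 2
        · by_cases t4 : Y' ≤ e 3
          · refine ⟨_, rule' (hR 2) (e := e) (by omega) (by omega) (by omega) (by omega),
              Or.inl ?_⟩
            simp; omega
          · exact ⟨e, R.refl e, Or.inr ⟨by omega, by omega, by omega, by omega, by omega⟩⟩
        · by_cases t4 : e 3 < Y' + c4
          · exact ⟨e, R.refl e, Or.inr ⟨by omega, by omega, by omega, by omega, by omega⟩⟩
          · have r1 := rule' (R.symm (hR 1)) (e := e) (by omega) (by omega) (by omega)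
              (by omega)
            have r2 := rule' (hR 2) (e := ![e 0 - 0 + 0, e 1 - 0 + 0, e 2 - 0 + c3, e 3 - c4 + 0])
              (by simp) (by simp) (by simp; omega) (by simp; omega)
            refine ⟨_, R.trans r1 r2, Or.inl ?_⟩
            simp; omega
    intro e
    exact main _ e rfl
  · rintro e f ⟨h1, h2, h3, h4⟩ e0 f0 hw'
    have hw'' := int_of_nat hw'
    have hT : T ((e 1 : ℤ)*g 1+e 2*g 2+e 3*g 3-g 0) := by
      refine h.of ((f 0 : ℤ) - 1) (f 1) (f 2) (f 3) (by omega) (by omega) (by omega) (by omega) ?_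
      rw [e0] at hw''
      push_cast at hw''
      linarith
    rcases h4 with h4 | h4
    · exact h.ap (b := e 1) (c := e 2) (d := e 3) (by omega) (by omega) (by omega) hω hT
    · refine h.ap (b := e 1) (c := e 2) (d := e 3) (b' := c2 - 1) (c' := Z - 1 + c3)
        (d' := Y' - 1) (by omega) (by omega) (by omega) ?_ hT
      linarith
  · rintro e f ⟨h1, h2, h3, h4⟩ ⟨h1', h2', h3', h4'⟩ e0 f0 hw'
    have hw'' := int_of_nat hw'
    rw [e0, f0] at hw''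
    have := h.gamU hw (b := e 1) (c := e 2) (d := e 3) (b' := f 1) (c' := f 2) (d' := f 3)
      (by omega) (by omega) (by omega) (by omega) (by omega) (by omega) (by omega) (by omega)
      (by push_cast at hw''; linarith)
    ext m
    fin_cases m
    · simp; omega
    · simp; omega
    · simp; omega
    · simp; omega

end Pool.Agent.CycE4
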