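import Mathlib
import Pool.Agent.CycE4.Gam

set_option autoImplicit false

namespace Pool.Agent.CycE4

variable {T : ℤ → Prop} {G n1 n2 n3 n4 c1 c2 c3 c4 : ℤ}

lemma CI_perm' {g : Fin 4 → ℕ} (τ : Fin 4 → Fin 4) (hτ : Function.Injective τ)
    (h : CI (g ∘ τ)) : CI g := by
  have hb : Function.Bijective τ := Finite.injective_iff_bijective.1 hτ
  exact CI_perm (Equiv.ofBijective τ hb) h

lemma Full.eq_of_two (h : Full T G n1 n2 n3 n4 c1 c2 c3 c4) (hA14 : ¬ T (c4*n4-n1))
    (hA24 : ¬ T (c4*n4-n2)) : c4*n4 = c3*n3 := by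
  have p1 := h.p1; have p2 := h.p2; have p3 := h.p3; have p4 := h.p4
  have q3 := h.C3.pos; have q4 := h.C4.pos
  obtain ⟨a, b, d, ha, hb, hd, e⟩ := h.C4.ex
  have a0 : a = 0 := by
    by_contra hcon
    exact hA14 (h.of (a-1) b d 0 (by omega) hb hd le_rfl (by linarith))
  have b0 : b = 0 := by
    by_contra hcon
    exact hA24 (h.of a (b-1) d 0 (by omega) (by omega) hd le_rfl (by linarith))
  subst a0 b0
  have d0 : 0 < d := by
    have : 0 < d*n3 := by
      have : 0 < c4*n4 := mul_pos q4 p4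
      linarith
    exact (mul_pos_iff_of_pos_right p3).1 this
  have c3d : c3 ≤ d := h.C3.min d 0 0 c4 d0 le_rfl le_rfl q4.le (by linarith)
  obtain ⟨a', b', d', ha', hb', hd', e'⟩ := h.C3.ex
  have a0 : a' = 0 := by
    by_contra hcon
    exact hA14 (h.of (a'-1) b' (d-c3) d' (by omega) hb' (by omega) hd' (by linarith))
  have b0 : b' = 0 := by
    by_contra hcon
    exact hA24 (h.of a' (b'-1) (d-c3) d' ha' (by omega) (by omega) hd' (by linarith))
  subst a0 b0
  have d0' : 0 < d' := by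
    have : 0 < d'*n4 := by
      have : 0 < c3*n3 := mul_pos q3 p3
      linarith
    exact (mul_pos_iff_of_pos_right p4).1 this
  have c4d : c4 ≤ d' := h.C4.min d' 0 0 c3 d0' le_rfl le_rfl q3.le (by linarith)
  have : d = c3 := by
    apply le_antisymm _ c3d
    have : d*n3 ≤ c3*n3 := by
      have := mul_le_mul_of_nonneg_right c4d p4.le
      linarith
    exact le_of_mul_le_mul_right this p3
  subst this
  linarith

lemma Full.aux1 (h : Full T G n1 n2 n3 n4 c1 c2 c3 c4) (hw : c4*n4 = c3*n3)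
    (hA : ¬ T (c1*n1-n2)) : T (c1*n1-n4) := by
  have p1 := h.p1; have p2 := h.p2; have p3 := h.p3; have p4 := h.p4
  have q1 := h.C1.pos; have q3 := h.C3.pos; have q4 := h.C4.pos
  obtain ⟨a, b, d, ha, hb, hd, e⟩ := h.C1.ex
  have a0 : a = 0 := by
    by_contra hcon
    exact hA (h.of 0 (a-1) b d le_rfl (by omega) hb hd (by linarith))
  subst a0
  by_cases d0 : 1 ≤ d
  · exact h.of 0 0 b (d-1) le_rfl le_rfl hb (by omega) (by linarith)
  · have d0 : d = 0 := by omega
    subst d0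
    have b0 : 0 < b := by
      have : 0 < b*n3 := by
        have : 0 < c1*n1 := mul_pos q1 p1
        linarith
      exact (mul_pos_iff_of_pos_right p3).1 this
    have c3b : c3 ≤ b := h.C3.min b c1 0 0 b0 q1.le le_rfl le_rfl (by linarith)
    exact h.of 0 0 (b-c3) (c4-1) le_rfl le_rfl (by omega) (by omega) (by linarith)

theorem case2 {g : Fin 4 → ℕ} (h : Full T G (g 0) (g 1) (g 2) (g 3) c1 c2 c3 c4)
    (hA14 : ¬ T (c4*g 3-g 0)) (hA24 : ¬ T (c4*g 3-g 1)) : CI g := by
  have hw := h.eq_of_two hA14 hA24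
  have q4 := h.C4.pos
  by_cases k : T (c2*g 1-g 0)
  · exact gam h hw hA14 k
  by_cases k' : T (c1*g 0-g 1)
  · exact CI_perm' ![1,0,2,3] (by decide) (gam (g := g ∘ ![1,0,2,3]) h.s12 hw hA24 k')
  · -- base 4 is a box
    have t1 : T (c1*g 0-g 3) := h.aux1 hw k'
    have t2 : T (c2*g 1-g 3) := h.s12.aux1 hw k
    have t3 : T (c3*g 2-g 3) := h.of 0 0 0 (c4-1) le_rfl le_rfl le_rfl (by omega) (by linarith)
    exact CI_perm' ![3,0,1,2] (by decide)
      (box (g := g ∘ ![3,0,1,2]) (h.s34.s23.s12) t1 t2 t3)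

end Pool.Agent.CycE4
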