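import Mathlib
import Pool.Agent.CycE4.Case2

set_option autoImplicit false

namespace Pool.Agent.CycE4

variable {T : ℤ → Prop} {G n1 n2 n3 n4 c1 c2 c3 c4 : ℤ}

lemma Full.two_term (h : Full T G n1 n2 n3 n4 c1 c2 c3 c4) (hA14 : ¬ T (c4*n4-n1))
    (h12 : T (c2*n2-n1)) (h13 : T (c3*n3-n1)) (h24 : T (c4*n4-n2)) (h34 : T (c4*n4-n3)) :
    ∃ s t : ℤ, 1 ≤ s ∧ 1 ≤ t ∧ s < c2 ∧ t < c3 ∧ c4*n4 = s*n2+t*n3 := by
  have p1 := h.p1; have p2 := h.p2; have p3 := h.p3; have p4 := h.p4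
  have q2 := h.C2.pos; have q3 := h.C3.pos; have q4 := h.C4.pos
  have sb : ∀ s t : ℤ, 0 ≤ s → 0 ≤ t → c4*n4 = s*n2+t*n3 → s < c2 ∧ t < c3 := by
    intro s t hs ht e
    constructor
    · by_contra hcon
      push Not at hcon
      apply hA14
      have := h.add h12 (h.of 0 (s-c2) t 0 le_rfl (by omega) ht le_rfl rfl)
      convert this using 1
      rw [e]; ring
    · by_contra hcon
      push Not at hcon
      apply hA14
      have := h.add h13 (h.of 0 s (t-c3) 0 le_rfl hs (by omega) le_rfl rfl)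
      convert this using 1
      rw [e]; ring
  have red : ∀ a b c d : ℤ, 0 ≤ a → 0 ≤ b → 0 ≤ c → 0 ≤ d → 1 ≤ b + c →
      c4*n4 = a*n1+b*n2+c*n3+d*n4 → a = 0 ∧ d = 0 := by
    intro a b c d ha hb hc hd hbc e
    have a0 : a = 0 := by
      by_contra hcon
      exact hA14 (h.of (a-1) b c d (by omega) hb hc hd (by linarith))
    subst a0
    have : 0 < (c4-d)*n4 := by
      have e1 : (c4-d)*n4 = b*n2+c*n3 := by linarith
      rw [e1]
      rcases eq_or_lt_of_le hb with hb0 | hb0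
      · have : 0 < c*n3 := mul_pos (by omega) p3
        have : 0 ≤ b*n2 := mul_nonneg hb p2.le
        omega
      · have : 0 < b*n2 := mul_pos (by omega) p2
        have : 0 ≤ c*n3 := mul_nonneg hc p3.le
        omega
    have h1 := (mul_pos_iff_of_pos_right p4).1 this
    have := h.C4.min (c4-d) 0 b c h1 le_rfl hb hc (by linarith)
    omega
  obtain ⟨a, b, c, d, ha, hb, hc, hd, e⟩ := (h.mem _).1 h24
  obtain ⟨a', b', c', d', ha', hb', hc', hd', e'⟩ := (h.mem _).1 h34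
  obtain ⟨r1, r2⟩ := red a (b+1) c d ha (by omega) hc hd (by omega) (by linarith)
  obtain ⟨r3, r4⟩ := red a' b' (c'+1) d' ha' hb' (by omega) hd' (by omega) (by linarith)
  subst r1 r2 r3 r4
  obtain ⟨s1, s2⟩ := sb (b+1) c (by omega) hc (by linarith)
  obtain ⟨s3, s4⟩ := sb b' (c'+1) hb' (by omega) (by linarith)
  by_cases c0 : 1 ≤ c
  · exact ⟨b+1, c, by omega, c0, s1, s2, by linarith⟩
  · have : c = 0 := by omega
    subst this
    have e2 : (b+1-b')*n2 = (c'+1)*n3 := by linarith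
    have e3 : 0 < (b+1-b')*n2 := by
      rw [e2]; exact mul_pos (by omega) p3
    have h1 := (mul_pos_iff_of_pos_right p2).1 e3
    have := h.C2.min (b+1-b') 0 (c'+1) 0 h1 le_rfl (by omega) le_rfl (by linarith)
    omega

/-- data of the last case -/
structure Pf (T : ℤ → Prop) (G n1 n2 n3 n4 c1 X Y R s t Z : ℤ) : Prop extends
    Full T G n1 n2 n3 n4 c1 X Y R where
  A14 : ¬ T (R*n4-n1)
  B12 : T (X*n2-n1)
  B13 : T (Y*n3-n1)
  B24 : T (R*n4-n2)
  B34 : T (R*n4-n3)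
  s1 : 1 ≤ s
  t1 : 1 ≤ t
  sX : s < X
  tY : t < Y
  tt : R*n4 = s*n2+t*n3
  Z1 : 1 ≤ Z
  ZR : Z ≤ R
  om : G + n1 = (X-1)*n2+(Y-1)*n3+(Z-1)*n4

lemma Full.toPf (h : Full T G n1 n2 n3 n4 c1 c2 c3 c4) (hA14 : ¬ T (c4*n4-n1))
    (h12 : T (c2*n2-n1)) (h13 : T (c3*n3-n1)) (h24 : T (c4*n4-n2)) (h34 : T (c4*n4-n3)) :
    ∃ s t Z : ℤ, Pf T G n1 n2 n3 n4 c1 c2 c3 c4 s t Z := by
  obtain ⟨s, t, s1, t1, sX, tY, tt⟩ := h.two_term hA14 h12 h13 h24 h34
  have p1 := h.p1; have p2 := h.p2; have p3 := h.p3; have p4 := h.p4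
  have q2 := h.C2.pos; have q3 := h.C3.pos; have q4 := h.C4.pos
  obtain ⟨c, d, hc, hd, e⟩ := h.fac2 h12
  obtain ⟨b', d', hb', hd', e'⟩ := h.s23.fac2 h13
  have u1 : c < c3 := h.s23.ub2 h13 (a := 0) (b := c) (c := c2-1) (d := d) le_rfl (by omega) hd
    (by linarith)
  have u3 : b' < c2 := h.ub2 h12 (a := 0) (b := b') (c := c3-1) (d := d') le_rfl (by omega) hd'
    (by linarith)
  have u2 : d < c4 := by
    by_contra hcon
    push Not at hcon
    have := h.ub2 h12 (a := 0) (b := c2-1+s) (c := c+t) (d := d-c4) le_rfl (by omega) (by omega)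
      (by linarith)
    omega
  have u4 : d' < c4 := by
    by_contra hcon
    push Not at hcon
    have := h.s23.ub2 h13 (a := 0) (b := c3-1+t) (c := b'+s) (d := d'-c4) le_rfl (by omega)
      (by omega) (by linarith)
    omega
  have d1 := h.DL (b := c2-1) (c := c) (d := d) (b' := b') (c' := c3-1) (d' := d') (by linarith)
  have k1 : c = c3-1 := by omega
  exact ⟨s, t, d+1,
    { toFull := h
      A14 := hA14
      B12 := h12
      B13 := h13
      B24 := h24
      B34 := h34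
      s1 := s1
      t1 := t1
      sX := sX
      tY := tY
      tt := tt
      Z1 := by omega
      ZR := by omega
      om := by rw [e, k1]; ring }⟩

section
variable {X Y R s t Z : ℤ}

lemma Pf.swap (h : Pf T G n1 n2 n3 n4 c1 X Y R s t Z) : Pf T G n1 n3 n2 n4 c1 Y X R t s Z :=
  { toFull := h.s23
    A14 := h.A14
    B12 := h.B13
    B13 := h.B12
    B24 := h.B34
    B34 := h.B24
    s1 := h.t1
    t1 := h.s1
    sX := h.tY
    tY := h.sX
    tt := by rw [h.tt]; ring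
    Z1 := h.Z1
    ZR := h.ZR
    om := by rw [h.om]; ring }

lemma Pf.Qin1 (h : Pf T G n1 n2 n3 n4 c1 X Y R s t Z) {b c d : ℤ} (hb : b < X) (hc : c < Y)
    (hd : d < Z) : ¬ T (b*n2+c*n3+d*n4-n1) :=
  h.ap (b' := X-1) (c' := Y-1) (d' := Z-1) (by omega) (by omega) (by omega) h.om

lemma Pf.Qin2 (h : Pf T G n1 n2 n3 n4 c1 X Y R s t Z) {b c d : ℤ} (hb : b < X-s) (hc : c < Y-t)
    (hd : d < R) : ¬ T (b*n2+c*n3+d*n4-n1) := by
  have := h.Z1
  refine h.ap (b' := X-s-1) (c' := Y-t-1) (d' := R+Z-1) (by omega) (by omega) (by omega) ?_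
  have := h.om
  have := h.tt
  linarith

lemma Pf.Qout (h : Pf T G n1 n2 n3 n4 c1 X Y R s t Z) {b c d : ℤ} (hb : 0 ≤ b) (hc : 0 ≤ c)
    (hd : 0 ≤ d) (hT : ¬ T (b*n2+c*n3+d*n4-n1)) :
    (b < X ∧ c < Y ∧ d < Z) ∨ (b < X-s ∧ c < Y-t) := by
  obtain ⟨a', b', c', d', ha', hb', hc', hd', e⟩ := h.omega1 hT
  have p1 := h.p1; have p2 := h.p2; have p3 := h.p3; have p4 := h.p4
  have q2 := h.C2.pos; have q3 := h.C3.pos; have q4 := h.C4.pos
  have s1 := h.s1; have t1 := h.t1; have sX := h.sX; have tY := h.tY; have tt := h.tt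
  have Z1 := h.Z1; have ZR := h.ZR; have om := h.om
  have a0 := h.a0 (a := a') (b := b+b') (c := c+c') (d := d+d') ha' (by omega) (by omega)
    (by omega) (by linarith)
  subst a0
  set m := (d+d')/R with hm
  have hr0 := Int.emod_nonneg (d+d') q4.ne'
  have hr1 := Int.emod_lt_of_pos (d+d') q4
  have hmr : R*m + (d+d')%R = d+d' := Int.mul_ediv_add_emod (d+d') R
  set r := (d+d')%R with hr
  have hm0 : 0 ≤ m := Int.ediv_nonneg (by omega) q4.le
  have hms : 0 ≤ m*s := mul_nonneg hm0 (by omega)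
  have hmt : 0 ≤ m*t := mul_nonneg hm0 (by omega)
  have e2 : G + n1 = 0*n1+(b+b'+m*s)*n2+(c+c'+m*t)*n3+r*n4 := by
    have k : m*(R*n4) = m*(s*n2+t*n3) := by rw [tt]
    have k2 : (d+d')*n4 = (R*m + r)*n4 := by rw [hmr]
    linarith
  have v1 := h.ub2 h.B12 (a := 0) (b := b+b'+m*s) (c := c+c'+m*t) (d := r) le_rfl (by omega) hr0 e2
  have v2 := h.s23.ub2 h.B13 (a := 0) (b := c+c'+m*t) (c := b+b'+m*s) (d := r) le_rfl (by omega)
    hr0 (by linarith)
  have d1 := h.DL (b := b+b'+m*s) (c := c+c'+m*t) (d := r) (b' := X-1) (c' := Y-1) (d' := Z-1)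
    (by linarith)
  have d2 : b+b'+m*s = X-1 ∧ c+c'+m*t = Y-1 ∧ r = Z-1 := by omega
  rcases eq_or_lt_of_le hm0 with hm1 | hm1
  · left
    rw [← hm1] at d2 hmr
    simp at d2 hmr
    omega
  · right
    have : s ≤ m*s := by nlinarith
    have : t ≤ m*t := by nlinarith
    omega

end

theorem beta {g : Fin 4 → ℕ} {s t : ℤ}
    (h : Pf T G (g 0) (g 1) (g 2) (g 3) c1 c2 c3 c4 s t c4) : CI g := by
  have hω := h.om
  have q2 := h.C2.pos
  have q3 := h.C3.pos
  have q4 := h.C4.pos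
  have tt := h.tt
  have s1 := h.s1
  have t1 := h.t1
  obtain ⟨a2, b2, d2, k2, ha2, hb2, hd2, hk2, e2⟩ := (h.mem _).1 h.B12
  obtain ⟨a3, b3, d3, k3, ha3, hb3, hd3, hk3, e3⟩ := (h.mem _).1 h.B13
  have q2' := q2.le
  have q3' := q3.le
  have q4' := q4.le
  have s1' : 0 ≤ s := by omega
  have t1' : 0 ≤ t := by omega
  lift c2 to ℕ using q2'
  lift c3 to ℕ using q3'
  lift c4 to ℕ using q4'
  lift s to ℕ using s1'
  lift t to ℕ using t1'
  lift a2 to ℕ using ha2
  lift b2 to ℕ using hb2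
  lift d2 to ℕ using hd2
  lift k2 to ℕ using hk2
  lift a3 to ℕ using ha3
  lift b3 to ℕ using hb3
  lift d3 to ℕ using hd3
  lift k3 to ℕ using hk3
  have hg0 : 0 < g 0 := by exact_mod_cast h.p1
  refine CI_of_norm hg0 ![![0,c2,0,0],![0,0,c3,0],![0,0,0,c4]]
    ![![a2+1,b2,d2,k2],![a3+1,b3,d3,k3],![0,s,t,0]] ?_
    (fun e => e 1 < c2 ∧ e 2 < c3 ∧ e 3 < c4) ?_ ?_ ?_
  · intro r
    fin_cases r
    · apply nat_of_int; simp; linarith
    · apply nat_of_int; simp; linarith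
    · apply nat_of_int; simp; linarith
  · intro R hR
    have main : ∀ n, ∀ e : Fin 4 → ℕ, e 3 = n → ∃ e', R e e' ∧ (1 ≤ e' 0 ∨ (e' 0 = 0 ∧
        (e' 1 < c2 ∧ e' 2 < c3 ∧ e' 3 < c4))) := by
      intro n
      induction n using Nat.strong_induction_on with
      | _ n ih =>
        intro e he
        by_cases t0 : 1 ≤ e 0
        · exact ⟨e, R.refl e, Or.inl t0⟩
        by_cases t1 : c2 ≤ e 1
        · refine ⟨_, rule' (hR 0) (e := e) (by omega) (by omega) (by omega) (by omega), Or.inl ?_⟩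
          simp; omega
        by_cases t2 : c3 ≤ e 2
        · refine ⟨_, rule' (hR 1) (e := e) (by omega) (by omega) (by omega) (by omega), Or.inl ?_⟩
          simp; omega
        by_cases t3 : c4 ≤ e 3
        · have r1 := rule' (hR 2) (e := e) (by omega) (by omega) (by omega) (by omega)
          obtain ⟨e', h1, h2⟩ := ih (e 3 - c4) (by omega)
            ![e 0 - 0 + 0, e 1 - 0 + s, e 2 - 0 + t, e 3 - c4 + 0] (by simp)
          exact ⟨e', R.trans r1 h1, h2⟩
        exact ⟨e, R.refl e, Or.inr ⟨by omega, by omega, by omega, by omega⟩⟩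
    intro e
    exact main _ e rfl
  · rintro e f ⟨h1, h2, h3⟩ e0 f0 hw
    have hw' := int_of_nat hw
    refine h.ap (b := e 1) (c := e 2) (d := e 3) (by omega) (by omega) (by omega) hω ?_
    refine h.of ((f 0 : ℤ) - 1) (f 1) (f 2) (f 3) (by omega) (by omega) (by omega) (by omega) ?_
    rw [e0] at hw'
    push_cast at hw'
    linarith
  · rintro e f ⟨h1, h2, h3⟩ ⟨h1', h2', h3'⟩ e0 f0 hw
    have hw' := int_of_nat hw
    rw [e0, f0] at hw'
    have := h.DL (b := e 1) (c := e 2) (d := e 3) (b' := f 1) (c' := f 2) (d' := f 3)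
      (by push_cast at hw'; linarith)
    ext m
    fin_cases m
    · simp; omega
    · simp; omega
    · simp; omega
    · simp; omega

end Pool.Agent.CycE4
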