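import Mathlib
import Pool.Agent.CycE4.Case3

set_option autoImplicit false

namespace Pool.Agent.CycE4

variable {T : ℤ → Prop} {G n1 n2 n3 n4 c1 X Y R s t Z : ℤ}

lemma Pf.rel1 (h : Pf T G n1 n2 n3 n4 c1 X Y R s t Z) (hZR : Z < R) :
    ∃ μ y : ℤ, 1 ≤ μ ∧ 0 ≤ y ∧ (X-s)*n2+Z*n4 = μ*n1+y*n3 := by
  have sX := h.sX; have tY := h.tY; have s1 := h.s1; have t1 := h.t1; have Z1 := h.Z1
  have hT : T ((X-s)*n2+0*n3+Z*n4-n1) := by
    by_contra hcon
    have := h.Qout (b := X-s) (c := 0) (d := Z) (by omega) le_rfl (by omega) hcon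
    omega
  obtain ⟨a, b, c, d, ha, hb, hc, hd, e⟩ := (h.mem _).1 hT
  have b0 : b = 0 := by
    by_contra hcon
    refine h.Qin2 (b := X-s-1) (c := 0) (d := Z) (by omega) (by omega) (by omega) ?_
    exact h.of a (b-1) c d ha (by omega) hc hd (by linarith)
  have d0 : d = 0 := by
    by_contra hcon
    refine h.Qin1 (b := X-s) (c := 0) (d := Z-1) (by omega) (by omega) (by omega) ?_
    exact h.of a b c (d-1) ha (by omega) hc (by omega) (by linarith)
  subst b0 d0
  exact ⟨a+1, c, by omega, hc, by linarith⟩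

/-- main equation -/
lemma Pf.e2 (h : Pf T G n1 n2 n3 n4 c1 X Y R s t Z) {μ y : ℤ}
    (e : (X-s)*n2+Z*n4 = μ*n1+y*n3) :
    G + n1 + n2 = μ*n1+(y+(Y-t)-1)*n3+(R-1)*n4 := by
  have := h.om
  have := h.tt
  linarith

lemma Pf.notboth (h : Pf T G n1 n2 n3 n4 c1 X Y R s t Z) (hZR : Z < R) {μ y μ' x : ℤ}
    (hμ : 1 ≤ μ) (hμ' : 1 ≤ μ') (e : (X-s)*n2+Z*n4 = μ*n1+y*n3)
    (e' : (Y-t)*n3+Z*n4 = μ'*n1+x*n2) (hx : 1 ≤ x) (hy : 1 ≤ y) : False := by
  have h1 := h.e2 e
  apply h.notG
  exact h.of (μ+μ'-1) (x-1) (y-1) (R-1-Z) (by omega) (by omega) (by omega) (by omega) (by linarith)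

/-- the sign lemma -/
lemma Pf.signs (h : Pf T G n1 n2 n3 n4 c1 X Y R s t Z) (hZR : Z < R) {μ y μ' : ℤ}
    (hμ : 1 ≤ μ) (hy : 0 ≤ y) (hμ' : 1 ≤ μ') (e : (X-s)*n2+Z*n4 = μ*n1+y*n3)
    (e' : (Y-t)*n3+Z*n4 = μ'*n1)
    (h2 : ¬ T (X*n2-n3) ∨ ¬ T (X*n2-n4))
    (h1 : ¬ T (c1*n1-n2) ∨ ∃ s' t' r' : ℤ, 1 ≤ s' ∧ 0 ≤ t' ∧ 0 ≤ r' ∧ 1 ≤ t' + r' ∧
      c1*n1 = s'*n2+t'*n3+r'*n4)
    (h23 : ¬ T (c1*n1-n2) → T (Y*n3-n2)) :
    (X-s)*n2 < Y*n3 ∧ (R-Z)*n4 < X*n2 := by
  have sX := h.sX; have tY := h.tY; have s1 := h.s1; have t1 := h.t1; have Z1 := h.Z1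
  have tt := h.tt
  have p1 := h.p1; have p2 := h.p2; have p3 := h.p3; have p4 := h.p4
  have q1 := h.C1.pos; have q2 := h.C2.pos; have q3 := h.C3.pos; have q4 := h.C4.pos
  -- (i)
  have hA21 : ¬ T (c1*n1-n2) := by
    rcases h1 with h1 | ⟨s', t', r', hs', ht', hr', htr, e1⟩
    · exact h1
    exfalso
    have c1μ : c1 ≤ μ' := h.C1.min μ' 0 (Y-t) Z (by omega) le_rfl (by omega) (by omega)
      (by linarith)
    rcases (by omega : 1 ≤ t' ∨ 1 ≤ r') with ht | hr
    · have k1 := h.Qin2 (b := 0) (c := Y-t-1) (d := Z) (by omega) (by omega) (by omega)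
      have k2 : μ' = c1 := by
        by_contra hcon
        apply k1
        exact h.of (μ'-c1-1) s' (t'-1) r' (by omega) (by omega) (by omega) (by omega) (by linarith)
      subst k2
      have d1 := h.DL (b := 0) (c := Y-t-1) (d := Z) (b' := s') (c' := t'-1) (d' := r')
        (by linarith)
      have k3 : X ≤ s' := by omega
      apply k1
      have := h.add h.B12 (h.of 0 (s'-X) (t'-1) r' le_rfl (by omega) (by omega) (by omega) rfl)
      convert this using 1
      linarith
    · have k1 := h.Qin1 (b := 0) (c := Y-t) (d := Z-1) (by omega) (by omega) (by omega)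
      have k2 : μ' = c1 := by
        by_contra hcon
        apply k1
        exact h.of (μ'-c1-1) s' t' (r'-1) (by omega) (by omega) (by omega) (by omega) (by linarith)
      subst k2
      have d1 := h.DL (b := 0) (c := Y-t) (d := Z-1) (b' := s') (c' := t') (d' := r'-1)
        (by linarith)
      have k3 : X ≤ s' := by omega
      apply k1
      have := h.add h.B12 (h.of 0 (s'-X) t' (r'-1) le_rfl (by omega) (by omega) (by omega) rfl)
      convert this using 1
      linarith
  have hT32 := h23 hA21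
  have e2 := h.e2 e
  -- (iii) t ≤ y
  have hty : t ≤ y := by
    by_contra hcon
    push Not at hcon
    have k1 : ¬ T ((Y-1)*n3-n2) := h.s12.s23.top2
    obtain ⟨b, a, c, d, hb, ha, hc, hd, e3⟩ := h.s12.omega1 k1
    -- G + n2 = (Y-1) n3 + (b n2 + a n1 + c n3 + d n4)
    have b0 : b = 0 := by
      by_contra hcon
      exact h.notG (h.of a (b-1) (c+(Y-1)) d ha (by omega) (by omega) hd (by linarith))
    subst b0
    have c0 : c = 0 := by
      by_contra hcon
      apply h.notG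
      have := h.add hT32 (h.of a 0 (c-1) d ha le_rfl (by omega) hd rfl)
      convert this using 1
      linarith
    subst c0
    have dR : d < R := by
      by_contra hcon
      push Not at hcon
      apply h.notG
      have := h.add h.B24 (h.of a 0 (Y-1) (d-R) ha le_rfl (by omega) (by omega) rfl)
      convert this using 1
      linarith
    rcases le_or_gt a (μ-1) with h4 | h4
    · have := h.C3.min (t-y) (μ-1-a) 0 (R-1-d) (by omega) (by omega) le_rfl (by omega)
        (by linarith)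
      omega
    · have e4 : (R-1-d)*n4 = (a-μ+1)*n1+(t-y)*n3 := by linarith
      have e5 : 0 < (R-1-d)*n4 := by
        rw [e4]
        have : 0 < (t-y)*n3 := mul_pos (by omega) p3
        have : 0 ≤ (a-μ+1)*n1 := mul_nonneg (by omega) p1.le
        omega
      have h5 := (mul_pos_iff_of_pos_right p4).1 e5
      have := h.C4.min (R-1-d) (a-μ+1) 0 (t-y) h5 (by omega) le_rfl (by omega) (by linarith)
      omega
  have e6 : X*n2 = μ*n1+(y-t)*n3+(R-Z)*n4 := by linarith
  have hyt : y ≤ t := by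
    by_contra hcon
    push Not at hcon
    rcases h2 with h2 | h2
    · exact h2 (h.of μ 0 (y-t-1) (R-Z) (by omega) le_rfl (by omega) (by omega) (by linarith))
    · exact h2 (h.of μ 0 (y-t) (R-Z-1) (by omega) le_rfl (by omega) (by omega) (by linarith))
  have hyt' : y = t := le_antisymm hyt hty
  subst hyt'
  constructor
  · have e7 : Y*n3 = (X-s)*n2+(μ'-μ)*n1 := by linarith
    have : 0 < μ' - μ := by
      by_contra hcon
      push Not at hcon
      have := h.C2.min (X-s) (μ-μ') Y 0 (by omega) (by omega) (by omega) le_rfl (by linarith)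
      omega
    have : 0 < (μ'-μ)*n1 := mul_pos this p1
    linarith
  · have : 0 < μ*n1 := mul_pos (by omega) p1
    linarith

/-- nonvanishing -/
lemma Pf.ne1 (h : Pf T G n1 n2 n3 n4 c1 X Y R s t Z) :
    X*n2 ≠ (Y-t)*n3 ∧ Y*n3 ≠ (Y-t)*n3 ∧ X*n2 ≠ (R-Z)*n4 ∧ Y*n3 ≠ (R-Z)*n4 ∧
      Y*n3 ≠ (X-s)*n2 := by
  have sX := h.sX; have tY := h.tY; have s1 := h.s1; have t1 := h.t1; have Z1 := h.Z1
  have ZR := h.ZR
  have k1 := h.Qin1 (b := 0) (c := Y-t) (d := 0) (by omega) (by omega) (by omega)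
  have k2 := h.Qin2 (b := 0) (c := 0) (d := R-Z) (by omega) (by omega) (by omega)
  have k3 := h.Qin1 (b := X-s) (c := 0) (d := 0) (by omega) (by omega) (by omega)
  refine ⟨?_, ?_, ?_, ?_, ?_⟩
  · intro e; apply k1
    have := h.B12
    convert this using 1
    linarith
  · intro e; apply k1
    have := h.B13
    convert this using 1
    linarith
  · intro e; apply k2
    have := h.B12
    convert this using 1
    linarith
  · intro e; apply k2
    have := h.B13
    convert this using 1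
    linarith
  · intro e; apply k3
    have := h.B13
    convert this using 1
    linarith

end Pool.Agent.CycE4
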