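import Mathlib
import Pool.Agent.CycE4.Signs

set_option autoImplicit false

namespace Pool.Agent.CycE4

/-- permutation invariant version of the data -/
structure Dat (T : ℤ → Prop) (G : ℤ) (g c : Fin 4 → ℤ) : Prop where
  pos : ∀ i, 0 < g i
  mem : ∀ x, T x ↔ ∃ e : Fin 4 → ℤ, (∀ i, 0 ≤ e i) ∧ x = ∑ i, e i * g i
  sym : ∀ x, T x ↔ ¬ T (G - x)
  cpos : ∀ i, 0 < c i
  cex : ∀ i, ∃ e : Fin 4 → ℤ, (∀ k, 0 ≤ e k) ∧ e i = 0 ∧ c i * g i = ∑ k, e k * g k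
  cmin : ∀ i m, ∀ e : Fin 4 → ℤ, 0 < m → (∀ k, 0 ≤ e k) → e i = 0 → m * g i = ∑ k, e k * g k →
    c i ≤ m

variable {T : ℤ → Prop} {G : ℤ}

lemma sum_inj (τ : Fin 4 → Fin 4) (hτ : Function.Injective τ) (f : Fin 4 → ℤ) :
    ∑ i, f i = f (τ 0) + f (τ 1) + f (τ 2) + f (τ 3) := by
  have hb : Function.Bijective τ := Finite.injective_iff_bijective.1 hτ
  rw [← Equiv.sum_comp (Equiv.ofBijective τ hb) f, Fin.sum_univ_four]
  rfl

lemma pull (τ : Fin 4 → Fin 4) (hτ : Function.Injective τ) (a b c d : ℤ) (ha : 0 ≤ a)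
    (hb : 0 ≤ b) (hc : 0 ≤ c) (hd : 0 ≤ d) :
    ∃ e : Fin 4 → ℤ, (∀ i, 0 ≤ e i) ∧ e (τ 0) = a ∧ e (τ 1) = b ∧ e (τ 2) = c ∧ e (τ 3) = d := by
  have hbij : Function.Bijective τ := Finite.injective_iff_bijective.1 hτ
  let σ := Equiv.ofBijective τ hbij
  have hσ : ∀ i, σ.symm (τ i) = i := fun i => σ.symm_apply_apply i
  refine ⟨fun m => (![a,b,c,d] : Fin 4 → ℤ) (σ.symm m), ?_, ?_, ?_, ?_, ?_⟩
  · intro i
    show 0 ≤ (![a,b,c,d] : Fin 4 → ℤ) (σ.symm i)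
    generalize σ.symm i = j
    fin_cases j
    · exact ha
    · exact hb
    · exact hc
    · exact hd
  · simp only [hσ]; rfl
  · simp only [hσ]; rfl
  · simp only [hσ]; rfl
  · simp only [hσ]; rfl

lemma Dat.isC {g c : Fin 4 → ℤ} (h : Dat T G g c) (τ : Fin 4 → Fin 4)
    (hτ : Function.Injective τ) :
    IsC (g (τ 0)) (g (τ 1)) (g (τ 2)) (g (τ 3)) (c (τ 0)) where
  pos := h.cpos _
  ex := by
    obtain ⟨e, he, e0, e1⟩ := h.cex (τ 0)
    refine ⟨e (τ 1), e (τ 2), e (τ 3), he _, he _, he _, ?_⟩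
    rw [e1, sum_inj τ hτ, e0]; ring
  min := by
    intro m a b d hm ha hb hd e
    obtain ⟨f, hf, f0, f1, f2, f3⟩ := pull τ hτ 0 a b d le_rfl ha hb hd
    refine h.cmin (τ 0) m f hm hf f0 ?_
    rw [sum_inj τ hτ, f0, f1, f2, f3, e]; ring

lemma Dat.full {g c : Fin 4 → ℤ} (h : Dat T G g c) (τ : Fin 4 → Fin 4)
    (hτ : Function.Injective τ) :
    Full T G (g (τ 0)) (g (τ 1)) (g (τ 2)) (g (τ 3)) (c (τ 0)) (c (τ 1)) (c (τ 2)) (c (τ 3)) where
  p1 := h.pos _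
  p2 := h.pos _
  p3 := h.pos _
  p4 := h.pos _
  mem := by
    intro x
    rw [h.mem x]
    constructor
    · rintro ⟨e, he, e1⟩
      exact ⟨e (τ 0), e (τ 1), e (τ 2), e (τ 3), he _, he _, he _, he _, by
        rw [e1, sum_inj τ hτ]⟩
    · rintro ⟨a, b, c, d, ha, hb, hc, hd, e⟩
      obtain ⟨f, hf, f0, f1, f2, f3⟩ := pull τ hτ a b c d ha hb hc hd
      exact ⟨f, hf, by rw [sum_inj τ hτ, f0, f1, f2, f3, e]⟩
  sym := h.sym
  C1 := h.isC τ hτ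
  C2 := h.isC (τ ∘ ![1,0,2,3]) (hτ.comp (by decide))
  C3 := h.isC (τ ∘ ![2,0,1,3]) (hτ.comp (by decide))
  C4 := h.isC (τ ∘ ![3,0,1,2]) (hτ.comp (by decide))

lemma inj4 {i j k l : Fin 4} (h1 : i ≠ j) (h2 : i ≠ k) (h3 : i ≠ l) (h4 : j ≠ k) (h5 : j ≠ l)
    (h6 : k ≠ l) : Function.Injective ![i,j,k,l] := by
  intro a b hab
  fin_cases a <;> fin_cases b <;> simp at hab <;> simp_all

/-- structure theorem: either three relations suffice, or the Pfaffian case with signs -/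
theorem struct {g : Fin 4 → ℕ} {c : Fin 4 → ℤ} (h : Dat T G (fun i => (g i : ℤ)) c)
    (hCI : ¬ CI g) : ∃ τ : Fin 4 → Fin 4, Function.Injective τ ∧ ∃ c1 X Y R s t Z : ℤ,
      Pf T G (g (τ 0)) (g (τ 1)) (g (τ 2)) (g (τ 3)) c1 X Y R s t Z ∧ Z < R ∧
      (((X-s)*g (τ 1) < Y*g (τ 2) ∧ (R-Z)*g (τ 3) < X*g (τ 1)) ∨
       ((Y-t)*g (τ 2) < X*g (τ 1) ∧ (R-Z)*g (τ 3) < Y*g (τ 2))) := by
  set A : Fin 4 → Fin 4 → Prop := fun i j => ¬ T (c j * g j - g i) with hA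
  have P1 : ∀ i, ∃ j, j ≠ i ∧ A i j := by
    intro i
    by_contra hcon
    push Not at hcon
    obtain ⟨j, k, l, d1, d2, d3, d4, d5, d6⟩ : ∃ j k l : Fin 4, i ≠ j ∧ i ≠ k ∧ i ≠ l ∧ j ≠ k ∧
      j ≠ l ∧ k ≠ l := by
      clear hcon
      revert i; decide
    have hτ := inj4 d1 d2 d3 d4 d5 d6
    apply hCI
    apply CI_perm' _ hτ
    refine box (h.full _ hτ) ?_ ?_ ?_
    · have := hcon j d1.symm
      simpa [hA] using this
    · have := hcon k d2.symm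
      simpa [hA] using this
    · have := hcon l d3.symm
      simpa [hA] using this
  have P2 : ∀ i i' j, i ≠ j → i' ≠ j → A i j → A i' j → i = i' := by
    intro i i' j hij hij' a1 a2
    by_contra hne
    obtain ⟨k, d1, d2, d3⟩ : ∃ k : Fin 4, k ≠ i ∧ k ≠ i' ∧ k ≠ j := by
      clear a1 a2
      revert i i' j; decide
    have hτ := inj4 hne d1.symm hij d2.symm hij' d3
    apply hCI
    apply CI_perm' _ hτ
    exact case2 (h.full _ hτ) a1 a2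
  choose f hf1 hf2 using P1
  have finj : Function.Injective f := by
    intro i i' hii
    have h1 := hf1 i
    have h2 := hf1 i'
    have h3 := hf2 i
    have h4 := hf2 i'
    rw [hii] at h1 h3
    exact P2 i i' (f i') h1.symm h2.symm h3 h4
  have fsur : Function.Surjective f := Finite.injective_iff_surjective.1 finj
  have P3 : ∀ j, ∃ i, i ≠ j ∧ A i j := by
    intro j
    obtain ⟨i, hi⟩ := fsur j
    have h1 := hf1 i
    have h2 := hf2 i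
    rw [hi] at h1 h2
    exact ⟨i, h1.symm, h2⟩
  have P4 : ∀ i j j', j ≠ i → j' ≠ i → A i j → A i j' → j = j' := by
    intro i j j' h1 h2 a1 a2
    obtain ⟨i1, rfl⟩ := fsur j
    obtain ⟨i2, rfl⟩ := fsur j'
    have e1 := P2 i i1 (f i1) h1.symm (hf1 i1).symm a1 (hf2 i1)
    have e2 := P2 i i2 (f i2) h2.symm (hf1 i2).symm a2 (hf2 i2)
    rw [← e1, ← e2]
  have N2 : ∀ i i' j, i ≠ j → i' ≠ j → i ≠ i' → A i j → T (c j * g j - g i') := by
    intro i i' j h1 h2 h3 a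
    by_contra hcon
    exact h3 (P2 i i' j h1 h2 a hcon)
  have N4 : ∀ i j j', j ≠ i → j' ≠ i → j ≠ j' → A i j → T (c j' * g j' - g i) := by
    intro i j j' h1 h2 h3 a
    by_contra hcon
    exact h3 (P4 i j j' h1 h2 a hcon)
  have two : ∀ i j k l, i ≠ j → i ≠ k → i ≠ l → j ≠ k → j ≠ l → k ≠ l → A i j →
      ∃ s t : ℤ, 1 ≤ s ∧ 1 ≤ t ∧ c j * g j = s * g k + t * g l := by
    intro i j k l d1 d2 d3 d4 d5 d6 a
    have hτ := inj4 d2 d3 d1 d6 d4.symm d5.symm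
    obtain ⟨s, t, s1, t1, _, _, e⟩ := (h.full _ hτ).two_term a (N4 i j k d1.symm d2.symm d4 a)
      (N4 i j l d1.symm d3.symm d5 a) (N2 i k j d1 d4.symm d2 a) (N2 i l j d1 d5.symm d3 a)
    exact ⟨s, t, s1, t1, e⟩
  obtain ⟨i, hij, aij⟩ := P3 3
  obtain ⟨k, l, d1, d2, d3, d4, d5⟩ : ∃ k l : Fin 4, i ≠ k ∧ i ≠ l ∧ k ≠ l ∧ k ≠ 3 ∧ l ≠ 3 := by
    clear aij
    revert i; decide
  have cover : ∀ m : Fin 4, m = i ∨ m = k ∨ m = l ∨ m = 3 := by
    clear aij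
    revert i k l; decide
  have hτ : Function.Injective ![i,k,l,3] := inj4 d1 d2 hij d3 d4 d5
  refine ⟨![i,k,l,3], hτ, ?_⟩
  have F : Full T G (g i) (g k) (g l) (g 3) (c i) (c k) (c l) (c 3) := h.full _ hτ
  obtain ⟨s, t, Z, hPf⟩ := F.toPf aij (N4 i 3 k hij.symm d1.symm d4.symm aij)
    (N4 i 3 l hij.symm d2.symm d5.symm aij) (N2 i k 3 hij d4 d1 aij) (N2 i l 3 hij d5 d2 aij)
  have hZR : Z < c 3 := by
    rcases lt_or_eq_of_le hPf.ZR with h1 | h1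
    · exact h1
    · exfalso
      subst h1
      exact hCI (CI_perm' _ hτ (beta (g := g ∘ ![i,k,l,3]) hPf))
  refine ⟨c i, c k, c l, c 3, s, t, Z, hPf, hZR, ?_⟩
  show (((c k-s)*g k < c l*g l ∧ (c 3-Z)*g 3 < c k*g k) ∨
       ((c l-t)*g l < c k*g k ∧ (c 3-Z)*g 3 < c l*g l))
  -- side facts
  have nik : T (c k * g k - g i) := hPf.B12
  have nil : T (c l * g l - g i) := hPf.B13
  have h2 : A l k ∨ A 3 k := by
    obtain ⟨m, hm, am⟩ := P3 k
    rcases cover m with rfl | rfl | rfl | rfl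
    · exact absurd nik am
    · exact absurd rfl hm
    · exact Or.inl am
    · exact Or.inr am
  have h3 : A k l ∨ A 3 l := by
    obtain ⟨m, hm, am⟩ := P3 l
    rcases cover m with rfl | rfl | rfl | rfl
    · exact absurd nil am
    · exact Or.inl am
    · exact absurd rfl hm
    · exact Or.inr am
  have h1 : A k i ∨ ∃ s' t' r' : ℤ, 1 ≤ s' ∧ 0 ≤ t' ∧ 0 ≤ r' ∧ 1 ≤ t' + r' ∧
      c i*g i = s'*g k+t'*g l+r'*g 3 := by
    obtain ⟨m, hm, am⟩ := P3 i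
    rcases cover m with rfl | rfl | rfl | rfl
    · exact absurd rfl hm
    · exact Or.inl am
    · obtain ⟨s', t', s1, t1, e⟩ := two m i k 3 hm d3.symm d5 d1 hij d4 am
      exact Or.inr ⟨s', 0, t', s1, le_rfl, by omega, by omega, by linarith⟩
    · obtain ⟨s', t', s1, t1, e⟩ := two 3 i k l hm d4.symm d5.symm d1 d2 d3 am
      exact Or.inr ⟨s', t', 0, s1, by omega, le_rfl, by omega, by linarith⟩
  have h1' : A l i ∨ ∃ s' t' r' : ℤ, 1 ≤ s' ∧ 0 ≤ t' ∧ 0 ≤ r' ∧ 1 ≤ t' + r' ∧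
      c i*g i = s'*g l+t'*g k+r'*g 3 := by
    obtain ⟨m, hm, am⟩ := P3 i
    rcases cover m with rfl | rfl | rfl | rfl
    · exact absurd rfl hm
    · obtain ⟨s', t', s1, t1, e⟩ := two m i l 3 hm d3 d4 d2 hij d5 am
      exact Or.inr ⟨s', 0, t', s1, le_rfl, by omega, by omega, by linarith⟩
    · exact Or.inl am
    · obtain ⟨s', t', s1, t1, e⟩ := two 3 i l k hm d5.symm d4.symm d2 d1 d3.symm am
      exact Or.inr ⟨s', t', 0, s1, by omega, le_rfl, by omega, by linarith⟩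
  have h23 : A k i → T (c l * g l - g k) := fun a => N4 k i l d1 d3.symm d2 a
  have h32 : A l i → T (c k * g k - g l) := fun a => N4 l i k d2 d3 d1 a
  obtain ⟨μ, y, hμ, hy, e1⟩ := hPf.rel1 hZR
  obtain ⟨μ', x, hμ', hx, e2⟩ := hPf.swap.rel1 hZR
  rcases eq_or_lt_of_le hx with hx0 | hx0
  · left
    subst hx0
    exact hPf.signs hZR hμ hy hμ' e1 (by linarith) h2 h1 h23
  · rcases eq_or_lt_of_le hy with hy0 | hy0
    · right
      subst hy0
      exact hPf.swap.signs hZR hμ' hx hμ e2 (by linarith) h3 h1' h32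
    · exact (hPf.notboth hZR hμ hμ' e1 e2 (by omega) (by omega)).elim

end Pool.Agent.CycE4
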