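import Mathlib

set_option autoImplicit false

namespace Pool.Agent.CycE4

open Polynomial

lemma reverse_prod' {ι : Type*} (s : Finset ι) (f : ι → ℤ[X]) :
    (∏ i ∈ s, f i).reverse = ∏ i ∈ s, (f i).reverse := by
  classical
  induction s using Finset.induction_on with
  | empty => simpa using reverse_C (1 : ℤ)
  | insert a s ha ih =>
    rw [Finset.prod_insert ha, Finset.prod_insert ha, reverse_mul_of_domain, ih]

lemma reverse_X_pow_sub_one {n : ℕ} (hn : 0 < n) :
    ((X : ℤ[X]) ^ n - 1).reverse = -(X ^ n - 1) := by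
  have hd : ((X : ℤ[X]) ^ n - 1).natDegree = n := by
    have := natDegree_X_pow_sub_C (R := ℤ) (n := n) (r := 1)
    simpa using this
  unfold reverse
  rw [hd, reflect_sub, reflect_monomial, reflect_one, revAt_le le_rfl, Nat.sub_self, pow_zero]
  ring

lemma reverse_cyclotomic {n : ℕ} (hn : 2 ≤ n) : (cyclotomic n ℤ).reverse = cyclotomic n ℤ := by
  induction n using Nat.strong_induction_on with
  | _ n ih =>
    have hpos : 0 < n := by omega
    have h1 := prod_cyclotomic_eq_X_pow_sub_one hpos ℤ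
    have m1 : 1 ∈ n.divisors := by simp; omega
    have mn : n ∈ n.divisors.erase 1 := by simp; omega
    rw [← Finset.mul_prod_erase _ _ m1, ← Finset.mul_prod_erase _ _ mn] at h1
    set Q : ℤ[X] := ∏ x ∈ (n.divisors.erase 1).erase n, cyclotomic x ℤ with hQ
    have hQr : Q.reverse = Q := by
      rw [hQ, reverse_prod']
      apply Finset.prod_congr rfl
      intro x hx
      simp only [Finset.mem_erase, Nat.mem_divisors] at hx
      have hx0 : 0 < x := Nat.pos_of_dvd_of_pos hx.2.2.1 hpos
      have hxn : x ≤ n := Nat.le_of_dvd hpos hx.2.2.1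
      exact ih x (by omega) (by omega)
    have hQ0 : Q ≠ 0 := by
      rw [hQ]
      exact Finset.prod_ne_zero_iff.2 (fun x _ => cyclotomic_ne_zero x ℤ)
    have h2 := congrArg reverse h1
    rw [reverse_X_pow_sub_one hpos, reverse_mul_of_domain, reverse_mul_of_domain, hQr,
      cyclotomic_one] at h2
    have h3 : ((X : ℤ[X]) - 1).reverse = -(X - 1) := by
      have := reverse_X_pow_sub_one (n := 1) (by omega)
      simpa using this
    rw [h3, ← h1, cyclotomic_one] at h2
    have h4 : ((X : ℤ[X]) - 1) ≠ 0 := by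
      have := X_sub_C_ne_zero (R := ℤ) 1
      simpa using this
    have h5 : ((X : ℤ[X]) - 1) * ((cyclotomic n ℤ).reverse * Q) = (X - 1) * (cyclotomic n ℤ * Q) := by
      linear_combination -h2
    exact mul_right_cancel₀ hQ0 (mul_left_cancel₀ h4 h5)

lemma reverse_multiset (M : Multiset ℕ) (hM : 1 ∉ M) :
    ((M.map (fun k => cyclotomic k ℤ)).prod).reverse = (M.map (fun k => cyclotomic k ℤ)).prod := by
  induction M using Multiset.induction_on with
  | empty => simpa using reverse_C (1 : ℤ)
  | cons a s ih =>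
    rw [Multiset.map_cons, Multiset.prod_cons, reverse_mul_of_domain]
    rw [Multiset.mem_cons] at hM
    push Not at hM
    rw [ih hM.2]
    congr 1
    rcases Nat.lt_or_ge a 2 with h | h
    · interval_cases a
      · simpa using reverse_C (1 : ℤ)
      · exact absurd rfl hM.1
    · exact reverse_cyclotomic h

/-- A cyclotomic numerical semigroup is symmetric. -/
theorem sym_of_cyc (S : AddSubmonoid ℕ) (hS : ((S : Set ℕ)ᶜ).Finite) (hne : hS.toFinset.Nonempty)
    (M : Multiset ℕ)
    (hM : (1 - (1 - X) * ∑ n ∈ hS.toFinset, X ^ n : ℤ[X]) = (M.map (fun k => cyclotomic k ℤ)).prod) :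
    ∃ G : ℕ, G ∉ S ∧ (∀ n, G < n → n ∈ S) ∧ ∀ n, n ≤ G → (n ∈ S ↔ G - n ∉ S) := by
  classical
  have hmem : ∀ n, n ∈ hS.toFinset ↔ n ∉ S := by
    intro n; simp
  set K : ℤ[X] := ∑ n ∈ hS.toFinset, X ^ n with hK
  have hKc : ∀ n, K.coeff n = if n ∉ S then 1 else 0 := by
    intro n
    rw [hK, finset_sum_coeff]
    simp only [coeff_X_pow]
    rw [Finset.sum_ite_eq]
    simp [hmem]
  set P : ℤ[X] := 1 - (1 - X) * K with hP
  -- 1 is not in M
  have h1M : 1 ∉ M := by
    intro h
    have e1 : P.eval 1 = 1 := by simp [hP]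
    rw [hM] at e1
    have : (cyclotomic 1 ℤ) ∣ (M.map (fun k => cyclotomic k ℤ)).prod :=
      Multiset.dvd_prod (Multiset.mem_map_of_mem _ h)
    obtain ⟨q, hq⟩ := this
    rw [hq, eval_mul, cyclotomic_one] at e1
    simp at e1
  have hrev : P.reverse = P := by
    rw [hM]; exact reverse_multiset M h1M
  set G := hS.toFinset.max' hne with hG
  have hGS : G ∉ S := (hmem G).1 (Finset.max'_mem _ _)
  have hGt : ∀ n, G < n → n ∈ S := by
    intro n hn
    by_contra hcon
    have := Finset.le_max' _ n ((hmem n).2 hcon)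
    omega
  have hP0 : P.coeff 0 = 1 - K.coeff 0 := by
    rw [hP]; simp [mul_coeff_zero]
  have hPs : ∀ n, P.coeff (n+1) = K.coeff n - K.coeff (n+1) := by
    intro n
    have e : P = 1 - K + X * K := by rw [hP]; ring
    rw [e]
    simp [coeff_X_mul, coeff_one]
    ring
  have hdeg : P.natDegree = G + 1 := by
    apply natDegree_eq_of_le_of_coeff_ne_zero
    · rw [natDegree_le_iff_coeff_eq_zero]
      intro N hN
      obtain ⟨m, rfl⟩ : ∃ m, N = m + 1 := ⟨N - 1, by omega⟩
      rw [hPs, hKc, hKc]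
      have a1 : m ∈ S := hGt m (by omega)
      have a2 : m + 1 ∈ S := hGt (m+1) (by omega)
      simp [a1, a2]
    · rw [hPs, hKc, hKc]
      have a2 : G + 1 ∈ S := hGt _ (by omega)
      simp [hGS, a2]
  have hpal : ∀ i, i ≤ G + 1 → P.coeff i = P.coeff (G + 1 - i) := by
    intro i hi
    conv_lhs => rw [← hrev]
    rw [coeff_reverse, hdeg, revAt_le hi]
  have hsum : ∀ n, n ≤ G → K.coeff n + K.coeff (G - n) = 1 := by
    intro n
    induction n with
    | zero =>
      intro _
      rw [Nat.sub_zero, hKc, hKc]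
      simp [hGS]
    | succ n ih =>
      intro hn
      have h1 := ih (by omega)
      have h2 := hpal (n+1) (by omega)
      obtain ⟨m, hm⟩ : ∃ m, G - n = m + 1 := ⟨G - n - 1, by omega⟩
      have e1 : G + 1 - (n+1) = m + 1 := by omega
      have e2 : G - (n+1) = m := by omega
      rw [e1, hPs, hPs] at h2
      rw [hm] at h1
      rw [e2]
      linarith
  refine ⟨G, hGS, hGt, ?_⟩
  intro n hn
  have := hsum n hn
  rw [hKc, hKc] at this
  by_cases a1 : n ∈ S <;> by_cases a2 : G - n ∈ S <;> simp [a1, a2] at this ⊢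

end Pool.Agent.CycE4
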