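import Mathlib
import Pool.Agent.CycE4.Struct
import Pool.Agent.CycE4.Sym

set_option autoImplicit false

namespace Pool.Agent.CycE4

/-- integer membership predicate -/
def TS (S : AddSubmonoid ℕ) (x : ℤ) : Prop := ∃ n ∈ S, x = (n : ℤ)

variable {S : AddSubmonoid ℕ} {g : Fin 4 → ℕ}

/-- the minimal generators generate -/
lemma gen_of_atoms
    (hg : Set.range g = {x : ℕ | x ∈ S ∧ x ≠ 0 ∧ ∀ a ∈ S, ∀ b ∈ S, a + b = x → a = 0 ∨ b = 0}) :
    ∀ x, x ∈ S → ∃ e : Fin 4 → ℕ, x = ∑ i, e i * g i := by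
  intro x
  induction x using Nat.strong_induction_on with
  | _ x ih =>
    intro hx
    by_cases h0 : x = 0
    · exact ⟨0, by simp [h0]⟩
    by_cases hat : ∀ a ∈ S, ∀ b ∈ S, a + b = x → a = 0 ∨ b = 0
    · have : x ∈ Set.range g := by
        rw [hg]; exact ⟨hx, h0, hat⟩
      obtain ⟨i, rfl⟩ := this
      refine ⟨Pi.single i 1, ?_⟩
      rw [Finset.sum_eq_single i]
      · simp
      · intro j _ hj
        simp [Pi.single_eq_of_ne hj]
      · simp
    · push Not at hat
      obtain ⟨a, ha, b, hb, hab, ha0, hb0⟩ := hat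
      obtain ⟨e, he⟩ := ih a (by omega) ha
      obtain ⟨f, hf⟩ := ih b (by omega) hb
      refine ⟨e + f, ?_⟩
      rw [← hab]
      simp only [Pi.add_apply, add_mul, Finset.sum_add_distrib]
      rw [← he, ← hf]

lemma dat_of
    (hg : Set.range g = {x : ℕ | x ∈ S ∧ x ≠ 0 ∧ ∀ a ∈ S, ∀ b ∈ S, a + b = x → a = 0 ∨ b = 0})
    {G : ℕ} (hG : ∀ n, G < n → n ∈ S) (hsym : ∀ n, n ≤ G → (n ∈ S ↔ G - n ∉ S)) :
    ∃ c : Fin 4 → ℤ, Dat (TS S) (G : ℤ) (fun i => (g i : ℤ)) c := by
  classical
  have hatom : ∀ i, g i ∈ S ∧ g i ≠ 0 := by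
    intro i
    have : g i ∈ Set.range g := ⟨i, rfl⟩
    rw [hg] at this
    exact ⟨this.1, this.2.1⟩
  have hpos : ∀ i, (0 : ℤ) < g i := by
    intro i
    have := (hatom i).2
    omega
  let p : Fin 4 → ℕ → Prop := fun i m => 0 < m ∧ ∃ e : Fin 4 → ℤ, (∀ k, 0 ≤ e k) ∧ e i = 0 ∧
    (m : ℤ) * g i = ∑ k, e k * g k
  have hp : ∀ i, ∃ m, p i m := by
    intro i
    obtain ⟨j, hj⟩ : ∃ j : Fin 4, j ≠ i := by revert i; decide
    refine ⟨g j, by have := (hatom j).2; omega, Pi.single j (g i : ℤ), ?_, ?_, ?_⟩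
    · intro k
      by_cases hk : k = j
      · subst hk; simp
      · simp [Pi.single_eq_of_ne hk]
    · simp [Pi.single_eq_of_ne hj.symm]
    · rw [Finset.sum_eq_single j]
      · simp; ring
      · intro k _ hk
        simp [Pi.single_eq_of_ne hk]
      · simp
  have hfac : ∀ x, x ∈ S → ∃ e : Fin 4 → ℕ, x = ∑ i, e i * g i := gen_of_atoms hg
  refine ⟨fun i => (Nat.find (hp i) : ℤ), ?_⟩
  refine
    { pos := hpos
      mem := ?_
      sym := ?_
      cpos := ?_
      cex := ?_
      cmin := ?_ }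
  · intro x
    constructor
    · rintro ⟨n, hn, rfl⟩
      obtain ⟨e, he⟩ := hfac n hn
      refine ⟨fun i => (e i : ℤ), fun i => by positivity, ?_⟩
      rw [he]; push_cast; rfl
    · rintro ⟨e, he, rfl⟩
      refine ⟨∑ i, (e i).toNat * g i, ?_, ?_⟩
      · apply AddSubmonoid.sum_mem
        intro i _
        rw [← smul_eq_mul]
        exact AddSubmonoid.nsmul_mem S (hatom i).1 _
      · push_cast
        apply Finset.sum_congr rfl
        intro i _
        rw [Int.toNat_of_nonneg (he i)]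
  · intro x
    constructor
    · rintro ⟨n, hn, rfl⟩ ⟨m, hm, e⟩
      have h1 : n ≤ G := by omega
      have h2 := (hsym n h1).1 hn
      apply h2
      have : G - n = m := by omega
      rw [this]; exact hm
    · intro h
      by_cases hx0 : x < 0
      · exfalso
        apply h
        exact ⟨(G - x).toNat, hG _ (by omega), by omega⟩
      · push Not at hx0
        lift x to ℕ using hx0
        refine ⟨x, ?_, rfl⟩
        by_cases hxG : x ≤ G
        · rw [hsym x hxG]
          intro hcon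
          exact h ⟨G - x, hcon, by omega⟩
        · exact hG _ (by omega)
  · intro i
    have := (Nat.find_spec (hp i)).1
    exact_mod_cast this
  · intro i
    exact (Nat.find_spec (hp i)).2
  · intro i m e hm he e0 h
    have hm' := hm.le
    lift m to ℕ using hm'
    have : Nat.find (hp i) ≤ m := Nat.find_min' (hp i) ⟨by exact_mod_cast hm, e, he, e0, h⟩
    exact_mod_cast this

lemma gaps_nonempty (hS : ((S : Set ℕ)ᶜ).Finite) (hmono : StrictMono g)
    (hg : Set.range g = {x : ℕ | x ∈ S ∧ x ≠ 0 ∧ ∀ a ∈ S, ∀ b ∈ S, a + b = x → a = 0 ∨ b = 0}) :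
    hS.toFinset.Nonempty := by
  by_contra hcon
  rw [Finset.not_nonempty_iff_eq_empty] at hcon
  have hall : ∀ n, n ∈ S := by
    intro n
    by_contra hn
    have : n ∈ hS.toFinset := by simpa using hn
    rw [hcon] at this
    simp at this
  have key : ∀ i, g i = 1 := by
    intro i
    have : g i ∈ Set.range g := ⟨i, rfl⟩
    rw [hg] at this
    obtain ⟨h1, h2, h3⟩ := this
    rcases h3 1 (hall _) (g i - 1) (hall _) (by omega) with h | h
    · omega
    · omega
  have := hmono (show (0 : Fin 4) < 1 by decide)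
  rw [key, key] at this
  omega

end Pool.Agent.CycE4
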