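import Mathlib

set_option autoImplicit false

namespace Pool.Agent.CycE4

open PowerSeries Finset
open scoped ArithmeticFunction.Moebius

/-- minus the logarithmic derivative (times `X`) -/
noncomputable def LL (f : ℚ⟦X⟧) : ℚ⟦X⟧ := -(X * PowerSeries.derivative ℚ f) * f⁻¹

/-- `t` times the exponent of `1 - X ^ t` in the formal product expansion of `f` -/
noncomputable def EE (t : ℕ) (f : ℚ⟦X⟧) : ℚ :=
  ∑ x ∈ t.divisorsAntidiagonal, (μ x.1 : ℚ) * coeff x.2 (LL f)

lemma LL_mul {f g : ℚ⟦X⟧} (hf : constantCoeff f ≠ 0) (hg : constantCoeff g ≠ 0) :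
    LL (f * g) = LL f + LL g := by
  have h1 : f * f⁻¹ = 1 := PowerSeries.mul_inv_cancel f hf
  have h2 : g * g⁻¹ = 1 := PowerSeries.mul_inv_cancel g hg
  have h3 : (f * g)⁻¹ = f⁻¹ * g⁻¹ := by rw [PowerSeries.mul_inv_rev, mul_comm]
  unfold LL
  rw [h3, Derivation.leibniz]
  simp only [smul_eq_mul]
  linear_combination (-(X * PowerSeries.derivative ℚ g) * g⁻¹) * h1
    + (-(X * PowerSeries.derivative ℚ f) * f⁻¹) * h2

lemma EE_mul {t : ℕ} {f g : ℚ⟦X⟧} (hf : constantCoeff f ≠ 0) (hg : constantCoeff g ≠ 0) :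
    EE t (f * g) = EE t f + EE t g := by
  unfold EE
  rw [LL_mul hf hg, ← Finset.sum_add_distrib]
  apply Finset.sum_congr rfl
  intro x _
  rw [map_add]; ring

lemma EE_one {t : ℕ} : EE t 1 = 0 := by
  have := EE_mul (t := t) (f := 1) (g := 1) (by simp) (by simp)
  rw [one_mul] at this
  linarith

lemma EE_neg {t : ℕ} {f : ℚ⟦X⟧} : EE t (-f) = EE t f := by
  unfold EE
  have : LL (-f) = LL f := by
    unfold LL
    rw [map_neg, show ((-f)⁻¹ : ℚ⟦X⟧) = -(f⁻¹) from ?_]
    · ring
    · by_cases hf : constantCoeff f = 0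
      · rw [PowerSeries.inv_eq_zero.2 hf, PowerSeries.inv_eq_zero.2 (by simpa using hf), neg_zero]
      · symm
        rw [PowerSeries.eq_inv_iff_mul_eq_one (by simpa using hf)]
        rw [neg_mul_neg]
        exact PowerSeries.inv_mul_cancel f hf
  rw [this]

/-- geometric series in `X ^ j` -/
noncomputable def geo (j : ℕ) : ℚ⟦X⟧ := PowerSeries.mk (fun n => if j ∣ n then (1 : ℚ) else 0)

lemma coeff_geo (j n : ℕ) : coeff n (geo j) = if j ∣ n then (1 : ℚ) else 0 := by
  simp [geo]

lemma geo_mul {j : ℕ} (hj : 0 < j) : geo j * (1 - X ^ j) = 1 := by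
  ext n
  rw [mul_sub, mul_one, map_sub, coeff_mul_X_pow', coeff_geo, coeff_one]
  by_cases hn : j ≤ n
  · rw [if_pos hn, coeff_geo]
    have h0 : n ≠ 0 := by omega
    rw [if_neg h0]
    have : j ∣ n - j ↔ j ∣ n := by
      rw [Nat.dvd_sub_iff_left hn dvd_rfl]
    simp only [this, sub_self]
  · rw [if_neg hn, sub_zero]
    by_cases h0 : n = 0
    · simp [h0]
    · rw [if_neg h0, if_neg]
      intro hd
      exact hn (Nat.le_of_dvd (Nat.pos_of_ne_zero h0) hd)

lemma const_one_sub {j : ℕ} (hj : 0 < j) : constantCoeff (1 - X ^ j : ℚ⟦X⟧) = 1 := by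
  rw [map_sub, map_one, map_pow, constantCoeff_X, zero_pow hj.ne', sub_zero]

lemma inv_one_sub {j : ℕ} (hj : 0 < j) : (1 - X ^ j : ℚ⟦X⟧)⁻¹ = geo j := by
  symm
  rw [PowerSeries.eq_inv_iff_mul_eq_one (by rw [const_one_sub hj]; norm_num)]
  exact geo_mul hj

lemma LL_one_sub {j : ℕ} (hj : 0 < j) (n : ℕ) (hn : 0 < n) :
    coeff n (LL (1 - X ^ j)) = if j ∣ n then (j : ℚ) else 0 := by
  unfold LL
  rw [inv_one_sub hj, map_sub, derivative_one, derivative_pow, derivative_X]
  have : -((X : ℚ⟦X⟧) * (0 - (j : ℚ⟦X⟧) * X ^ (j - 1) * 1)) = C (j : ℚ) * X ^ j := by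
    have h1 : (X : ℚ⟦X⟧) ^ j = X * X ^ (j - 1) := by
      rw [← pow_succ', Nat.sub_add_cancel hj]
    rw [h1, map_natCast]; ring
  rw [this, mul_assoc, coeff_C_mul, mul_comm, mul_comm (X ^ j) (geo j), coeff_mul_X_pow']
  by_cases hjn : j ≤ n
  · rw [if_pos hjn, coeff_geo]
    have : j ∣ n - j ↔ j ∣ n := by
      rw [Nat.dvd_sub_iff_left hjn dvd_rfl]
    simp only [this]
    split_ifs <;> simp
  · rw [if_neg hjn, zero_mul, if_neg]
    intro hd; exact hjn (Nat.le_of_dvd hn hd)

/-- Moebius inversion for a delta function. -/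
lemma moebius_delta (t j : ℕ) (ht : 0 < t) (_hj : 0 < j) :
    ∑ x ∈ t.divisorsAntidiagonal, (μ x.1 : ℚ) * (if j ∣ x.2 then (j : ℚ) else 0)
      = if t = j then (j : ℚ) else 0 := by
  have := (ArithmeticFunction.sum_eq_iff_sum_mul_moebius_eq (R := ℚ)
    (f := fun n => if n = j then (j : ℚ) else 0)
    (g := fun n => if j ∣ n then (j : ℚ) else 0)).1 ?_ t ht
  · exact this
  · intro n hn
    rw [Finset.sum_ite_eq' n.divisors j]
    simp only [Nat.mem_divisors]
    congr 1
    simp [hn.ne']

lemma EE_one_sub {t j : ℕ} (ht : 0 < t) (hj : 0 < j) :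
    EE t (1 - X ^ j) = if t = j then (j : ℚ) else 0 := by
  unfold EE
  rw [← moebius_delta t j ht hj]
  apply Finset.sum_congr rfl
  intro x hx
  rw [LL_one_sub hj]
  rw [Nat.mem_divisorsAntidiagonal] at hx
  apply Nat.pos_of_ne_zero
  rintro h
  rw [h] at hx
  simp at hx
  omega

lemma EE_prod {ι : Type*} {t : ℕ} (s : Finset ι) (f : ι → ℚ⟦X⟧)
    (hf : ∀ i ∈ s, constantCoeff (f i) ≠ 0) : EE t (∏ i ∈ s, f i) = ∑ i ∈ s, EE t (f i) := by
  classical
  induction s using Finset.induction_on with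
  | empty => simp [EE_one]
  | insert a s ha ih =>
    rw [Finset.prod_insert ha, Finset.sum_insert ha, EE_mul, ih]
    · intro i hi; exact hf i (Finset.mem_insert_of_mem hi)
    · exact hf a (Finset.mem_insert_self a s)
    · rw [map_prod]
      exact Finset.prod_ne_zero_iff.2 (fun i hi => hf i (Finset.mem_insert_of_mem hi))

/-- the cyclotomic polynomial as a power series over `ℚ` -/
noncomputable def cyc (m : ℕ) : ℚ⟦X⟧ := ((Polynomial.cyclotomic m ℚ : Polynomial ℚ) : ℚ⟦X⟧)

lemma const_cyc (m : ℕ) : constantCoeff (cyc m) ≠ 0 := by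
  unfold cyc
  rw [← coeff_zero_eq_constantCoeff_apply, Polynomial.coeff_coe]
  rcases Nat.lt_trichotomy m 1 with h | h | h
  · have : m = 0 := by omega
    subst this; simp
  · subst h; simp
  · rw [Polynomial.cyclotomic_coeff_zero ℚ h]; norm_num

lemma prod_cyc {m : ℕ} (hm : 0 < m) : ∏ d ∈ m.divisors, cyc d = -(1 - X ^ m) := by
  have h := Polynomial.prod_cyclotomic_eq_X_pow_sub_one hm ℚ
  have h2 := congrArg (fun p : Polynomial ℚ => (p : ℚ⟦X⟧)) h
  simp only [Polynomial.coe_sub, Polynomial.coe_pow, Polynomial.coe_X, Polynomial.coe_one] at h2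
  rw [neg_sub, ← h2]
  unfold cyc
  exact (map_prod (Polynomial.coeToPowerSeries.ringHom (R := ℚ)) _ _).symm

lemma EE_cyc {t m : ℕ} (ht : 0 < t) (hm : 0 < m) :
    EE t (cyc m) = if t ∣ m then (t : ℚ) * (μ (m / t) : ℚ) else 0 := by
  have h1 : ∀ n > 0, ∑ d ∈ n.divisors, EE t (cyc d) = if t = n then (n : ℚ) else 0 := by
    intro n hn
    rw [← EE_prod _ _ (fun i _ => const_cyc i), prod_cyc hn, EE_neg, EE_one_sub ht hn]
  have h2 := (ArithmeticFunction.sum_eq_iff_sum_mul_moebius_eq (R := ℚ)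
    (f := fun n => EE t (cyc n))
    (g := fun n => if t = n then (n : ℚ) else 0)).1 h1 m hm
  rw [← h2]
  by_cases hd : t ∣ m
  · rw [if_pos hd]
    rw [Finset.sum_eq_single (m / t, t)]
    · simp only [if_true]; ring
    · rintro ⟨x, y⟩ hx hne
      rw [Nat.mem_divisorsAntidiagonal] at hx
      simp only at hx ⊢
      rw [if_neg, mul_zero]
      rintro rfl
      apply hne
      rw [← hx.1, Nat.mul_div_cancel _ ht]
    · intro h
      exfalso; apply h
      rw [Nat.mem_divisorsAntidiagonal]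
      exact ⟨Nat.div_mul_cancel hd, hm.ne'⟩
  · rw [if_neg hd]
    apply Finset.sum_eq_zero
    rintro ⟨x, y⟩ hx
    rw [Nat.mem_divisorsAntidiagonal] at hx
    simp only at hx ⊢
    rw [if_neg, mul_zero]
    rintro rfl
    exact hd ⟨x, by rw [← hx.1, mul_comm]⟩

/-- `f ≡ 1 mod X ^ n` -/
def OneMod (n : ℕ) (f : ℚ⟦X⟧) : Prop := constantCoeff f = 1 ∧ ∀ i, 0 < i → i < n → coeff i f = 0

lemma inv_coeff_of_oneMod {n : ℕ} {f : ℚ⟦X⟧} (h : OneMod n f) :
    ∀ i, 0 < i → i < n → coeff i f⁻¹ = 0 := by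
  intro i
  induction i using Nat.strong_induction_on with
  | _ i ih =>
    intro hi hin
    have h1 : f * f⁻¹ = 1 := PowerSeries.mul_inv_cancel f (by rw [h.1]; norm_num)
    have h2 := congrArg (coeff i) h1
    rw [coeff_mul, coeff_one, if_neg hi.ne'] at h2
    rw [Finset.sum_eq_single (0, i)] at h2
    · rw [coeff_zero_eq_constantCoeff_apply, h.1, one_mul] at h2
      exact h2
    · rintro ⟨u, v⟩ huv hne
      rw [HasAntidiagonal.mem_antidiagonal] at huv
      simp only at huv ⊢
      have hu : 0 < u := by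
        apply Nat.pos_of_ne_zero
        rintro rfl
        apply hne
        simp at huv
        rw [huv]
      rw [h.2 u hu (by omega), zero_mul]
    · intro h; exfalso; apply h; simp

lemma const_inv_of_oneMod {n : ℕ} {f : ℚ⟦X⟧} (h : OneMod n f) : constantCoeff f⁻¹ = 1 := by
  rw [constantCoeff_inv, h.1, inv_one]

lemma LL_coeff_of_oneMod {n d : ℕ} {f : ℚ⟦X⟧} (h : OneMod n f) (hd : 0 < d) (hdn : d < 2 * n) :
    coeff d (LL f) = -(d * coeff d f) := by
  unfold LL
  rw [neg_mul, map_neg, mul_assoc, neg_inj]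
  obtain ⟨d', rfl⟩ : ∃ d', d = d' + 1 := ⟨d - 1, by omega⟩
  rw [coeff_succ_X_mul, coeff_mul]
  rw [Finset.sum_eq_single (d', 0)]
  · rw [coeff_zero_eq_constantCoeff_apply, const_inv_of_oneMod h, mul_one, coeff_derivative]
    push_cast; ring
  · rintro ⟨u, v⟩ huv hne
    rw [HasAntidiagonal.mem_antidiagonal] at huv
    simp only at huv ⊢
    have hv : 0 < v := by
      apply Nat.pos_of_ne_zero
      rintro rfl
      apply hne
      simp at huv
      rw [huv]
    by_cases hvn : v < n
    · rw [inv_coeff_of_oneMod h v hv hvn, mul_zero]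
    · rw [coeff_derivative, h.2 (u + 1) (by omega) (by omega)]
      ring
  · intro h; exfalso; apply h; simp

lemma EE_lin {n t : ℕ} {f : ℚ⟦X⟧} (h : OneMod n f) (ht : 0 < t) (htn : t < 2 * n) :
    EE t f = -(t * coeff t f) := by
  unfold EE
  rw [Finset.sum_eq_single (1, t)]
  · rw [LL_coeff_of_oneMod h ht htn]; simp
  · rintro ⟨x, y⟩ hx hne
    rw [Nat.mem_divisorsAntidiagonal] at hx
    simp only at hx ⊢
    have hx0 : x ≠ 0 := by rintro rfl; simp at hx; omega
    have hy0 : y ≠ 0 := by rintro rfl; simp at hx; omega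
    have hx1 : x ≠ 1 := by
      rintro rfl
      apply hne
      rw [← hx.1, one_mul]
    have hyt : 2 * y ≤ t := by
      rw [← hx.1]
      apply Nat.mul_le_mul_right
      omega
    rw [LL_coeff_of_oneMod h (by omega) (by omega), h.2 y (by omega) (by omega)]
    ring
  · intro h; exfalso; apply h
    rw [Nat.mem_divisorsAntidiagonal]
    exact ⟨one_mul t, ht.ne'⟩

/-- positivity -/
lemma EE_pos_aux (t : ℕ) (ht : 0 < t) (i : ℕ) (hi : 0 < i) :
    ∀ (h : ℕ → ℕ) (f : ℚ⟦X⟧), constantCoeff f = 1 →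
      (∀ j, 0 < j → j ≤ t → coeff j f = -(h j : ℚ)) → (∀ j, 0 < j → j < i → h j = 0) →
      (t : ℚ) * h t ≤ EE t f := by
  -- downward induction on i
  by_cases hit : t < 2 * i
  · intro h f hc hf h0
    by_cases hti : t < i
    · have : OneMod i f ∨ True := Or.inr trivial
      -- coefficients up to t vanish
      have hone : OneMod (t + 1) f := by
        refine ⟨hc, ?_⟩
        intro j hj hj'
        rw [hf j hj (by omega), h0 j hj (by omega)]; simp
      rw [EE_lin hone ht (by omega), hf t ht le_rfl, h0 t ht hti]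
      simp
    · have hone : OneMod i f := by
        refine ⟨hc, ?_⟩
        intro j hj hj'
        rw [hf j hj (by omega), h0 j hj hj']; simp
      rw [EE_lin hone ht hit, hf t ht le_rfl]
      apply le_of_eq; ring
  · have ih := EE_pos_aux t ht (i + 1) (by omega)
    intro h
    -- inner induction on h i
    suffices H : ∀ k : ℕ, ∀ (h : ℕ → ℕ), h i = k → ∀ (f : ℚ⟦X⟧), constantCoeff f = 1 →
      (∀ j, 0 < j → j ≤ t → coeff j f = -(h j : ℚ)) → (∀ j, 0 < j → j < i → h j = 0) →
      (t : ℚ) * h t ≤ EE t f from H (h i) h rfl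
    intro k
    induction k with
    | zero =>
      intro h hk f hc hf h0
      apply ih h f hc hf
      intro j hj hj'
      rcases Nat.lt_succ_iff_lt_or_eq.1 hj' with h' | h'
      · exact h0 j hj h'
      · rw [h']; exact hk
    | succ k ihk =>
      intro h hk f hc hf h0
      -- divide by (1 - X^i)
      set f' := f * geo i with hf'
      have hff : f = f' * (1 - X ^ i) := by
        rw [hf', mul_assoc, geo_mul hi, mul_one]
      have hc' : constantCoeff f' = 1 := by
        rw [hf', map_mul, hc, one_mul, ← coeff_zero_eq_constantCoeff_apply, coeff_geo]; simp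
      have hrec : ∀ j, coeff j f' = coeff j f + if i ≤ j then coeff (j - i) f' else 0 := by
        intro j
        have := congrArg (coeff j) hff
        rw [mul_sub, mul_one, map_sub, coeff_mul_X_pow'] at this
        rw [this]; ring
      -- natural number coefficients of f'
      have hnat : ∀ j, 0 < j → j ≤ t → ∃ u : ℕ, coeff j f' = -(u : ℚ) ∧
          (j < i → u = 0) ∧ (j = i → u = k) ∧ (i < j → h j ≤ u) := by
        intro j
        induction j using Nat.strong_induction_on with
        | _ j ihj =>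
          intro hj hjt
          rcases lt_trichotomy j i with hji | hji | hji
          · refine ⟨0, ?_, fun _ => rfl, fun h => by omega, fun h => by omega⟩
            rw [hrec, if_neg (by omega), hf j hj hjt, h0 j hj hji]; simp
          · refine ⟨k, ?_, fun h => by omega, fun _ => rfl, fun h => by omega⟩
            rw [hrec, if_pos (by omega), hf j hj hjt, hji, hk, Nat.sub_self,
              coeff_zero_eq_constantCoeff_apply, hc']
            push_cast; ring
          · obtain ⟨u, hu, -, -, -⟩ := ihj (j - i) (by omega) (by omega) (by omega)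
            refine ⟨h j + u, ?_, fun h => by omega, fun h => by omega, fun _ => by omega⟩
            rw [hrec, if_pos (by omega), hf j hj hjt, hu]
            push_cast; ring
      choose! h' hh' using hnat
      have key := ihk (fun j => h' j) ((hh' i hi (by omega)).2.2.1 rfl) f' hc'
        (fun j hj hjt => (hh' j hj hjt).1)
        (fun j hj hji => (hh' j hj (by omega)).2.1 hji)
      have hEE : EE t f = EE t f' := by
        rw [hff, EE_mul (by rw [hc']; norm_num) (by rw [const_one_sub hi]; norm_num),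
          EE_one_sub ht hi, if_neg (by omega), add_zero]
      rw [hEE]
      refine le_trans ?_ key
      have : h t ≤ h' t := (hh' t ht le_rfl).2.2.2 (by omega)
      have : (h t : ℚ) ≤ h' t := by exact_mod_cast this
      exact mul_le_mul_of_nonneg_left this (by positivity)
termination_by t + 1 - i
decreasing_by omega

lemma EE_pos {t : ℕ} (ht : 0 < t) (h : ℕ → ℕ) (f : ℚ⟦X⟧) (hc : constantCoeff f = 1)
    (hf : ∀ j, 0 < j → j ≤ t → coeff j f = -(h j : ℚ)) : (t : ℚ) * h t ≤ EE t f :=
  EE_pos_aux t ht 1 one_pos h f hc hf (fun j hj hj' => by omega)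

end Pool.Agent.CycE4
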