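import Mathlib

set_option autoImplicit false

namespace Pool.Agent.CycE4

open Real

/-- product to sum -/
lemma prod3 (x y z : ℝ) :
    sin (x + y + z) - sin (x + y - z) - sin (x - y + z) - sin (-x + y + z)
      = -4 * (sin x * sin y * sin z) := by
  have h1 : sin (x + y + z) = (sin x * cos y + cos x * sin y) * cos z
      + (cos x * cos y - sin x * sin y) * sin z := by
    rw [Real.sin_add, Real.sin_add, Real.cos_add]
  have h2 : sin (x + y - z) = (sin x * cos y + cos x * sin y) * cos z
      - (cos x * cos y - sin x * sin y) * sin z := by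
    rw [Real.sin_sub, Real.sin_add, Real.cos_add]
  have h3 : sin (x - y + z) = (sin x * cos y - cos x * sin y) * cos z
      + (cos x * cos y + sin x * sin y) * sin z := by
    rw [Real.sin_add, Real.sin_sub, Real.cos_sub]
  have h4 : sin (-x + y + z) = (-(sin x) * cos y + cos x * sin y) * cos z
      + (cos x * cos y + sin x * sin y) * sin z := by
    rw [Real.sin_add, Real.sin_add, Real.cos_add, Real.sin_neg, Real.cos_neg]
    ring
  rw [h1, h2, h3, h4]; ring

/-- The real function attached to the numerator. -/
noncomputable def FF (a b c p q D : ℝ) (x : ℝ) : ℝ :=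
  sin (D * x) - sin ((D - 2 * a) * x) - sin ((D - 2 * b) * x) - sin ((D - 2 * c) * x)
    - sin ((D - 2 * p) * x) - sin ((D - 2 * q) * x)

lemma FF_formula (a b c p q D x : ℝ) (h : a + b + c + p + q = 2 * D) :
    FF a b c p q D x =
      -4 * (sin ((D - c - p) * x) * sin (c * x) * sin (p * x)
        + sin ((D - a - b) * x) * sin ((D - a - q) * x) * sin ((D - b - q) * x)) := by
  have e1 := prod3 ((D - c - p) * x) (c * x) (p * x)
  have e2 := prod3 ((D - a - b) * x) ((D - a - q) * x) ((D - b - q) * x)
  have hq : q = 2 * D - a - b - c - p := by linarith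
  have : -4 * (sin ((D - c - p) * x) * sin (c * x) * sin (p * x)
        + sin ((D - a - b) * x) * sin ((D - a - q) * x) * sin ((D - b - q) * x))
      = -4 * (sin ((D - c - p) * x) * sin (c * x) * sin (p * x))
        + -4 * (sin ((D - a - b) * x) * sin ((D - a - q) * x) * sin ((D - b - q) * x)) := by ring
  rw [this, ← e1, ← e2, FF]
  have a1 : (D - c - p) * x + c * x + p * x = D * x := by ring
  have a2 : (D - c - p) * x + c * x - p * x = (D - 2 * p) * x := by ring
  have a3 : (D - c - p) * x - c * x + p * x = (D - 2 * c) * x := by ring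
  have a4 : -((D - c - p) * x) + c * x + p * x = (2 * c + 2 * p - D) * x := by ring
  have b1 : (D - a - b) * x + (D - a - q) * x + (D - b - q) * x = (2 * c + 2 * p - D) * x := by
    rw [hq]; ring
  have b2 : (D - a - b) * x + (D - a - q) * x - (D - b - q) * x = (D - 2 * a) * x := by ring
  have b3 : (D - a - b) * x - (D - a - q) * x + (D - b - q) * x = (D - 2 * b) * x := by ring
  have b4 : -((D - a - b) * x) + (D - a - q) * x + (D - b - q) * x = (D - 2 * q) * x := by ring
  rw [a1, a2, a3, a4, b1, b2, b3, b4]
  ring

/-- Fact 1: no zero of `FF` in `(0, π/p]`. -/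
lemma FF_neg (a b c p q D x : ℝ) (_ha : 0 < a) (hab : a ≤ b) (hbc : b ≤ c) (hcp : c ≤ p)
    (hpq : p ≤ q) (h : a + b + c + p + q = 2 * D) (hcq : c + q < D) (hx : 0 < x)
    (hpx : p * x ≤ π) : FF a b c p q D x < 0 := by
  rw [FF_formula a b c p q D x h]
  have key : ∀ u : ℝ, 0 < u → u < p → 0 < sin (u * x) := by
    intro u hu hup
    apply Real.sin_pos_of_pos_of_lt_pi (by positivity)
    calc u * x < p * x := by nlinarith
      _ ≤ π := hpx
  have s1 : 0 < sin ((D - a - b) * x) := key _ (by linarith) (by linarith)
  have s2 : 0 < sin ((D - a - q) * x) := key _ (by linarith) (by linarith)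
  have s3 : 0 < sin ((D - b - q) * x) := key _ (by linarith) (by linarith)
  have s4 : 0 < sin ((D - c - p) * x) := key _ (by linarith) (by linarith)
  have s5 : 0 ≤ sin (c * x) := by
    apply Real.sin_nonneg_of_nonneg_of_le_pi
    · have : 0 < c := by linarith
      positivity
    · nlinarith
  have s6 : 0 ≤ sin (p * x) := by
    apply Real.sin_nonneg_of_nonneg_of_le_pi
    · have : 0 < p := by linarith
      positivity
    · exact hpx
  have t1 : 0 < sin ((D - a - b) * x) * sin ((D - a - q) * x) * sin ((D - b - q) * x) := by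
    positivity
  have t2 : 0 ≤ sin ((D - c - p) * x) * sin (c * x) * sin (p * x) := by positivity
  linarith

/-- `sin (u φ) / sin (v φ)` is increasing in `φ` for `u < v`. -/
lemma ratio_lt {u v x y : ℝ} (hu : 0 < u) (huv : u < v) (hx : 0 < x) (hxy : x < y)
    (hvy : v * y ≤ π / 2) : sin (u * x) * sin (v * y) < sin (u * y) * sin (v * x) := by
  -- the function  φ ↦ sin (u φ) / sin (v φ)
  have hpi := Real.pi_pos
  have hv : 0 < v := hu.trans huv
  have hmono : StrictMonoOn (fun z => sin (u * z) / sin (v * z)) (Set.Icc x y) := by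
    apply strictMonoOn_of_deriv_pos (convex_Icc x y)
    · apply ContinuousOn.div
      · fun_prop
      · fun_prop
      · intro z hz
        have hz0 : 0 < z := lt_of_lt_of_le hx hz.1
        apply ne_of_gt
        apply Real.sin_pos_of_pos_of_lt_pi (by positivity)
        have : v * z ≤ v * y := by nlinarith [hz.2]
        linarith
    · intro z hz
      rw [interior_Icc] at hz
      have hz0 : 0 < z := lt_trans hx hz.1
      have hvz : v * z < π / 2 := by
        have : v * z < v * y := by nlinarith [hz.2]
        linarith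
      have huz : u * z < v * z := by nlinarith
      have hsv : 0 < sin (v * z) := Real.sin_pos_of_pos_of_lt_pi (by positivity) (by linarith)
      have hcv : 0 < cos (v * z) := Real.cos_pos_of_mem_Ioo ⟨by nlinarith, by linarith⟩
      have hcu : 0 < cos (u * z) := Real.cos_pos_of_mem_Ioo ⟨by nlinarith, by linarith⟩
      have hd : HasDerivAt (fun z => sin (u * z) / sin (v * z))
          ((cos (u * z) * u * sin (v * z) - sin (u * z) * (cos (v * z) * v)) / sin (v * z) ^ 2) z := by
        have h1 : HasDerivAt (fun z => sin (u * z)) (cos (u * z) * u) z := by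
          simpa using ((hasDerivAt_id z).const_mul u).sin
        have h2 : HasDerivAt (fun z => sin (v * z)) (cos (v * z) * v) z := by
          simpa using ((hasDerivAt_id z).const_mul v).sin
        exact h1.div h2 hsv.ne'
      rw [hd.deriv]
      apply div_pos _ (by positivity)
      -- u cos(uz) sin(vz) > v sin(uz) cos(vz)   i.e.  tan(vz)/v > tan(uz)/u
      -- use 2*(...) = (u+v) sin((v-u)z) - (v-u) sin((u+v)z)
      have hid : 2 * (cos (u * z) * u * sin (v * z) - sin (u * z) * (cos (v * z) * v))
          = (u + v) * sin ((v - u) * z) - (v - u) * sin ((u + v) * z) := by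
        have e1 : sin ((v - u) * z) = sin (v * z) * cos (u * z) - cos (v * z) * sin (u * z) := by
          rw [sub_mul, Real.sin_sub]
        have e2 : sin ((u + v) * z) = sin (u * z) * cos (v * z) + cos (u * z) * sin (v * z) := by
          rw [add_mul, Real.sin_add]
        rw [e1, e2]; ring
      have hA : 0 < (v - u) * z := by nlinarith
      have hB : (v - u) * z < (u + v) * z := by nlinarith
      have hC : (u + v) * z < π := by nlinarith
      -- strict concavity
      have hconc := strictConcaveOn_sin_Icc
      have hslope := hconc.slope_anti_adjacent (x := 0) (y := (v - u) * z) (z := (u + v) * z)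
        ⟨le_rfl, hpi.le⟩ ⟨by linarith, hC.le⟩ hA hB
      have h0 : (sin ((v - u) * z) - sin 0) / ((v - u) * z - 0) = sin ((v - u) * z) / ((v - u) * z) := by
        simp
      rw [h0, div_lt_div_iff₀ (by linarith) (by linarith)] at hslope
      have h3 : 0 < z := hz0
      have : 0 < (u + v) * sin ((v - u) * z) - (v - u) * sin ((u + v) * z) := by
        have h4 : z * ((u + v) * sin ((v - u) * z) - (v - u) * sin ((u + v) * z)) > 0 := by
          nlinarith
        exact (pos_iff_pos_of_mul_pos h4).1 h3
      linarith
  have := hmono ⟨le_rfl, hxy.le⟩ ⟨hxy.le, le_rfl⟩ hxy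
  simp only at this
  have hsx : 0 < sin (v * x) := Real.sin_pos_of_pos_of_lt_pi (by positivity) (by nlinarith)
  have hsy : 0 < sin (v * y) := Real.sin_pos_of_pos_of_lt_pi (by nlinarith) (by nlinarith)
  rw [div_lt_div_iff₀ hsx hsy] at this
  linarith

/-- `cot (α φ) · sin (y φ)` is decreasing in `φ` (cross-multiplied). -/
lemma cot_lt {α y x z : ℝ} (hα : 0 < α) (hy : 0 < y) (hx : 0 < x) (hxz : x < z)
    (hαz : α * z < π / 2) (hyz : y * z ≤ π / 2) :
    cos (α * z) * sin (y * z) * sin (α * x) < cos (α * x) * sin (y * x) * sin (α * z) := by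
  have hpi := Real.pi_pos
  have hz : 0 < z := hx.trans hxz
  -- g(φ) = cos(αφ) sin(yφ)/ sin(αφ) is strictly decreasing
  have hmono : StrictAntiOn (fun w => cos (α * w) * sin (y * w) / sin (α * w)) (Set.Icc x z) := by
    apply strictAntiOn_of_deriv_neg (convex_Icc x z)
    · apply ContinuousOn.div
      · fun_prop
      · fun_prop
      · intro w hw
        have hw0 : 0 < w := lt_of_lt_of_le hx hw.1
        apply ne_of_gt
        apply Real.sin_pos_of_pos_of_lt_pi (by positivity)
        have : α * w ≤ α * z := by nlinarith [hw.2]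
        linarith
    · intro w hw
      rw [interior_Icc] at hw
      have hw0 : 0 < w := lt_trans hx hw.1
      have hαw : α * w < π / 2 := by
        have : α * w < α * z := by nlinarith [hw.2]
        linarith
      have hyw : y * w < π / 2 := by
        have : y * w < y * z := by nlinarith [hw.2]
        linarith
      have hsα : 0 < sin (α * w) := Real.sin_pos_of_pos_of_lt_pi (by positivity) (by linarith)
      have hcα : 0 < cos (α * w) := Real.cos_pos_of_mem_Ioo ⟨by nlinarith, by linarith⟩
      have hsy : 0 < sin (y * w) := Real.sin_pos_of_pos_of_lt_pi (by positivity) (by linarith)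
      have hcy : 0 < cos (y * w) := Real.cos_pos_of_mem_Ioo ⟨by nlinarith, by linarith⟩
      have hd : HasDerivAt (fun w => cos (α * w) * sin (y * w) / sin (α * w))
          (((-sin (α * w) * α * sin (y * w) + cos (α * w) * (cos (y * w) * y)) * sin (α * w)
            - cos (α * w) * sin (y * w) * (cos (α * w) * α)) / sin (α * w) ^ 2) w := by
        have h1 : HasDerivAt (fun w => sin (α * w)) (cos (α * w) * α) w := by
          simpa using ((hasDerivAt_id w).const_mul α).sin
        have h2 : HasDerivAt (fun w => sin (y * w)) (cos (y * w) * y) w := by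
          simpa using ((hasDerivAt_id w).const_mul y).sin
        have h3 : HasDerivAt (fun w => cos (α * w)) (-sin (α * w) * α) w := by
          simpa using ((hasDerivAt_id w).const_mul α).cos
        exact (h3.mul h2).div h1 hsα.ne'
      rw [hd.deriv]
      apply div_neg_of_neg_of_pos _ (by positivity)
      -- numerator = -α sin(yw) (sin² + cos²) + y cos(αw) cos(yw) sin(αw)
      have hnum : (-sin (α * w) * α * sin (y * w) + cos (α * w) * (cos (y * w) * y)) * sin (α * w)
            - cos (α * w) * sin (y * w) * (cos (α * w) * α)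
          = y * cos (y * w) * (cos (α * w) * sin (α * w)) - α * sin (y * w) := by
        have := Real.sin_sq_add_cos_sq (α * w)
        linear_combination (-α * sin (y * w)) * this
      rw [hnum]
      -- sin(αw) cos(αw) < α w,  y w cos (yw) < sin (yw)
      have h1 : cos (α * w) * sin (α * w) < α * w := by
        have hs : sin (α * w) < α * w := Real.sin_lt (by positivity)
        have hc : cos (α * w) ≤ 1 := Real.cos_le_one _
        nlinarith
      have h2 : (y * w) * cos (y * w) < sin (y * w) := by
        have ht := Real.lt_tan (x := y * w) (by positivity) hyw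
        rw [Real.tan_eq_sin_div_cos, lt_div_iff₀ hcy] at ht
        exact ht
      have h3 : w * (y * cos (y * w) * (cos (α * w) * sin (α * w)) - α * sin (y * w)) < 0 := by
        have e1 : w * (y * cos (y * w) * (cos (α * w) * sin (α * w)))
            = (y * w * cos (y * w)) * (cos (α * w) * sin (α * w)) := by ring
        have e2 : (y * w * cos (y * w)) * (cos (α * w) * sin (α * w))
            < sin (y * w) * (α * w) := by
          apply mul_lt_mul'' h2 h1 (by positivity) (by positivity)
        nlinarith
      by_contra hcon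
      push Not at hcon
      have : 0 ≤ w * (y * cos (y * w) * (cos (α * w) * sin (α * w)) - α * sin (y * w)) :=
        mul_nonneg hw0.le hcon
      linarith
  have := hmono ⟨le_rfl, hxz.le⟩ ⟨hxz.le, le_rfl⟩ hxz
  simp only at this
  have hsx : 0 < sin (α * x) := Real.sin_pos_of_pos_of_lt_pi (by positivity) (by nlinarith)
  have hsz : 0 < sin (α * z) := Real.sin_pos_of_pos_of_lt_pi (by nlinarith) (by nlinarith)
  rw [div_lt_div_iff₀ hsz hsx] at this
  linarith

/-- Pure algebra behind `unique_zero`. -/
lemma unique_zero_alg {xu xv yu yv au av bu bv cu cv ru rv abu abv : ℝ}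
    (_hxu : 0 < xu) (_hxv : 0 < xv) (_hyu : 0 < yu) (hyv : 0 < yv) (hau : 0 < au) (hav : 0 < av)
    (hbu : 0 < bu) (hbv : 0 < bv) (hcu : 0 < cu) (_hcv : 0 < cv) (hru : 0 < ru) (hrv : 0 < rv)
    (habu : 0 < abu) (_habv : 0 < abv)
    (m1 : xu * rv < xv * ru) (m2 : abu * cv ≤ abv * cu)
    (m3 : abv * yv * (au * bu) < abu * yu * (av * bv))
    (hEu : xu * au * bu = yu * cu * ru) (hEv : xv * av * bv = yv * cv * rv) : False := by
  have q1 : yu * cu * (av * bv) < yv * cv * (au * bu) := by
    have h1 : xu * rv * (au * bu) * (av * bv) < xv * ru * (au * bu) * (av * bv) := by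
      apply mul_lt_mul_of_pos_right _ (by positivity)
      apply mul_lt_mul_of_pos_right m1 (by positivity)
    have h2 : xu * rv * (au * bu) * (av * bv) = (ru * rv) * (yu * cu * (av * bv)) := by
      linear_combination (rv * (av * bv)) * hEu
    have h3 : xv * ru * (au * bu) * (av * bv) = (ru * rv) * (yv * cv * (au * bu)) := by
      linear_combination (ru * (au * bu)) * hEv
    rw [h2, h3] at h1
    exact lt_of_mul_lt_mul_left h1 (by positivity)
  have q2 : abv * yv * (au * bu) * cu < abu * yu * (av * bv) * cu :=
    mul_lt_mul_of_pos_right m3 hcu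
  have q3 : abu * (yu * cu * (av * bv)) < abu * (yv * cv * (au * bu)) :=
    mul_lt_mul_of_pos_left q1 habu
  have q4 : (abu * cv) * (yv * (au * bu)) ≤ (abv * cu) * (yv * (au * bu)) :=
    mul_le_mul_of_nonneg_right m2 (by positivity)
  have e1 : abv * yv * (au * bu) * cu = (abv * cu) * (yv * (au * bu)) := by ring
  have e2 : abu * yu * (av * bv) * cu = abu * (yu * cu * (av * bv)) := by ring
  have e3 : abu * (yv * cv * (au * bu)) = (abu * cv) * (yv * (au * bu)) := by ring
  rw [e1, e2] at q2
  rw [e3] at q3
  exact absurd (q2.trans (q3.trans_le q4)) (lt_irrefl _)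

/-- Fact 3: the equation `sin (xφ) sin (αφ) sin (βφ) = sin (yφ) sin (cφ) sin (rφ)` has at most one
solution when `x < r`, `α + β ≤ c`. -/
lemma unique_zero {x y α β c r u v : ℝ} (hx : 0 < x) (hy : 0 < y) (hα : 0 < α) (hβ : 0 < β)
    (hxr : x < r) (hc : α + β ≤ c) (hu : 0 < u) (huv : u < v)
    (hcv : c * v < π / 2) (hrv : r * v ≤ π / 2) (hyv : y * v ≤ π / 2)
    (hEu : sin (x * u) * sin (α * u) * sin (β * u) = sin (y * u) * sin (c * u) * sin (r * u))
    (hEv : sin (x * v) * sin (α * v) * sin (β * v) = sin (y * v) * sin (c * v) * sin (r * v)) :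
    False := by
  have hpi := Real.pi_pos
  have hv : 0 < v := hu.trans huv
  have hcpos : 0 < c := by linarith
  have hrpos : 0 < r := by linarith
  have pos : ∀ k : ℝ, 0 < k → k * v ≤ π / 2 → 0 < sin (k * u) ∧ 0 < sin (k * v) := by
    intro k hk hkv
    constructor
    · apply Real.sin_pos_of_pos_of_lt_pi (by positivity)
      nlinarith
    · apply Real.sin_pos_of_pos_of_lt_pi (by positivity)
      linarith
  have hαv : α * v < π / 2 := by nlinarith
  have hβv : β * v < π / 2 := by nlinarith
  have hxv : x * v ≤ π / 2 := by nlinarith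
  obtain ⟨sxu, sxv⟩ := pos x hx hxv
  obtain ⟨syu, syv⟩ := pos y hy hyv
  obtain ⟨sαu, sαv⟩ := pos α hα hαv.le
  obtain ⟨sβu, sβv⟩ := pos β hβ hβv.le
  obtain ⟨scu, scv⟩ := pos c hcpos hcv.le
  obtain ⟨sru, srv⟩ := pos r hrpos hrv
  have habv : (α + β) * v ≤ π / 2 := by nlinarith
  obtain ⟨sabu, sabv⟩ := pos (α + β) (by linarith) habv
  have m1 := ratio_lt hx hxr hu huv hrv
  have m2 : sin ((α + β) * u) * sin (c * v) ≤ sin ((α + β) * v) * sin (c * u) := by
    rcases eq_or_lt_of_le hc with h | h
    · rw [h]; linarith
    · exact (ratio_lt (by linarith) h hu huv hcv.le).le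
  have m3a := cot_lt hα hy hu huv hαv hyv
  have m3b := cot_lt hβ hy hu huv hβv hyv
  have hab1 : sin ((α + β) * u) = sin (α * u) * cos (β * u) + cos (α * u) * sin (β * u) := by
    rw [add_mul, Real.sin_add]
  have hab2 : sin ((α + β) * v) = sin (α * v) * cos (β * v) + cos (α * v) * sin (β * v) := by
    rw [add_mul, Real.sin_add]
  have m3 : sin ((α + β) * v) * sin (y * v) * (sin (α * u) * sin (β * u))
      < sin ((α + β) * u) * sin (y * u) * (sin (α * v) * sin (β * v)) := by
    rw [hab1, hab2]
    have k1 := mul_lt_mul_of_pos_right m3a (mul_pos sβu sβv)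
    have k2 := mul_lt_mul_of_pos_right m3b (mul_pos sαu sαv)
    linarith [k1, k2]
  exact unique_zero_alg sxu sxv syu syv sαu sαv sβu sβv scu scv sru srv sabu sabv m1 m2 m3 hEu hEv

end Pool.Agent.CycE4
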