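import Mathlib
import Pool.Agent.CycE4.Trig

set_option autoImplicit false

namespace Pool.Agent.CycE4

open Real

lemma FF_B (a b c p q w x : ℝ) (h : a + b + c = p + q) :
    FF a b c (w + p) (w + q) (w + p + q) x =
      -4 * (sin ((q - c) * x) * sin (c * x) * sin ((w + p) * x)
        + sin ((w + c) * x) * sin ((p - a) * x) * sin ((p - b) * x)) := by
  rw [FF_formula _ _ _ _ _ _ _ (by linarith)]
  have e1 : w + p + q - c - (w + p) = q - c := by ring
  have e2 : w + p + q - a - b = w + c := by linarith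
  have e3 : w + p + q - a - (w + q) = p - a := by ring
  have e4 : w + p + q - b - (w + q) = p - b := by ring
  rw [e1, e2, e3, e4]

section CaseB

variable {a b c p q w : ℕ}

/-- shared hypotheses of case B -/
structure HB (a b c p q w : ℕ) : Prop where
  ha : 0 < a
  hab : a ≤ b
  hbc : b ≤ c
  hcp : c < p
  hpq : p ≤ q
  hsum : a + b + c = p + q

/-- Fact 2: location of zeros. -/
lemma zero_location (H : HB a b c p q w) {m : ℕ} (hm : a + b + c ≤ m)
    (hF : FF a b c (w + p) (w + q) (w + p + q) (π / m) = 0) :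
    ∃ k : ℕ, w + c < k * m ∧ k * m < w + p := by
  obtain ⟨ha, hab, hbc, hcp, hpq, hsum⟩ := H
  have hpi := Real.pi_pos
  by_contra hcon
  push Not at hcon
  have hm0 : 0 < m := by omega
  set k := (w + c) / m with hk
  have hk1 : k * m ≤ w + c := Nat.div_mul_le_self _ _
  have hk2 : w + c < (k + 1) * m := by
    have := Nat.lt_div_mul_add (a := w + c) hm0
    rw [hk]; linarith [this]
  have hk3 : w + p ≤ (k + 1) * m := hcon (k + 1) hk2
  have hmR : (0 : ℝ) < m := by exact_mod_cast hm0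
  have hφ : 0 < π / m := by positivity
  rw [FF_B _ _ _ _ _ _ _ (by exact_mod_cast hsum)] at hF
  have pos : ∀ u : ℝ, 0 < u → u < m → 0 < sin (u * (π / m)) := by
    intro u hu hum
    apply Real.sin_pos_of_pos_of_lt_pi (by positivity)
    rw [← mul_div_assoc, div_lt_iff₀ hmR]
    nlinarith
  have hk1R : (k : ℝ) * m ≤ w + c := by exact_mod_cast hk1
  have hk2R : (w : ℝ) + c < (k + 1) * m := by exact_mod_cast hk2
  have hk3R : (w : ℝ) + p ≤ (k + 1) * m := by exact_mod_cast hk3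
  have haR : (0 : ℝ) < a := by exact_mod_cast ha
  have habR : (a : ℝ) ≤ b := by exact_mod_cast hab
  have hbcR : (b : ℝ) ≤ c := by exact_mod_cast hbc
  have hcpR : (c : ℝ) < p := by exact_mod_cast hcp
  have hpqR : (p : ℝ) ≤ q := by exact_mod_cast hpq
  have hsumR : (a : ℝ) + b + c = p + q := by exact_mod_cast hsum
  have hmR2 : (a : ℝ) + b + c ≤ m := by exact_mod_cast hm
  have e1 : sin (((w : ℝ) + p) * (π / m)) = (-1) ^ k * sin (((w : ℝ) + p - k * m) * (π / m)) := by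
    rw [← Real.sin_add_nat_mul_pi]
    congr 1
    field_simp
    ring
  have e2 : sin (((w : ℝ) + c) * (π / m)) = (-1) ^ k * sin (((w : ℝ) + c - k * m) * (π / m)) := by
    rw [← Real.sin_add_nat_mul_pi]
    congr 1
    field_simp
    ring
  rw [e1, e2] at hF
  have s1 : 0 < sin (((q : ℝ) - c) * (π / m)) := pos _ (by linarith) (by linarith)
  have s2 : 0 < sin ((c : ℝ) * (π / m)) := pos _ (by linarith) (by linarith)
  have s3 : 0 < sin (((p : ℝ) - a) * (π / m)) := pos _ (by linarith) (by linarith)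
  have s4 : 0 < sin (((p : ℝ) - b) * (π / m)) := pos _ (by linarith) (by linarith)
  have t1 : 0 ≤ sin (((w : ℝ) + p - k * m) * (π / m)) := by
    apply Real.sin_nonneg_of_nonneg_of_le_pi
    · apply mul_nonneg _ hφ.le; linarith
    · rw [← mul_div_assoc, div_le_iff₀ hmR]
      nlinarith
  have hE : 0 < sin (((q : ℝ) - c) * (π / m)) * sin ((c : ℝ) * (π / m))
        * sin (((w : ℝ) + p - k * m) * (π / m))
      + sin (((w : ℝ) + c - k * m) * (π / m)) * sin (((p : ℝ) - a) * (π / m))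
        * sin (((p : ℝ) - b) * (π / m)) := by
    rcases eq_or_lt_of_le hk1R with h | h
    · have h0 : (w : ℝ) + c - k * m = 0 := by linarith
      have t2 : 0 < sin (((w : ℝ) + p - k * m) * (π / m)) := pos _ (by linarith) (by linarith)
      rw [h0]; simp only [zero_mul, Real.sin_zero, add_zero]
      positivity
    · have t2 : 0 < sin (((w : ℝ) + c - k * m) * (π / m)) := pos _ (by linarith) (by linarith)
      have : 0 < sin (((w : ℝ) + c - k * m) * (π / m)) * sin (((p : ℝ) - a) * (π / m))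
        * sin (((p : ℝ) - b) * (π / m)) := by positivity
      have : 0 ≤ sin (((q : ℝ) - c) * (π / m)) * sin ((c : ℝ) * (π / m))
        * sin (((w : ℝ) + p - k * m) * (π / m)) := by positivity
      linarith
  have hpow : ((-1 : ℝ)) ^ k ≠ 0 := pow_ne_zero _ (by norm_num)
  have : -4 * ((-1 : ℝ) ^ k * (sin (((q : ℝ) - c) * (π / m)) * sin ((c : ℝ) * (π / m))
        * sin (((w : ℝ) + p - k * m) * (π / m))
      + sin (((w : ℝ) + c - k * m) * (π / m)) * sin (((p : ℝ) - a) * (π / m))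
        * sin (((p : ℝ) - b) * (π / m)))) = 0 := by
    rw [← hF]; ring
  have h2 := mul_ne_zero (mul_ne_zero (by norm_num : (-4 : ℝ) ≠ 0) hpow) hE.ne'
  apply h2
  rw [← this]; ring

/-- at a zero `π/m` the sines with `w` can be rewritten -/
lemma zero_rewrite {m k : ℕ} {u : ℝ} (hm0 : 0 < m) :
    sin (((k : ℝ) * m + u) * (π / m)) = (-1) ^ k * sin (u * (π / m)) ∧
    cos (((k : ℝ) * m + u) * (π / m)) = (-1) ^ k * cos (u * (π / m)) := by
  have hmR : (0 : ℝ) < m := by exact_mod_cast hm0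
  have : ((k : ℝ) * m + u) * (π / m) = u * (π / m) + k * π := by
    field_simp
    ring
  rw [this, Real.sin_add_nat_mul_pi, Real.cos_add_nat_mul_pi]
  exact ⟨rfl, rfl⟩

/-- the equation satisfied at a zero -/
lemma zero_eq (H : HB a b c p q w) {m k : ℕ} (hm0 : 0 < m)
    (hF : FF a b c (w + p) (w + q) (w + p + q) (π / m) = 0) :
    sin (((k : ℝ) * m - w - c) * (π / m)) * sin (((p : ℝ) - a) * (π / m))
        * sin (((p : ℝ) - b) * (π / m))
      = sin (((w : ℝ) + p - k * m) * (π / m)) * sin ((c : ℝ) * (π / m))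
        * sin (((q : ℝ) - c) * (π / m)) := by
  have hsum := H.hsum
  rw [FF_B _ _ _ _ _ _ _ (by exact_mod_cast hsum)] at hF
  have e1 : sin (((w : ℝ) + p) * (π / m))
      = (-1) ^ k * sin (((w : ℝ) + p - k * m) * (π / m)) := by
    rw [← (zero_rewrite (k := k) (u := (w : ℝ) + p - k * m) hm0).1]
    congr 1; ring
  have e2 : sin (((w : ℝ) + c) * (π / m))
      = - ((-1) ^ k * sin (((k : ℝ) * m - w - c) * (π / m))) := by
    have := (zero_rewrite (k := k) (u := (w : ℝ) + c - k * m) hm0).1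
    have h3 : ((w : ℝ) + c) * (π / m) = ((k : ℝ) * m + (w + c - k * m)) * (π / m) := by ring
    rw [h3, this]
    have h4 : ((w : ℝ) + c - k * m) * (π / m) = -(((k : ℝ) * m - w - c) * (π / m)) := by ring
    rw [h4, Real.sin_neg]; ring
  rw [e1, e2] at hF
  have hpow : ((-1 : ℝ)) ^ k ≠ 0 := pow_ne_zero _ (by norm_num)
  have h5 : (-4 * (-1 : ℝ) ^ k) * (sin (((w : ℝ) + p - k * m) * (π / m)) * sin ((c : ℝ) * (π / m))
        * sin (((q : ℝ) - c) * (π / m)) - sin (((k : ℝ) * m - w - c) * (π / m)) * sin (((p : ℝ) - a) * (π / m))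
        * sin (((p : ℝ) - b) * (π / m))) = 0 := by
    rw [← hF]; ring
  rcases mul_eq_zero.1 h5 with h | h
  · exact absurd h (mul_ne_zero (by norm_num) hpow)
  · linarith

/-- Fact 3: uniqueness. -/
lemma zero_unique (H : HB a b c p q w) {m₁ m₂ : ℕ}
    (h1 : a + b + c ∣ m₁) (h2 : a + b + c ∣ m₂) (hm₁ : 0 < m₁) (hm₂ : 0 < m₂)
    (hF1 : FF a b c (w + p) (w + q) (w + p + q) (π / m₁) = 0)
    (hF2 : FF a b c (w + p) (w + q) (w + p + q) (π / m₂) = 0) : m₁ = m₂ := by
  -- wlog m₂ < m₁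
  have main : ∀ m₁ m₂ : ℕ, a + b + c ∣ m₁ → a + b + c ∣ m₂ → 0 < m₁ → 0 < m₂ →
      FF a b c (w + p) (w + q) (w + p + q) (π / m₁) = 0 →
      FF a b c (w + p) (w + q) (w + p + q) (π / m₂) = 0 → m₂ < m₁ → False := by
    intro m₁ m₂ h1 h2 hm₁ hm₂ hF1 hF2 hlt
    obtain ⟨k₁, hk1, hk1'⟩ := zero_location H (Nat.le_of_dvd hm₁ h1) hF1
    obtain ⟨k₂, hk2, hk2'⟩ := zero_location H (Nat.le_of_dvd hm₂ h2) hF2
    have E1 := zero_eq H (k := k₁) hm₁ hF1
    have E2 := zero_eq H (k := k₂) hm₂ hF2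
    obtain ⟨ha, hab, hbc, hcp, hpq, hsum⟩ := H
    have heq : k₁ * m₁ = k₂ * m₂ := by
      obtain ⟨u, hu⟩ := h1
      obtain ⟨v, hv⟩ := h2
      have hu' : k₁ * m₁ = (a + b + c) * (k₁ * u) := by rw [hu]; ring
      have hv' : k₂ * m₂ = (a + b + c) * (k₂ * v) := by rw [hv]; ring
      by_contra hne
      have hne' : k₁ * u ≠ k₂ * v := by
        intro h; apply hne; rw [hu', hv', h]
      rcases lt_or_gt_of_ne hne' with h | h
      · have : (a + b + c) * (k₁ * u) + (a + b + c) ≤ (a + b + c) * (k₂ * v) := by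
          calc (a + b + c) * (k₁ * u) + (a + b + c) = (a + b + c) * (k₁ * u + 1) := by ring
            _ ≤ _ := Nat.mul_le_mul_left _ h
        omega
      · have : (a + b + c) * (k₂ * v) + (a + b + c) ≤ (a + b + c) * (k₁ * u) := by
          calc (a + b + c) * (k₂ * v) + (a + b + c) = (a + b + c) * (k₂ * v + 1) := by ring
            _ ≤ _ := Nat.mul_le_mul_left _ h
        omega
    have heqR : (k₁ : ℝ) * m₁ = k₂ * m₂ := by exact_mod_cast heq
    rw [heqR] at E1
    have hpi := Real.pi_pos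
    have hm1R : (0 : ℝ) < m₁ := by exact_mod_cast hm₁
    have hm2R : (0 : ℝ) < m₂ := by exact_mod_cast hm₂
    have hk2R : (w : ℝ) + c < k₂ * m₂ := by exact_mod_cast hk2
    have hk2R' : (k₂ : ℝ) * m₂ < w + p := by exact_mod_cast hk2'
    have haR : (0 : ℝ) < a := by exact_mod_cast ha
    have habR : (a : ℝ) ≤ b := by exact_mod_cast hab
    have hbcR : (b : ℝ) ≤ c := by exact_mod_cast hbc
    have hcpR : (c : ℝ) < p := by exact_mod_cast hcp
    have hpqR : (p : ℝ) ≤ q := by exact_mod_cast hpq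
    have hsumR : (a : ℝ) + b + c = p + q := by exact_mod_cast hsum
    have hmR2 : (a : ℝ) + b + c ≤ m₂ := by exact_mod_cast Nat.le_of_dvd hm₂ h2
    have hltR : (m₂ : ℝ) < m₁ := by exact_mod_cast hlt
    have bound : ∀ u : ℝ, 2 * u ≤ m₂ → u * (π / m₂) ≤ π / 2 := by
      intro u hu
      rw [← mul_div_assoc, div_le_iff₀ hm2R]
      nlinarith
    have bound' : ∀ u : ℝ, 2 * u < m₂ → u * (π / m₂) < π / 2 := by
      intro u hu
      rw [← mul_div_assoc, div_lt_iff₀ hm2R]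
      nlinarith
    refine unique_zero (x := (k₂ : ℝ) * m₂ - w - c) (y := (w : ℝ) + p - k₂ * m₂)
      (α := (p : ℝ) - a) (β := (p : ℝ) - b) (c := (c : ℝ)) (r := (q : ℝ) - c)
      (u := π / m₁) (v := π / m₂) (by linarith) (by linarith) (by linarith) (by linarith)
      (by linarith) (by linarith) (by positivity) ?_ (bound' _ (by linarith))
      (bound _ (by linarith)) (bound _ (by linarith)) E1 E2
    exact div_lt_div_of_pos_left hpi hm2R hltR
  rcases lt_trichotomy m₁ m₂ with h | h | h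
  · exact (main m₂ m₁ h2 h1 hm₂ hm₁ hF2 hF1 h).elim
  · exact h
  · exact (main m₁ m₂ h1 h2 hm₁ hm₂ hF1 hF2 h).elim

end CaseB

/-- derivative of `FF` -/
noncomputable def dFF (a b c p q D : ℝ) (x : ℝ) : ℝ :=
  D * cos (D * x) - (D - 2 * a) * cos ((D - 2 * a) * x) - (D - 2 * b) * cos ((D - 2 * b) * x)
    - (D - 2 * c) * cos ((D - 2 * c) * x) - (D - 2 * p) * cos ((D - 2 * p) * x)
    - (D - 2 * q) * cos ((D - 2 * q) * x)

lemma hasDerivAt_sin_mul (k x : ℝ) : HasDerivAt (fun x => sin (k * x)) (k * cos (k * x)) x := by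
  have := ((hasDerivAt_id x).const_mul k).sin
  simp only [id, mul_one] at this
  rw [mul_comm k (cos (k * x))]
  exact this

lemma hasDerivAt_FF (a b c p q D x : ℝ) : HasDerivAt (FF a b c p q D) (dFF a b c p q D x) x := by
  unfold dFF
  exact (((((hasDerivAt_sin_mul D x).sub (hasDerivAt_sin_mul _ x)).sub
    (hasDerivAt_sin_mul _ x)).sub (hasDerivAt_sin_mul _ x)).sub (hasDerivAt_sin_mul _ x)).sub
    (hasDerivAt_sin_mul _ x)

lemma dFF_B (a b c p q w x : ℝ) (h : a + b + c = p + q) :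
    dFF a b c (w + p) (w + q) (w + p + q) x =
      -4 * (((q - c) * cos ((q - c) * x) * sin (c * x) * sin ((w + p) * x)
          + sin ((q - c) * x) * (c * cos (c * x)) * sin ((w + p) * x)
          + sin ((q - c) * x) * sin (c * x) * ((w + p) * cos ((w + p) * x)))
        + ((w + c) * cos ((w + c) * x) * sin ((p - a) * x) * sin ((p - b) * x)
          + sin ((w + c) * x) * ((p - a) * cos ((p - a) * x)) * sin ((p - b) * x)
          + sin ((w + c) * x) * sin ((p - a) * x) * ((p - b) * cos ((p - b) * x)))) := by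
  have h1 := hasDerivAt_FF a b c (w + p) (w + q) (w + p + q) x
  have h2 : HasDerivAt (fun x => -4 * (sin ((q - c) * x) * sin (c * x) * sin ((w + p) * x)
        + sin ((w + c) * x) * sin ((p - a) * x) * sin ((p - b) * x)))
      (-4 * ((((q - c) * cos ((q - c) * x)) * sin (c * x) + sin ((q - c) * x) * (c * cos (c * x)))
          * sin ((w + p) * x) + (sin ((q - c) * x) * sin (c * x)) * ((w + p) * cos ((w + p) * x))
        + ((((w + c) * cos ((w + c) * x)) * sin ((p - a) * x)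
          + sin ((w + c) * x) * ((p - a) * cos ((p - a) * x))) * sin ((p - b) * x)
          + (sin ((w + c) * x) * sin ((p - a) * x)) * ((p - b) * cos ((p - b) * x))))) x := by
    apply HasDerivAt.const_mul
    exact (((hasDerivAt_sin_mul _ x).mul (hasDerivAt_sin_mul _ x)).mul
      (hasDerivAt_sin_mul _ x)).add (((hasDerivAt_sin_mul _ x).mul (hasDerivAt_sin_mul _ x)).mul
      (hasDerivAt_sin_mul _ x))
  have h3 : FF a b c (w + p) (w + q) (w + p + q)
      = (fun x => -4 * (sin ((q - c) * x) * sin (c * x) * sin ((w + p) * x)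
        + sin ((w + c) * x) * sin ((p - a) * x) * sin ((p - b) * x))) := by
    funext y
    exact FF_B a b c p q w y h
  rw [h3] at h1
  rw [h1.unique h2]
  ring

/-- algebra behind `zero_simple`, first case -/
lemma simple_alg1 {φ r c w p α β Sx Cx Sy Cy Sα Cα Sβ Cβ Sc Cc Sr Cr : ℝ}
    (hφ : 0 < φ) (hr : 0 < r) (hc : 0 < c) (hw : 0 ≤ w) (hp : 0 < p)
    (hSx : 0 < Sx) (hCx : 0 < Cx) (hSy : 0 < Sy) (hCy : 0 < Cy) (hSα : 0 < Sα) (hSβ : 0 < Sβ)
    (hSc : 0 < Sc) (hCc : 0 < Cc) (hSr : 0 < Sr) (hCr : 0 < Cr)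
    (tα : α * φ * Cα < Sα) (tβ : β * φ * Cβ < Sβ)
    (t : 2 * Sx ≤ c * φ * Cx) :
    0 < φ * (r * Cr * Sc * Sy + Sr * (c * Cc) * Sy + Sr * Sc * ((w + p) * Cy)
      + ((w + c) * Cx * Sα * Sβ - Sx * (α * Cα) * Sβ - Sx * Sα * (β * Cβ))) := by
  have hα : (α * φ * Cα) * (Sx * Sβ) < Sα * (Sx * Sβ) :=
    mul_lt_mul_of_pos_right tα (by positivity)
  have hβ : (β * φ * Cβ) * (Sx * Sα) < Sβ * (Sx * Sα) :=
    mul_lt_mul_of_pos_right tβ (by positivity)
  have p1 : 0 < φ * (r * Cr * Sc * Sy) := by positivity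
  have p2 : 0 < φ * (Sr * (c * Cc) * Sy) := by positivity
  have p3 : 0 < φ * (Sr * Sc * ((w + p) * Cy)) := by positivity
  have t' : 2 * Sx * (Sα * Sβ) ≤ c * φ * Cx * (Sα * Sβ) :=
    mul_le_mul_of_nonneg_right t (by positivity)
  have t'' : 0 ≤ w * (φ * Cx * (Sα * Sβ)) := by positivity
  linarith

/-- algebra behind `zero_simple`, second case -/
lemma simple_alg2 {φ r c w p α β Sx Cx Sy Cy Sα Cα Sβ Cβ Sc Cc Sr Cr : ℝ}
    (hφ : 0 < φ) (hr : 0 < r) (hc : 0 < c) (hw : 0 ≤ w) (hp : c ≤ p)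
    (hSx : 0 < Sx) (hCx : 0 < Cx) (hSy : 0 < Sy) (hCy : 0 < Cy) (hSα : 0 < Sα) (hSβ : 0 < Sβ)
    (hSc : 0 < Sc) (hCc : 0 < Cc) (hSr : 0 < Sr) (hCr : 0 < Cr)
    (tα : α * φ * Cα < Sα) (tβ : β * φ * Cβ < Sβ)
    (t : 2 * Sy ≤ c * φ * Cy) (E : Sx * Sα * Sβ = Sy * Sc * Sr) :
    0 < φ * (r * Cr * Sc * Sy + Sr * (c * Cc) * Sy + Sr * Sc * ((w + p) * Cy)
      + ((w + c) * Cx * Sα * Sβ - Sx * (α * Cα) * Sβ - Sx * Sα * (β * Cβ))) := by
  have hα : (α * φ * Cα) * (Sx * Sβ) < Sα * (Sx * Sβ) :=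
    mul_lt_mul_of_pos_right tα (by positivity)
  have hβ : (β * φ * Cβ) * (Sx * Sα) < Sβ * (Sx * Sα) :=
    mul_lt_mul_of_pos_right tβ (by positivity)
  have p1 : 0 < φ * (r * Cr * Sc * Sy) := by positivity
  have p2 : 0 < φ * (Sr * (c * Cc) * Sy) := by positivity
  have p4 : 0 < φ * ((w + c) * Cx * Sα * Sβ) := by positivity
  have t' : 2 * Sy * (Sc * Sr) ≤ c * φ * Cy * (Sc * Sr) :=
    mul_le_mul_of_nonneg_right t (by positivity)
  have t'' : 0 ≤ (w + (p - c)) * (φ * Cy * (Sc * Sr)) := by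
    have : 0 ≤ w + (p - c) := by linarith
    positivity
  have t3 : 2 * (Sx * Sα * Sβ) = 2 * Sy * (Sc * Sr) := by rw [E]; ring
  linarith

lemma tan2_aux {u c φ : ℝ} (hφ : 0 < φ) (hu : 0 < u) (hu4 : 4 * u ≤ c) (hcφ : c * φ < π / 2) :
    2 * sin (u * φ) ≤ c * φ * cos (u * φ) := by
  have hpi := Real.pi_pos
  have h1 : sin (u * φ) < u * φ := Real.sin_lt (by positivity)
  have h4 : 4 * (u * φ) ≤ c * φ := by
    have := mul_le_mul_of_nonneg_right hu4 hφ.le
    linarith
  have h0 : 0 < u * φ := by positivity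
  have h3 : 1 / 2 ≤ cos (u * φ) := by
    rw [← Real.cos_pi_div_three]
    apply Real.cos_le_cos_of_nonneg_of_le_pi h0.le (by linarith) (by linarith)
  have h5 : c * φ * (1 / 2) ≤ c * φ * cos (u * φ) :=
    mul_le_mul_of_nonneg_left h3 (by linarith)
  linarith

/-- Fact 4: simple zeros. -/
lemma zero_simple {a b c p q w : ℕ} (H : HB a b c p q w) {m : ℕ} (hm : a + b + c ≤ m)
    (hF : FF a b c (w + p) (w + q) (w + p + q) (π / m) = 0) :
    dFF a b c (w + p) (w + q) (w + p + q) (π / m) ≠ 0 := by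
  obtain ⟨k, hk, hk'⟩ := zero_location H hm hF
  have hm0 : 0 < m := by have := H.ha; omega
  have E := zero_eq H (k := k) hm0 hF
  obtain ⟨ha, hab, hbc, hcp, hpq, hsum⟩ := H
  rw [dFF_B _ _ _ _ _ _ _ (by exact_mod_cast hsum)]
  have hpi := Real.pi_pos
  have hmR : (0 : ℝ) < m := by exact_mod_cast hm0
  have hkR : (w : ℝ) + c < k * m := by exact_mod_cast hk
  have hkR' : (k : ℝ) * m < w + p := by exact_mod_cast hk'
  have haR : (0 : ℝ) < a := by exact_mod_cast ha
  have habR : (a : ℝ) ≤ b := by exact_mod_cast hab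
  have hbcR : (b : ℝ) ≤ c := by exact_mod_cast hbc
  have hcpR : (c : ℝ) < p := by exact_mod_cast hcp
  have hpqR : (p : ℝ) ≤ q := by exact_mod_cast hpq
  have hsumR : (a : ℝ) + b + c = p + q := by exact_mod_cast hsum
  have hmR2 : (a : ℝ) + b + c ≤ m := by exact_mod_cast hm
  have hwR : (0 : ℝ) ≤ w := by positivity
  obtain ⟨e1, e1'⟩ := zero_rewrite (k := k) (u := (w : ℝ) + p - k * m) hm0
  obtain ⟨e2, e2'⟩ := zero_rewrite (k := k) (u := (w : ℝ) + c - k * m) hm0
  have r1 : (k : ℝ) * m + (w + p - k * m) = w + p := by ring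
  have r2 : (k : ℝ) * m + (w + c - k * m) = w + c := by ring
  rw [r1] at e1 e1'
  rw [r2] at e2 e2'
  have h4 : ((w : ℝ) + c - k * m) * (π / m) = -(((k : ℝ) * m - w - c) * (π / m)) := by ring
  rw [h4, Real.sin_neg] at e2
  rw [h4, Real.cos_neg] at e2'
  rw [e1, e1', e2, e2']
  set φ := π / m with hφdef
  have hφ : 0 < φ := by positivity
  set x := (k : ℝ) * m - w - c with hx
  set y := (w : ℝ) + p - k * m with hy
  have hx0 : 0 < x := by rw [hx]; linarith
  have hy0 : 0 < y := by rw [hy]; linarith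
  have hxy : x + y = p - c := by rw [hx, hy]; ring
  have bound : ∀ u : ℝ, 2 * u < m → u * φ < π / 2 := by
    intro u hu
    rw [hφdef, ← mul_div_assoc, div_lt_iff₀ hmR]
    nlinarith
  have trig : ∀ u : ℝ, 0 < u → 2 * u < m → 0 < sin (u * φ) ∧ 0 < cos (u * φ) := by
    intro u hu hu2
    have := bound u hu2
    have hpos : 0 < u * φ := by positivity
    exact ⟨Real.sin_pos_of_pos_of_lt_pi hpos (by linarith),
      Real.cos_pos_of_mem_Ioo ⟨by linarith, by linarith⟩⟩
  obtain ⟨sx, cx⟩ := trig x hx0 (by linarith)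
  obtain ⟨sy, cy⟩ := trig y hy0 (by linarith)
  obtain ⟨sα, cα⟩ := trig ((p : ℝ) - a) (by linarith) (by linarith)
  obtain ⟨sβ, cβ⟩ := trig ((p : ℝ) - b) (by linarith) (by linarith)
  obtain ⟨sc, cc⟩ := trig (c : ℝ) (by linarith) (by linarith)
  obtain ⟨sr, cr⟩ := trig ((q : ℝ) - c) (by linarith) (by linarith)
  -- u φ cos (u φ) < sin (u φ)
  have tan1 : ∀ u : ℝ, 0 < u → 2 * u < m → u * φ * cos (u * φ) < sin (u * φ) := by
    intro u hu hu2
    obtain ⟨_, hc⟩ := trig u hu hu2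
    have ht := Real.lt_tan (x := u * φ) (by positivity) (bound u hu2)
    rw [Real.tan_eq_sin_div_cos, lt_div_iff₀ hc] at ht
    exact ht
  -- for small u:  2 sin (u φ) ≤ c φ cos (u φ)   if 4 u ≤ c
  have tan2 : ∀ u : ℝ, 0 < u → 4 * u ≤ c → 2 * sin (u * φ) ≤ c * φ * cos (u * φ) := by
    intro u hu hu4
    exact tan2_aux hφ hu hu4 (bound ((c : ℝ)) (by linarith))
  have tα := tan1 ((p : ℝ) - a) (by linarith) (by linarith)
  have tβ := tan1 ((p : ℝ) - b) (by linarith) (by linarith)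
  have hr : 0 < ((q : ℝ) - c) := by linarith
  have hc0 : 0 < (c : ℝ) := by linarith
  have main : 0 < φ * (((q : ℝ) - c) * cos (((q : ℝ) - c) * φ) * sin ((c : ℝ) * φ) * sin (y * φ)
      + sin (((q : ℝ) - c) * φ) * (c * cos ((c : ℝ) * φ)) * sin (y * φ)
      + sin (((q : ℝ) - c) * φ) * sin ((c : ℝ) * φ) * ((w + p) * cos (y * φ))
      + ((w + c) * cos (x * φ) * sin (((p : ℝ) - a) * φ) * sin (((p : ℝ) - b) * φ)
      - sin (x * φ) * (((p : ℝ) - a) * cos (((p : ℝ) - a) * φ)) * sin (((p : ℝ) - b) * φ)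
      - sin (x * φ) * sin (((p : ℝ) - a) * φ) * (((p : ℝ) - b) * cos (((p : ℝ) - b) * φ)))) := by
    rcases le_total x y with hle | hle
    · exact simple_alg1 hφ hr hc0 hwR (by linarith) sx cx sy cy sα sβ sc cc sr cr tα tβ
        (tan2 x hx0 (by linarith))
    · exact simple_alg2 hφ hr hc0 hwR (by linarith) sx cx sy cy sα sβ sc cc sr cr tα tβ
        (tan2 y hy0 (by linarith)) E
  have hpow : ((-1 : ℝ)) ^ k ≠ 0 := pow_ne_zero _ (by norm_num)
  intro hcon
  have key : (-4 * (-1 : ℝ) ^ k) * (φ * (((q : ℝ) - c) * cos (((q : ℝ) - c) * φ) * sin ((c : ℝ) * φ) * sin (y * φ)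
      + sin (((q : ℝ) - c) * φ) * (c * cos ((c : ℝ) * φ)) * sin (y * φ)
      + sin (((q : ℝ) - c) * φ) * sin ((c : ℝ) * φ) * ((w + p) * cos (y * φ))
      + ((w + c) * cos (x * φ) * sin (((p : ℝ) - a) * φ) * sin (((p : ℝ) - b) * φ)
      - sin (x * φ) * (((p : ℝ) - a) * cos (((p : ℝ) - a) * φ)) * sin (((p : ℝ) - b) * φ)
      - sin (x * φ) * sin (((p : ℝ) - a) * φ) * (((p : ℝ) - b) * cos (((p : ℝ) - b) * φ))))) = 0 := by
    rw [← mul_zero φ, ← hcon]; ring
  rcases mul_eq_zero.1 key with h | h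
  · exact absurd h (mul_ne_zero (by norm_num) hpow)
  · exact main.ne' h

end Pool.Agent.CycE4
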