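import Mathlib
import Pool.Agent.CycE4.Zeros

set_option autoImplicit false

namespace Pool.Agent.CycE4

open Polynomial

/-- The twelve-term numerator. -/
noncomputable def num (a b c p q D : ℕ) : ℤ[X] :=
  1 - X ^ a - X ^ b - X ^ c - X ^ p - X ^ q + X ^ (D - a) + X ^ (D - b) + X ^ (D - c)
    + X ^ (D - p) + X ^ (D - q) - X ^ D

lemma sin_link (D d : ℕ) (hd : d ≤ D) (φ : ℝ) :
    -2 * Complex.I * Complex.exp (Complex.I * D * φ) * ((Real.sin (((D : ℝ) - 2 * d) * φ) : ℝ) : ℂ)
      = Complex.exp (2 * Complex.I * φ) ^ d - Complex.exp (2 * Complex.I * φ) ^ (D - d) := by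
  rw [← Complex.exp_nat_mul, ← Complex.exp_nat_mul, Complex.ofReal_sin, Complex.sin,
    Nat.cast_sub hd]
  have hI : Complex.I * Complex.I = -1 := Complex.I_mul_I
  have e1 : Complex.exp (Complex.I * D * φ) * Complex.exp (-(((((D : ℝ) - 2 * d) * φ : ℝ) : ℂ)) * Complex.I)
      = Complex.exp (d * (2 * Complex.I * φ)) := by
    rw [← Complex.exp_add]; congr 1; push_cast; ring
  have e2 : Complex.exp (Complex.I * D * φ) * Complex.exp ((((((D : ℝ) - 2 * d) * φ : ℝ) : ℂ)) * Complex.I)
      = Complex.exp ((D - d : ℂ) * (2 * Complex.I * φ)) := by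
    rw [← Complex.exp_add]; congr 1; push_cast; ring
  rw [← e1, ← e2]
  linear_combination (-1) * (Complex.exp (Complex.I * D * φ)
    * (Complex.exp (-(((((D : ℝ) - 2 * d) * φ : ℝ) : ℂ)) * Complex.I)
      - Complex.exp ((((((D : ℝ) - 2 * d) * φ : ℝ) : ℂ)) * Complex.I))) * hI

lemma eval_num (a b c p q D : ℕ) (ha : a ≤ D) (hb : b ≤ D) (hc : c ≤ D) (hp : p ≤ D) (hq : q ≤ D)
    (φ : ℝ) :
    aeval (Complex.exp (2 * Complex.I * φ)) (num a b c p q D)
      = -2 * Complex.I * Complex.exp (Complex.I * D * φ) * ((FF a b c p q D φ : ℝ) : ℂ) := by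
  unfold FF num
  have h0 := sin_link D 0 (Nat.zero_le _) φ
  simp only [Nat.cast_zero, mul_zero, sub_zero, pow_zero, Nat.sub_zero] at h0
  push_cast
  have e : ∀ u : ℂ, -2 * Complex.I * Complex.exp (Complex.I * D * φ) * u
      = (-2 * Complex.I * Complex.exp (Complex.I * D * φ)) * u := fun u => rfl
  have h1 := sin_link D a ha φ
  have h2 := sin_link D b hb φ
  have h3 := sin_link D c hc φ
  have h4 := sin_link D p hp φ
  have h5 := sin_link D q hq φ
  push_cast at h0 h1 h2 h3 h4 h5
  simp only [map_sub, map_add, map_one, map_pow, aeval_X]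
  linear_combination (-1) * h0 + h1 + h2 + h3 + h4 + h5

lemma eval_num_zero_iff (a b c p q D : ℕ) (ha : a ≤ D) (hb : b ≤ D) (hc : c ≤ D) (hp : p ≤ D)
    (hq : q ≤ D) (φ : ℝ)
    (h : aeval (Complex.exp (2 * Complex.I * φ)) (num a b c p q D) = 0) :
    FF a b c p q D φ = 0 := by
  rw [eval_num a b c p q D ha hb hc hp hq] at h
  have h2 : (-2 * Complex.I * Complex.exp (Complex.I * D * φ)) ≠ 0 := by
    apply mul_ne_zero
    · simp
    · exact Complex.exp_ne_zero _
  have := (mul_eq_zero.1 h).resolve_left h2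
  exact_mod_cast this

lemma deriv_num_zero (a b c p q D : ℕ) (ha : a ≤ D) (hb : b ≤ D) (hc : c ≤ D) (hp : p ≤ D)
    (hq : q ≤ D) (φ : ℝ)
    (h : aeval (Complex.exp (2 * Complex.I * φ)) (num a b c p q D) = 0)
    (h' : aeval (Complex.exp (2 * Complex.I * φ)) (derivative (num a b c p q D)) = 0) :
    dFF a b c p q D φ = 0 := by
  have hF := eval_num_zero_iff a b c p q D ha hb hc hp hq φ h
  -- the function φ ↦ num (exp (2 i φ))
  have hexp : HasDerivAt (fun x : ℝ => Complex.exp (2 * Complex.I * x))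
      (Complex.exp (2 * Complex.I * φ) * (2 * Complex.I)) φ := by
    have h1 : HasDerivAt (fun x : ℝ => 2 * Complex.I * (x : ℂ)) (2 * Complex.I * 1) φ :=
      (Complex.ofRealCLM.hasDerivAt (x := φ)).const_mul (2 * Complex.I)
    rw [mul_one] at h1
    exact h1.cexp
  have hL : HasDerivAt (fun x : ℝ => aeval (Complex.exp (2 * Complex.I * x)) (num a b c p q D))
      (aeval (Complex.exp (2 * Complex.I * φ)) (derivative (num a b c p q D))
        * (Complex.exp (2 * Complex.I * φ) * (2 * Complex.I))) φ := by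
    have := (Polynomial.hasDerivAt_aeval (num a b c p q D) (Complex.exp (2 * Complex.I * φ)))
    exact HasDerivAt.comp φ this hexp
  rw [h', zero_mul] at hL
  have hR : HasDerivAt (fun x : ℝ => (-2 * Complex.I * Complex.exp (Complex.I * D * x))
        * ((FF a b c p q D x : ℝ) : ℂ))
      ((-2 * Complex.I * (Complex.exp (Complex.I * D * φ) * (Complex.I * D)))
        * ((FF a b c p q D φ : ℝ) : ℂ)
        + (-2 * Complex.I * Complex.exp (Complex.I * D * φ)) * ((dFF a b c p q D φ : ℝ) : ℂ)) φ := by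
    have h1 : HasDerivAt (fun x : ℝ => Complex.I * D * (x : ℂ)) (Complex.I * D * 1) φ :=
      (Complex.ofRealCLM.hasDerivAt (x := φ)).const_mul (Complex.I * D)
    rw [mul_one] at h1
    have h2 : HasDerivAt (fun x : ℝ => ((FF a b c p q D x : ℝ) : ℂ))
      ((dFF a b c p q D φ : ℝ) : ℂ) φ := (hasDerivAt_FF a b c p q D φ).ofReal_comp
    exact (h1.cexp.const_mul (-2 * Complex.I)).mul h2
  have hfun : (fun x : ℝ => aeval (Complex.exp (2 * Complex.I * x)) (num a b c p q D))
      = (fun x : ℝ => (-2 * Complex.I * Complex.exp (Complex.I * D * x))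
        * ((FF a b c p q D x : ℝ) : ℂ)) := by
    funext x
    exact eval_num a b c p q D ha hb hc hp hq x
  rw [hfun] at hL
  have huniq := hL.unique hR
  rw [hF] at huniq
  simp only [Complex.ofReal_zero, mul_zero, zero_add] at huniq
  have h2 : (-2 * Complex.I * Complex.exp (Complex.I * D * φ)) ≠ 0 := by
    apply mul_ne_zero
    · simp
    · exact Complex.exp_ne_zero _
  have := (mul_eq_zero.1 huniq.symm).resolve_left h2
  exact_mod_cast this

/-- Root facts: `P = (1 - X) N` is divisible by `Φ_m`. -/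
lemma root_of_dvd {N Q : ℤ[X]} {m : ℕ} (hm : 2 ≤ m)
    (h : (1 - X) * N = cyclotomic m ℤ * Q) :
    aeval (Complex.exp (2 * Complex.I * ((Real.pi / m : ℝ) : ℂ))) N = 0 := by
  have hprim := Complex.isPrimitiveRoot_exp m (by omega)
  have hζ : Complex.exp (2 * Complex.I * ((Real.pi / m : ℝ) : ℂ))
      = Complex.exp (2 * Real.pi * Complex.I / m) := by
    congr 1; push_cast; ring
  rw [hζ]
  set ζ := Complex.exp (2 * Real.pi * Complex.I / m)
  have h1 : aeval ζ (cyclotomic m ℤ) = 0 := by
    have := hprim.isRoot_cyclotomic (by omega)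
    rw [IsRoot, ← map_cyclotomic_int m ℂ, eval_map] at this
    rw [aeval_def]; exact this
  have h2 := congrArg (aeval ζ) h
  rw [map_mul, map_mul, h1, zero_mul] at h2
  rcases mul_eq_zero.1 h2 with h3 | h3
  · exfalso
    simp only [map_sub, map_one, aeval_X] at h3
    exact hprim.ne_one (by omega) (sub_eq_zero.1 h3).symm
  · exact h3

lemma deriv_root_of_dvd {N Q : ℤ[X]} {m : ℕ} (hm : 2 ≤ m)
    (h : (1 - X) * N = cyclotomic m ℤ * (cyclotomic m ℤ * Q)) :
    aeval (Complex.exp (2 * Complex.I * ((Real.pi / m : ℝ) : ℂ))) (derivative N) = 0 := by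
  have hN := root_of_dvd hm h
  have hprim := Complex.isPrimitiveRoot_exp m (by omega)
  have hζ : Complex.exp (2 * Complex.I * ((Real.pi / m : ℝ) : ℂ))
      = Complex.exp (2 * Real.pi * Complex.I / m) := by
    congr 1; push_cast; ring
  rw [hζ] at hN ⊢
  set ζ := Complex.exp (2 * Real.pi * Complex.I / m)
  have h1 : aeval ζ (cyclotomic m ℤ) = 0 := by
    have := hprim.isRoot_cyclotomic (by omega)
    rw [IsRoot, ← map_cyclotomic_int m ℂ, eval_map] at this
    rw [aeval_def]; exact this
  have h2 := congrArg (fun P => aeval ζ (derivative P)) h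
  simp only [derivative_mul, map_add, map_mul, h1, zero_mul, mul_zero, add_zero, hN,
    derivative_sub, derivative_one, derivative_X, zero_add] at h2
  rcases mul_eq_zero.1 h2 with h3 | h3
  · exfalso
    simp only [map_sub, map_one, aeval_X] at h3
    exact hprim.ne_one (by omega) (sub_eq_zero.1 h3).symm
  · exact h3

end Pool.Agent.CycE4
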