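import Mathlib
import Pool.Agent.CycE4.Roots
import Pool.Agent.CycE4.Expo

set_option autoImplicit false

namespace Pool.Agent.CycE4

open PowerSeries
open scoped ArithmeticFunction.Moebius

/-- The numerator as a power series. -/
noncomputable def numS (a b c p q D : ℕ) : ℚ⟦X⟧ :=
  1 - X ^ a - X ^ b - X ^ c - X ^ p - X ^ q + X ^ (D - a) + X ^ (D - b) + X ^ (D - c)
    + X ^ (D - p) + X ^ (D - q) - X ^ D

lemma num_coe (a b c p q D : ℕ) :
    (((num a b c p q D).map (Int.castRingHom ℚ) : Polynomial ℚ) : ℚ⟦X⟧) = numS a b c p q D := by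
  unfold num numS
  simp

lemma EE_multiset (t : ℕ) (M : Multiset ℕ) :
    EE t (M.map cyc).prod = (M.map (fun m => EE t (cyc m))).sum := by
  induction M using Multiset.induction_on with
  | empty => simp [EE_one]
  | cons a s ih =>
    rw [Multiset.map_cons, Multiset.prod_cons, Multiset.map_cons, Multiset.sum_cons, ← ih,
      EE_mul (const_cyc a)]
    rw [map_multiset_prod, Multiset.map_map]
    apply Multiset.prod_ne_zero
    intro h
    rw [Multiset.mem_map] at h
    obtain ⟨x, _, hx⟩ := h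
    exact const_cyc x hx

lemma EE_cyc' {t m : ℕ} (ht : 0 < t) :
    EE t (cyc m) = if 0 < m ∧ t ∣ m then (t : ℚ) * (μ (m / t) : ℚ) else 0 := by
  rcases Nat.eq_zero_or_pos m with h | h
  · subst h
    have : cyc 0 = 1 := by simp [cyc]
    rw [this, EE_one]; simp
  · rw [EE_cyc ht h]
    simp [h]

lemma const_numS {a b c p q D : ℕ} (ha : 0 < a) (hb : 0 < b) (hc : 0 < c) (hp : 0 < p)
    (hq : 0 < q) (ha' : a < D) (hb' : b < D) (hc' : c < D) (hp' : p < D) (hq' : q < D) :
    constantCoeff (numS a b c p q D) = 1 := by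
  unfold numS
  have h : ∀ n : ℕ, 0 < n → constantCoeff ((X : ℚ⟦X⟧) ^ n) = 0 := by
    intro n hn; rw [map_pow, constantCoeff_X, zero_pow hn.ne']
  simp only [map_sub, map_add, map_one]
  rw [h a ha, h b hb, h c hc, h p hp, h q hq, h (D - a) (by omega), h (D - b) (by omega),
    h (D - c) (by omega), h (D - p) (by omega), h (D - q) (by omega), h D (by omega)]
  norm_num

lemma EE_link {a b c p q D : ℕ} {M : Multiset ℕ}
    (hM : (1 - Polynomial.X) * num a b c p q D = (M.map (fun m => Polynomial.cyclotomic m ℤ)).prod)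
    (hconst : constantCoeff (numS a b c p q D) = 1) {t : ℕ} (ht : 2 ≤ t) :
    EE t (numS a b c p q D)
      = (M.map (fun m => if 0 < m ∧ t ∣ m then (t : ℚ) * (μ (m / t) : ℚ) else 0)).sum := by
  have h1 := congrArg (fun P : Polynomial ℤ =>
    ((P.map (Int.castRingHom ℚ) : Polynomial ℚ) : ℚ⟦X⟧)) hM
  simp only [Polynomial.map_mul, Polynomial.coe_mul, num_coe] at h1
  have h2 : (((1 - Polynomial.X : Polynomial ℤ).map (Int.castRingHom ℚ) : Polynomial ℚ) : ℚ⟦X⟧)
      = 1 - X ^ 1 := by simp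
  have h3 : ((((M.map (fun m => Polynomial.cyclotomic m ℤ)).prod).map (Int.castRingHom ℚ) :
      Polynomial ℚ) : ℚ⟦X⟧) = (M.map cyc).prod := by
    have e1 : ((M.map (fun m => Polynomial.cyclotomic m ℤ)).prod).map (Int.castRingHom ℚ)
        = (M.map (fun m => Polynomial.cyclotomic m ℚ)).prod := by
      rw [← Polynomial.coe_mapRingHom, map_multiset_prod, Multiset.map_map]
      congr 1
      apply Multiset.map_congr rfl
      intro m _
      simp
    rw [e1]
    have e2 := map_multiset_prod (Polynomial.coeToPowerSeries.ringHom (R := ℚ))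
      (M.map (fun m => Polynomial.cyclotomic m ℚ))
    rw [Polynomial.coeToPowerSeries.ringHom_apply] at e2
    rw [e2, Multiset.map_map]
    rfl
  rw [h2, h3] at h1
  have h4 := congrArg (EE t) h1
  rw [EE_mul (by rw [const_one_sub one_pos]; norm_num) (by rw [hconst]; norm_num),
    EE_one_sub (by omega) one_pos, if_neg (by omega), zero_add, EE_multiset] at h4
  rw [h4]
  congr 1
  apply Multiset.map_congr rfl
  intro m _
  exact EE_cyc' (by omega)

/-- Zeros from membership. -/
lemma zero_of_mem {a b c p q D : ℕ} {M : Multiset ℕ}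
    (hM : (1 - Polynomial.X) * num a b c p q D = (M.map (fun m => Polynomial.cyclotomic m ℤ)).prod)
    (ha : a ≤ D) (hb : b ≤ D) (hc : c ≤ D) (hp : p ≤ D) (hq : q ≤ D)
    {m : ℕ} (hm : 2 ≤ m) (hmM : m ∈ M) : FF a b c p q D (Real.pi / m) = 0 := by
  obtain ⟨M', rfl⟩ := Multiset.exists_cons_of_mem hmM
  rw [Multiset.map_cons, Multiset.prod_cons] at hM
  exact eval_num_zero_iff a b c p q D ha hb hc hp hq _ (root_of_dvd hm hM)

lemma dzero_of_mem {a b c p q D : ℕ} {M : Multiset ℕ}
    (hM : (1 - Polynomial.X) * num a b c p q D = (M.map (fun m => Polynomial.cyclotomic m ℤ)).prod)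
    (ha : a ≤ D) (hb : b ≤ D) (hc : c ≤ D) (hp : p ≤ D) (hq : q ≤ D)
    {m : ℕ} (hm : 2 ≤ m) (hmM : ∃ M', M = m ::ₘ m ::ₘ M') : dFF a b c p q D (Real.pi / m) = 0 := by
  obtain ⟨M', rfl⟩ := hmM
  rw [Multiset.map_cons, Multiset.prod_cons, Multiset.map_cons, Multiset.prod_cons] at hM
  exact deriv_num_zero a b c p q D ha hb hc hp hq _ (root_of_dvd hm hM) (deriv_root_of_dvd hm hM)

/-- Fact 1 for members of `M`. -/
lemma mem_lt {a b c p q D : ℕ} {M : Multiset ℕ}
    (hM : (1 - Polynomial.X) * num a b c p q D = (M.map (fun m => Polynomial.cyclotomic m ℤ)).prod)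
    (ha : 0 < a) (hab : a ≤ b) (hbc : b ≤ c) (hcp : c ≤ p) (hpq : p ≤ q)
    (hsum : a + b + c + p + q = 2 * D) (hcq : c + q < D) {m : ℕ} (hm : 2 ≤ m) (hmM : m ∈ M) :
    m < p := by
  have h := zero_of_mem hM (by omega) (by omega) (by omega) (by omega) (by omega) hm hmM
  by_contra hcon
  push Not at hcon
  have hmR : (0 : ℝ) < m := by
    have : 0 < m := by omega
    exact_mod_cast this
  have hneg := FF_neg (a : ℝ) b c p q D (Real.pi / m) (by exact_mod_cast ha)
    (by exact_mod_cast hab) (by exact_mod_cast hbc) (by exact_mod_cast hcp)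
    (by exact_mod_cast hpq) (by exact_mod_cast hsum) (by exact_mod_cast hcq)
    (by have := Real.pi_pos; positivity) (by
      have : (p : ℝ) ≤ m := by exact_mod_cast hcon
      rw [← mul_div_assoc, div_le_iff₀ hmR, mul_comm]
      exact mul_le_mul_of_nonneg_left this Real.pi_pos.le)
  rw [h] at hneg
  exact lt_irrefl _ hneg

lemma exists_of_sum_ne {t : ℕ} {M : Multiset ℕ}
    (h : (M.map (fun m => if 0 < m ∧ t ∣ m then (t : ℚ) * (μ (m / t) : ℚ) else 0)).sum ≠ 0) :
    ∃ m ∈ M, 0 < m ∧ t ∣ m := by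
  by_contra hcon
  push Not at hcon
  apply h
  apply Multiset.sum_eq_zero
  intro x hx
  rw [Multiset.mem_map] at hx
  obtain ⟨m, hm, rfl⟩ := hx
  rw [if_neg]
  rintro ⟨h1, h2⟩
  exact hcon m hm h1 h2

lemma exists_of_sum_neg {t : ℕ} (ht : 0 < t) {M : Multiset ℕ}
    (h : (M.map (fun m => if 0 < m ∧ t ∣ m then (t : ℚ) * (μ (m / t) : ℚ) else 0)).sum < 0) :
    ∃ m ∈ M, 0 < m ∧ t ∣ m ∧ m ≠ t := by
  by_contra hcon
  push Not at hcon
  apply absurd h
  rw [not_lt]
  apply Multiset.sum_nonneg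
  intro x hx
  rw [Multiset.mem_map] at hx
  obtain ⟨m, hm, rfl⟩ := hx
  split_ifs with hc
  · have : m = t := hcon m hm hc.1 hc.2
    subst this
    rw [Nat.div_self ht]
    simp
  · exact le_rfl

/-- **Case A.** -/
lemma caseA {a b c p q D : ℕ} {M : Multiset ℕ}
    (hM : (1 - Polynomial.X) * num a b c p q D = (M.map (fun m => Polynomial.cyclotomic m ℤ)).prod)
    (ha : 0 < a) (hab : a ≤ b) (hbc : b ≤ c) (hcp : c ≤ p) (hpq : p ≤ q)
    (hsum : a + b + c + p + q = 2 * D) (hpqD : p + q < D) : False := by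
  have hconst : constantCoeff (numS a b c p q D) = 1 :=
    const_numS (by omega) (by omega) (by omega) (by omega) (by omega) (by omega) (by omega)
      (by omega) (by omega) (by omega)
  have hp2 : 2 ≤ p := by omega
  have key := EE_pos (t := p) (by omega)
    (fun j => (if j = a then 1 else 0) + (if j = b then 1 else 0) + (if j = c then 1 else 0)
      + (if j = p then 1 else 0) + (if j = q then 1 else 0)) (numS a b c p q D) hconst ?_
  · rw [EE_link hM hconst hp2] at key
    have hne : (M.map (fun m => if 0 < m ∧ p ∣ m then (p : ℚ) * (μ (m / p) : ℚ) else 0)).sum ≠ 0 := by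
      intro h0
      rw [h0] at key
      have : (0 : ℚ) < p * (((if p = a then 1 else 0) + (if p = b then 1 else 0)
        + (if p = c then 1 else 0) + (if p = p then 1 else 0) + (if p = q then 1 else 0) : ℕ) : ℚ) := by
        apply mul_pos
        · have : 0 < p := by omega
          exact_mod_cast this
        · simp only [if_true]
          positivity
      linarith
    obtain ⟨m, hmM, hm0, hpm⟩ := exists_of_sum_ne hne
    have hle := Nat.le_of_dvd hm0 hpm
    have := mem_lt hM ha hab hbc hcp hpq hsum (by omega) (by omega) hmM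
    omega
  · intro j hj hjp
    unfold numS
    simp only [map_sub, map_add, coeff_one, coeff_X_pow]
    rw [if_neg hj.ne', if_neg (show j ≠ D - a by omega), if_neg (show j ≠ D - b by omega),
      if_neg (show j ≠ D - c by omega), if_neg (show j ≠ D - p by omega),
      if_neg (show j ≠ D - q by omega), if_neg (show j ≠ D by omega)]
    push_cast
    ring

/-! ### Case B -/

lemma dvd_pow_of_le {n e : ℕ} (h : n ≤ e) : (X : ℚ⟦X⟧) ^ n ∣ X ^ e := pow_dvd_pow X h

/-- the inverse of `(1 - X^a)(1 - X^b)(1 - X^c)` -/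
noncomputable def rr (a b c : ℕ) : ℚ⟦X⟧ := geo a * (geo b * geo c)

noncomputable def CC (a b c : ℕ) : ℚ⟦X⟧ := (1 - X ^ a) * ((1 - X ^ b) * (1 - X ^ c))

lemma rr_mul_CC {a b c : ℕ} (ha : 0 < a) (hb : 0 < b) (hc : 0 < c) : rr a b c * CC a b c = 1 := by
  unfold rr CC
  have h1 := geo_mul ha
  have h2 := geo_mul hb
  have h3 := geo_mul hc
  calc geo a * (geo b * geo c) * ((1 - X ^ a) * ((1 - X ^ b) * (1 - X ^ c)))
      = (geo a * (1 - X ^ a)) * ((geo b * (1 - X ^ b)) * (geo c * (1 - X ^ c))) := by ring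
    _ = 1 := by rw [h1, h2, h3]; ring

lemma const_geo {j : ℕ} : constantCoeff (geo j) = 1 := by
  rw [← coeff_zero_eq_constantCoeff_apply, coeff_geo]; simp

lemma const_rr {a b c : ℕ} : constantCoeff (rr a b c) = 1 := by
  unfold rr; rw [map_mul, map_mul, const_geo, const_geo, const_geo]; norm_num

lemma const_CC {a b c : ℕ} (ha : 0 < a) (hb : 0 < b) (hc : 0 < c) :
    constantCoeff (CC a b c) = 1 := by
  unfold CC
  rw [map_mul, map_mul, const_one_sub ha, const_one_sub hb, const_one_sub hc]; norm_num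

lemma EE_CC {a b c t : ℕ} (ha : 0 < a) (hb : 0 < b) (hc : 0 < c) (ht : 0 < t)
    (h1 : t ≠ a) (h2 : t ≠ b) (h3 : t ≠ c) : EE t (CC a b c) = 0 := by
  unfold CC
  have k : ∀ j : ℕ, 0 < j → constantCoeff (1 - X ^ j : ℚ⟦X⟧) ≠ 0 := by
    intro j hj; rw [const_one_sub hj]; norm_num
  rw [EE_mul (k a ha) (by rw [map_mul]; exact mul_ne_zero (k b hb) (k c hc)),
    EE_mul (k b hb) (k c hc), EE_one_sub ht ha, EE_one_sub ht hb, EE_one_sub ht hc,
    if_neg h1, if_neg h2, if_neg h3]
  norm_num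

/-- coefficients of `rr` below `2 b` -/
lemma coeff_rr {a b c : ℕ} (ha : 0 < a) (hb : 0 < b) (hbc : b ≤ c) {x : ℕ} (hx : x < 2 * b) :
    coeff x (rr a b c) = (if a ∣ x then (1 : ℚ) else 0)
      + (if b ≤ x ∧ a ∣ x - b then (1 : ℚ) else 0) + (if c ≤ x ∧ a ∣ x - c then (1 : ℚ) else 0) := by
  have hc : 0 < c := by omega
  have hdvd : (X : ℚ⟦X⟧) ^ (2 * b) ∣ rr a b c - geo a * (1 + X ^ b + X ^ c) := by
    have h1 : rr a b c - geo a * (1 + X ^ b + X ^ c)
        = rr a b c * (X ^ (b + b) + X ^ (b + c) + X ^ (c + c) - X ^ (b + b + c) - X ^ (b + c + c)) := by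
      have h2 := geo_mul ha
      have h3 := geo_mul hb
      have h4 := geo_mul hc
      have e1 : geo a * (1 + X ^ b + X ^ c)
          = rr a b c * ((1 - X ^ b) * (1 - X ^ c) * (1 + X ^ b + X ^ c)) := by
        unfold rr
        calc geo a * (1 + X ^ b + X ^ c)
            = geo a * ((geo b * (1 - X ^ b)) * (geo c * (1 - X ^ c))) * (1 + X ^ b + X ^ c) := by
              rw [h3, h4]; ring
          _ = _ := by ring
      rw [e1]
      simp only [pow_add]
      ring
    rw [h1]
    apply Dvd.dvd.mul_left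
    refine dvd_sub (dvd_sub (dvd_add (dvd_add ?_ ?_) ?_) ?_) ?_
    all_goals exact dvd_pow_of_le (by omega)
  have h5 := (X_pow_dvd_iff.1 hdvd) x hx
  rw [map_sub, sub_eq_zero] at h5
  rw [h5]
  have : geo a * (1 + X ^ b + X ^ c) = geo a + geo a * X ^ b + geo a * X ^ c := by ring
  rw [this, map_add, map_add, coeff_geo, coeff_mul_X_pow', coeff_mul_X_pow', coeff_geo, coeff_geo]
  simp only [ite_and]

lemma sum_le_card {M : Multiset ℕ} {t : ℕ} :
    (M.map (fun m => if 0 < m ∧ t ∣ m then (t : ℚ) * (μ (m / t) : ℚ) else 0)).sum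
      ≤ (t : ℚ) * (Multiset.card (M.filter (fun m => 0 < m ∧ t ∣ m)) : ℚ) := by
  classical
  induction M using Multiset.induction_on with
  | empty => simp
  | cons m s ih =>
    rw [Multiset.map_cons, Multiset.sum_cons]
    by_cases h : 0 < m ∧ t ∣ m
    · rw [if_pos h, Multiset.filter_cons_of_pos (p := fun m => 0 < m ∧ t ∣ m) s h,
        Multiset.card_cons]
      have hmu : (μ (m / t) : ℚ) ≤ 1 := by
        have := ArithmeticFunction.abs_moebius_le_one (n := m / t)
        have := (abs_le.1 this).2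
        exact_mod_cast this
      have : (t : ℚ) * (μ (m / t) : ℚ) ≤ t * 1 :=
        mul_le_mul_of_nonneg_left hmu (by positivity)
      push_cast
      linarith
    · rw [if_neg h, Multiset.filter_cons_of_neg (p := fun m => 0 < m ∧ t ∣ m) s h, zero_add]
      exact ih

/-- bound for the inverse coefficients -/
lemma rr_bound {a b c P Q w : ℕ} (H : HB a b c P Q w) :
    coeff Q (rr a b c) + coeff P (rr a b c) - coeff c (rr a b c)
      - coeff b (rr a b c) - coeff a (rr a b c) ≤ if P = Q then (-1 : ℚ) else -2 := by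
  obtain ⟨ha, hab, hbc, hcP, hPQ, hsum⟩ := id H
  have hb : 0 < b := by omega
  have hc : 0 < c := by omega
  rw [coeff_rr ha hb hbc (show Q < 2 * b by omega), coeff_rr ha hb hbc (show P < 2 * b by omega),
    coeff_rr ha hb hbc (show c < 2 * b by omega), coeff_rr ha hb hbc (show b < 2 * b by omega),
    coeff_rr ha hb hbc (show a < 2 * b by omega)]
  have nd : ∀ x : ℕ, 0 < x → x < a → ¬ a ∣ x := fun x hx hxa hd =>
    absurd (Nat.le_of_dvd hx hd) (by omega)
  rw [if_neg (show ¬ (b ≤ Q ∧ a ∣ Q - b) from fun h => nd _ (by omega) (by omega) h.2),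
    if_neg (show ¬ (c ≤ Q ∧ a ∣ Q - c) from fun h => nd _ (by omega) (by omega) h.2),
    if_neg (show ¬ (b ≤ P ∧ a ∣ P - b) from fun h => nd _ (by omega) (by omega) h.2),
    if_neg (show ¬ (c ≤ P ∧ a ∣ P - c) from fun h => nd _ (by omega) (by omega) h.2),
    if_pos (show c ≤ c ∧ a ∣ c - c from ⟨le_rfl, by simp⟩),
    if_pos (show b ≤ b ∧ a ∣ b - b from ⟨le_rfl, by simp⟩),
    if_pos (show a ∣ a from dvd_rfl)]
  have nn : ∀ (p : Prop) [Decidable p], (0 : ℚ) ≤ if p then (1 : ℚ) else 0 := by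
    intro p _; split_ifs <;> norm_num
  have n1 := nn (a ∣ c)
  have n2 := nn (b ≤ c ∧ a ∣ c - b)
  have n3 := nn (a ∣ b)
  have n4 := nn (c ≤ b ∧ a ∣ b - c)
  have n5 := nn (b ≤ a ∧ a ∣ a - b)
  have n6 := nn (c ≤ a ∧ a ∣ a - c)
  by_cases hPQ' : P = Q
  · rw [if_pos hPQ']
    have m1 : (if a ∣ Q then (1 : ℚ) else 0) ≤ 1 := by split_ifs <;> norm_num
    have m2 : (if a ∣ P then (1 : ℚ) else 0) ≤ 1 := by split_ifs <;> norm_num
    linarith
  · rw [if_neg hPQ']
    have m : (if a ∣ Q then (1 : ℚ) else 0) + (if a ∣ P then (1 : ℚ) else 0) ≤ 1 := by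
      by_cases h1 : a ∣ Q
      · by_cases h2 : a ∣ P
        · exfalso
          have : a ∣ Q - P := Nat.dvd_sub h1 h2
          exact nd _ (by omega) (by omega) this
        · rw [if_pos h1, if_neg h2]; norm_num
      · rw [if_neg h1]
        split_ifs <;> norm_num
    linarith

/-- the part of the numerator of degree `≥ w + P` -/
noncomputable def tail (a b c P Q w : ℕ) : ℚ⟦X⟧ :=
  - X ^ (w + P) - X ^ (w + Q) + X ^ (w + P + Q - a) + X ^ (w + P + Q - b)
      + X ^ (w + P + Q - c) - X ^ (w + P + Q)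

lemma tail_dvd {a b c P Q w : ℕ} (H : HB a b c P Q w) :
    (X : ℚ⟦X⟧) ^ (w + P) ∣ tail a b c P Q w := by
  obtain ⟨ha, hab, hbc, hcP, hPQ, hsum⟩ := H
  unfold tail
  refine dvd_sub (dvd_add (dvd_add (dvd_add (dvd_sub (dvd_neg.2 ?_) ?_) ?_) ?_) ?_) ?_
  all_goals exact dvd_pow_of_le (by omega)

lemma numS_sub_CC {a b c P Q w : ℕ} :
    numS a b c (w + P) (w + Q) (w + P + Q) - CC a b c
      = X ^ P + X ^ Q - X ^ (a + b) - X ^ (a + c) - X ^ (b + c)
      + X ^ (a + b + c) + tail a b c P Q w := by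
  unfold numS CC tail
  have e1 : w + P + Q - (w + P) = Q := by omega
  have e2 : w + P + Q - (w + Q) = P := by omega
  rw [e1, e2]
  simp only [pow_add]
  ring

/-- the quotient `N / C` -/
noncomputable def ff (a b c P Q w : ℕ) : ℚ⟦X⟧ :=
  numS a b c (w + P) (w + Q) (w + P + Q) * rr a b c

lemma ff_mul_CC {a b c P Q w : ℕ} (H : HB a b c P Q w) :
    ff a b c P Q w * CC a b c = numS a b c (w + P) (w + Q) (w + P + Q) := by
  obtain ⟨ha, hab, hbc, hcP, hPQ, hsum⟩ := H
  unfold ff
  rw [mul_assoc, rr_mul_CC ha (by omega) (by omega), mul_one]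

lemma ff_sub_one {a b c P Q w : ℕ} (H : HB a b c P Q w) :
    ff a b c P Q w - 1
      = (X ^ P + X ^ Q - X ^ (a + b) - X ^ (a + c) - X ^ (b + c)
      + X ^ (a + b + c) + tail a b c P Q w) * rr a b c := by
  obtain ⟨ha, hab, hbc, hcP, hPQ, hsum⟩ := H
  rw [← numS_sub_CC, sub_mul, mul_comm (CC a b c), rr_mul_CC ha (by omega) (by omega)]
  rfl

lemma ff_coeff_low {a b c P Q w : ℕ} (H : HB a b c P Q w) {i : ℕ} (hiQ : i ≤ Q) (hiw : i < w + P) :
    coeff i (ff a b c P Q w)
      = (if i = 0 then (1:ℚ) else 0) + (if i = P then 1 else 0) + (if i = Q then 1 else 0) := by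
  obtain ⟨ha, hab, hbc, hcP, hPQ, hsum⟩ := id H
  have hdvd : (X : ℚ⟦X⟧) ^ (i + 1) ∣ ff a b c P Q w - (1 + X ^ P + X ^ Q) := by
    have h1 : ff a b c P Q w - (1 + X ^ P + X ^ Q)
        = (- X ^ (a + b) - X ^ (a + c) - X ^ (b + c) + X ^ (a + b + c)) * rr a b c
          + tail a b c P Q w * rr a b c
          + (X ^ P + X ^ Q) * (1 - CC a b c) * rr a b c := by
      have h2 : ff a b c P Q w - (1 + X ^ P + X ^ Q)
          = (ff a b c P Q w - 1) - (X ^ P + X ^ Q) * (rr a b c * CC a b c) := by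
        rw [rr_mul_CC ha (by omega) (by omega)]; ring
      rw [h2, ff_sub_one H]
      ring
    rw [h1]
    refine dvd_add (dvd_add (Dvd.dvd.mul_right ?_ _) (Dvd.dvd.mul_right ?_ _)) ?_
    · refine dvd_add (dvd_sub (dvd_sub (dvd_neg.2 ?_) ?_) ?_) ?_
      all_goals exact dvd_pow_of_le (by omega)
    · exact (dvd_pow_of_le (by omega)).trans (tail_dvd H)
    · have h3 : (X ^ P + X ^ Q) * (1 - CC a b c) * rr a b c
          = (X ^ (P + a) + X ^ (P + b) + X ^ (P + c) - X ^ (P + a + b) - X ^ (P + a + c)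
            - X ^ (P + b + c) + X ^ (P + a + b + c)
            + (X ^ (Q + a) + X ^ (Q + b) + X ^ (Q + c) - X ^ (Q + a + b) - X ^ (Q + a + c)
            - X ^ (Q + b + c) + X ^ (Q + a + b + c))) * rr a b c := by
        unfold CC
        simp only [pow_add]
        ring
      rw [h3]
      apply Dvd.dvd.mul_right
      refine dvd_add (dvd_add (dvd_sub (dvd_sub (dvd_sub (dvd_add (dvd_add ?_ ?_) ?_) ?_) ?_) ?_) ?_)
        (dvd_add (dvd_sub (dvd_sub (dvd_sub (dvd_add (dvd_add ?_ ?_) ?_) ?_) ?_) ?_) ?_)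
      all_goals exact dvd_pow_of_le (by omega)
  have h4 := (X_pow_dvd_iff.1 hdvd) i (by omega)
  rw [map_sub, sub_eq_zero] at h4
  rw [h4, map_add, map_add, coeff_one, coeff_X_pow, coeff_X_pow]

lemma const_ff {a b c P Q w : ℕ} (H : HB a b c P Q w) (hw : 0 < w) :
    constantCoeff (ff a b c P Q w) = 1 := by
  obtain ⟨ha, hab, hbc, hcP, hPQ, hsum⟩ := id H
  rw [← coeff_zero_eq_constantCoeff_apply, ff_coeff_low H (by omega) (by omega), if_pos rfl,
    if_neg (by omega), if_neg (by omega)]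
  norm_num

lemma ff_coeff_t {a b c P Q w : ℕ} (H : HB a b c P Q w) (hQw : Q < w) :
    coeff (P + Q) (ff a b c P Q w) = coeff Q (rr a b c) + coeff P (rr a b c) - coeff c (rr a b c)
      - coeff b (rr a b c) - coeff a (rr a b c) + 1 := by
  obtain ⟨ha, hab, hbc, hcP, hPQ, hsum⟩ := id H
  have h1 : ff a b c P Q w = 1 + (rr a b c * X ^ P + rr a b c * X ^ Q - rr a b c * X ^ (a + b)
        - rr a b c * X ^ (a + c)
        - rr a b c * X ^ (b + c) + rr a b c * X ^ (a + b + c)
        + rr a b c * tail a b c P Q w) := by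
    have := ff_sub_one H
    rw [sub_eq_iff_eq_add] at this
    rw [this]; ring
  have h3 : coeff (P + Q) (rr a b c * tail a b c P Q w) = 0 :=
    (X_pow_dvd_iff.1 (Dvd.dvd.mul_left (tail_dvd H) (rr a b c))) (P + Q) (by omega)
  rw [h1]
  simp only [map_add, map_sub]
  rw [h3, coeff_one, if_neg (by omega), coeff_mul_X_pow', coeff_mul_X_pow', coeff_mul_X_pow',
    coeff_mul_X_pow', coeff_mul_X_pow', coeff_mul_X_pow', if_pos (by omega), if_pos (by omega),
    if_pos (by omega), if_pos (by omega), if_pos (by omega), if_pos (by omega)]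
  rw [show P + Q - P = Q by omega, show P + Q - Q = P by omega, show P + Q - (a + b) = c by omega,
    show P + Q - (a + c) = b by omega, show P + Q - (b + c) = a by omega,
    show P + Q - (a + b + c) = 0 by omega]
  rw [coeff_zero_eq_constantCoeff_apply, const_rr]
  ring

lemma ff_EE {a b c P Q w : ℕ} (H : HB a b c P Q w) (hw : 0 < w) {t : ℕ} (ht : 0 < t)
    (h1 : t ≠ a) (h2 : t ≠ b) (h3 : t ≠ c) :
    EE t (numS a b c (w + P) (w + Q) (w + P + Q)) = EE t (ff a b c P Q w) := by
  obtain ⟨ha, hab, hbc, hcP, hPQ, hsum⟩ := id H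
  rw [← ff_mul_CC H, EE_mul (by rw [const_ff H hw]; norm_num)
    (by rw [const_CC ha (by omega) (by omega)]; norm_num),
    EE_CC ha (by omega) (by omega) ht h1 h2 h3, add_zero]

lemma EE_P_neg {a b c P Q w : ℕ} (H : HB a b c P Q w) (hw : 0 < w) :
    EE P (numS a b c (w + P) (w + Q) (w + P + Q)) < 0 := by
  obtain ⟨ha, hab, hbc, hcP, hPQ, hsum⟩ := id H
  have hone : OneMod P (ff a b c P Q w) := by
    refine ⟨const_ff H hw, fun i hi hiP => ?_⟩
    rw [ff_coeff_low H (by omega) (by omega), if_neg (by omega), if_neg (by omega),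
      if_neg (by omega)]
    norm_num
  rw [ff_EE H hw (by omega) (by omega) (by omega) (by omega), EE_lin hone (by omega) (by omega),
    ff_coeff_low H hPQ (by omega), if_neg (by omega), if_pos rfl]
  have : (0 : ℚ) < P := by
    have : 0 < P := by omega
    exact_mod_cast this
  split_ifs <;> linarith

lemma EE_Q_neg {a b c P Q w : ℕ} (H : HB a b c P Q w) (hw : P < w) :
    EE Q (numS a b c (w + P) (w + Q) (w + P + Q)) < 0 := by
  obtain ⟨ha, hab, hbc, hcP, hPQ, hsum⟩ := id H
  have hone : OneMod P (ff a b c P Q w) := by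
    refine ⟨const_ff H (by omega), fun i hi hiP => ?_⟩
    rw [ff_coeff_low H (by omega) (by omega), if_neg (by omega), if_neg (by omega),
      if_neg (by omega)]
    norm_num
  rw [ff_EE H (by omega) (by omega) (by omega) (by omega) (by omega),
    EE_lin hone (by omega) (by omega), ff_coeff_low H le_rfl (by omega), if_neg (by omega)]
  have : (0 : ℚ) < Q := by
    have : 0 < Q := by omega
    exact_mod_cast this
  rw [if_pos rfl]
  split_ifs <;> linarith

/-- the quotient with the two syzygy factors removed -/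
noncomputable def ff2 (a b c P Q w : ℕ) : ℚ⟦X⟧ :=
  ff a b c P Q w * ((1 - X ^ P) * (1 - X ^ Q))

lemma ff2_eq {a b c P Q w : ℕ} : ff2 a b c P Q w = ff a b c P Q w - ff a b c P Q w * X ^ P
    - ff a b c P Q w * X ^ Q + ff a b c P Q w * X ^ (P + Q) := by
  unfold ff2
  rw [pow_add]; ring

lemma ff2_one {a b c P Q w : ℕ} (H : HB a b c P Q w) (hQw : Q < w) :
    OneMod (Q + 1) (ff2 a b c P Q w) := by
  obtain ⟨ha, hab, hbc, hcP, hPQ, hsum⟩ := id H
  have hc : constantCoeff (ff2 a b c P Q w) = 1 := by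
    unfold ff2
    rw [map_mul, map_mul, const_ff H (by omega), const_one_sub (by omega),
      const_one_sub (by omega)]; norm_num
  refine ⟨hc, fun i hi hiQ => ?_⟩
  rw [ff2_eq, map_add, map_sub, map_sub, coeff_mul_X_pow', coeff_mul_X_pow', coeff_mul_X_pow',
    if_neg (show ¬ P + Q ≤ i by omega)]
  have c1 : coeff i (ff a b c P Q w) = (if i = P then 1 else 0) + (if i = Q then 1 else 0) := by
    rw [ff_coeff_low H (by omega) (by omega), if_neg (show i ≠ 0 by omega), zero_add]
  have c2 : (if P ≤ i then coeff (i - P) (ff a b c P Q w) else 0) = if i = P then 1 else 0 := by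
    rcases lt_trichotomy i P with h | h | h
    · rw [if_neg (by omega), if_neg (by omega)]
    · rw [if_pos (by omega), if_pos h, h, Nat.sub_self, coeff_zero_eq_constantCoeff_apply,
        const_ff H (by omega)]
    · rw [if_pos (by omega), if_neg (show i ≠ P by omega), ff_coeff_low H (by omega) (by omega),
        if_neg (show i - P ≠ 0 by omega), if_neg (show i - P ≠ P by omega),
        if_neg (show i - P ≠ Q by omega)]
      norm_num
  have c3 : (if Q ≤ i then coeff (i - Q) (ff a b c P Q w) else 0) = if i = Q then 1 else 0 := by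
    by_cases h : i = Q
    · rw [if_pos (by omega), if_pos h, h, Nat.sub_self, coeff_zero_eq_constantCoeff_apply,
        const_ff H (by omega)]
    · rw [if_neg (by omega), if_neg h]
  rw [c1, c2, c3]; ring

lemma ff2_coeff_t {a b c P Q w : ℕ} (H : HB a b c P Q w) (hQw : Q < w) :
    coeff (P + Q) (ff2 a b c P Q w) ≤ -2 := by
  obtain ⟨ha, hab, hbc, hcP, hPQ, hsum⟩ := id H
  rw [ff2_eq, map_add, map_sub, map_sub, coeff_mul_X_pow', coeff_mul_X_pow', coeff_mul_X_pow',
    if_pos (by omega), if_pos (by omega), if_pos (by omega), show P + Q - P = Q by omega,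
    show P + Q - Q = P by omega, Nat.sub_self, coeff_zero_eq_constantCoeff_apply,
    const_ff H (by omega), ff_coeff_t H hQw, ff_coeff_low H le_rfl (by omega),
    ff_coeff_low H hPQ (by omega), if_neg (show Q ≠ 0 by omega), if_neg (show P ≠ 0 by omega),
    if_pos (show Q = Q from rfl), if_pos (show P = P from rfl)]
  have hb := rr_bound H
  by_cases h : P = Q
  · rw [if_pos h] at hb
    rw [if_pos h, if_pos h.symm]
    linarith
  · rw [if_neg h] at hb
    rw [if_neg h, if_neg (fun h' => h h'.symm)]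
    linarith

lemma EE_t_ge {a b c P Q w : ℕ} (H : HB a b c P Q w) (hQw : Q < w) :
    (2 : ℚ) * ((P + Q : ℕ) : ℚ) ≤ EE (P + Q) (numS a b c (w + P) (w + Q) (w + P + Q)) := by
  obtain ⟨ha, hab, hbc, hcP, hPQ, hsum⟩ := id H
  have h1 : EE (P + Q) (numS a b c (w + P) (w + Q) (w + P + Q)) = EE (P + Q) (ff2 a b c P Q w) := by
    rw [ff_EE H (by omega) (by omega) (by omega) (by omega) (by omega)]
    unfold ff2
    rw [EE_mul (by rw [const_ff H (by omega)]; norm_num) (by
        rw [map_mul, const_one_sub (by omega), const_one_sub (by omega)]; norm_num),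
      EE_mul (by rw [const_one_sub (by omega)]; norm_num)
        (by rw [const_one_sub (by omega)]; norm_num),
      EE_one_sub (by omega) (by omega), EE_one_sub (by omega) (by omega),
      if_neg (by omega), if_neg (by omega)]
    ring
  rw [h1, EE_lin (ff2_one H hQw) (by omega) (by omega)]
  have h2 := ff2_coeff_t H hQw
  have : (0 : ℚ) < ((P + Q : ℕ) : ℚ) := by
    have : 0 < P + Q := by omega
    exact_mod_cast this
  nlinarith

/-- a negative exponent at `t` forces a member that is a proper multiple of `t` -/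
lemma two_mul_le_of_EE_neg {N : ℚ} {t : ℕ} (ht : 0 < t) {M : Multiset ℕ}
    (hN : N = (M.map (fun m => if 0 < m ∧ t ∣ m then (t : ℚ) * (μ (m / t) : ℚ) else 0)).sum)
    (h : N < 0) : ∃ m ∈ M, 2 * t ≤ m := by
  rw [hN] at h
  obtain ⟨m, hmM, hm0, ⟨k, hk⟩, hmP⟩ := exists_of_sum_neg ht h
  refine ⟨m, hmM, ?_⟩
  have hk2 : 2 ≤ k := by
    rcases Nat.lt_or_ge k 2 with h | h
    · interval_cases k
      · omega
      · omega
    · exact h
  rw [hk, mul_comm 2 t]
  exact Nat.mul_le_mul_left t hk2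

/-- **Case B.** -/
lemma caseB {a b c P Q w : ℕ} (H : HB a b c P Q w) (hw : 0 < w) {M : Multiset ℕ}
    (hM : (1 - Polynomial.X) * num a b c (w + P) (w + Q) (w + P + Q)
      = (M.map (fun m => Polynomial.cyclotomic m ℤ)).prod) : False := by
  obtain ⟨ha, hab, hbc, hcP, hPQ, hsum⟩ := id H
  have hconst : constantCoeff (numS a b c (w + P) (w + Q) (w + P + Q)) = 1 :=
    const_numS ha (by omega) (by omega) (by omega) (by omega) (by omega) (by omega) (by omega)
      (by omega) (by omega)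
  have hmem : ∀ m ∈ M, 2 ≤ m → m < w + P := fun m hmM hm =>
    mem_lt hM ha hab hbc (by omega) (by omega) (by omega) (by omega) hm hmM
  have hPw : P < w := by
    obtain ⟨m, hmM, hm2⟩ := two_mul_le_of_EE_neg (by omega)
      (EE_link hM hconst (t := P) (by omega)) (EE_P_neg H hw)
    have := hmem m hmM (by omega)
    omega
  have hQw : Q < w := by
    obtain ⟨m, hmM, hm2⟩ := two_mul_le_of_EE_neg (by omega)
      (EE_link hM hconst (t := Q) (by omega)) (EE_Q_neg H hPw)
    have := hmem m hmM (by omega)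
    omega
  have hEt := EE_t_ge H hQw
  rw [EE_link hM hconst (by omega)] at hEt
  have hle := hEt.trans (sum_le_card (M := M) (t := P + Q))
  have htQ : (0 : ℚ) < ((P + Q : ℕ) : ℚ) := by
    have : 0 < P + Q := by omega
    exact_mod_cast this
  have hcard : 2 ≤ Multiset.card (M.filter (fun m => 0 < m ∧ P + Q ∣ m)) := by
    have : (2 : ℚ) ≤ (Multiset.card (M.filter (fun m => 0 < m ∧ P + Q ∣ m)) : ℚ) := by
      by_contra hcon
      push Not at hcon
      nlinarith
    exact_mod_cast this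
  -- two members
  obtain ⟨m₁, M₁, hM₁⟩ : ∃ m₁ M₁, M.filter (fun m => 0 < m ∧ P + Q ∣ m) = m₁ ::ₘ M₁ := by
    have : 0 < Multiset.card (M.filter (fun m => 0 < m ∧ P + Q ∣ m)) := by omega
    obtain ⟨x, hx⟩ := Multiset.card_pos_iff_exists_mem.1 this
    exact ⟨x, Multiset.exists_cons_of_mem hx⟩
  obtain ⟨m₂, M₂, hM₂⟩ : ∃ m₂ M₂, M₁ = m₂ ::ₘ M₂ := by
    have : 0 < Multiset.card M₁ := by
      rw [hM₁, Multiset.card_cons] at hcard; omega
    obtain ⟨x, hx⟩ := Multiset.card_pos_iff_exists_mem.1 this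
    exact ⟨x, Multiset.exists_cons_of_mem hx⟩
  rw [hM₂] at hM₁
  have hle2 : m₁ ::ₘ m₂ ::ₘ M₂ ≤ M := hM₁ ▸ Multiset.filter_le _ _
  obtain ⟨M₃, hM₃⟩ := Multiset.le_iff_exists_add.1 hle2
  have hmem1 : m₁ ∈ M.filter (fun m => 0 < m ∧ P + Q ∣ m) := by rw [hM₁]; simp
  have hmem2 : m₂ ∈ M.filter (fun m => 0 < m ∧ P + Q ∣ m) := by rw [hM₁]; simp
  rw [Multiset.mem_filter] at hmem1 hmem2
  obtain ⟨hm1M, hm1, ht1⟩ := hmem1
  obtain ⟨hm2M, hm2, ht2⟩ := hmem2
  have hl1 := Nat.le_of_dvd hm1 ht1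
  have hl2 := Nat.le_of_dvd hm2 ht2
  have z1 := zero_of_mem hM (by omega) (by omega) (by omega) (by omega) (by omega)
    (show 2 ≤ m₁ by omega) hm1M
  have z2 := zero_of_mem hM (by omega) (by omega) (by omega) (by omega) (by omega)
    (show 2 ≤ m₂ by omega) hm2M
  push_cast at z1 z2
  have heq : m₁ = m₂ := zero_unique H (hsum ▸ ht1) (hsum ▸ ht2) hm1 hm2 z1 z2
  subst heq
  have dz := dzero_of_mem hM (by omega) (by omega) (by omega) (by omega) (by omega)
    (show 2 ≤ m₁ by omega) ⟨M₂ + M₃, by rw [hM₃]; simp⟩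
  push_cast at dz
  exact zero_simple H (by omega) z1 dz

/-- **Theorem A** (sorted form). -/
theorem not_cyclotomic_sorted {a b c p q D : ℕ} (ha : 0 < a) (hab : a ≤ b) (hbc : b ≤ c)
    (hcp : c ≤ p) (hpq : p ≤ q) (hsum : a + b + c + p + q = 2 * D) (hcq : c + q < D)
    (hne : p + q ≠ D) {M : Multiset ℕ}
    (hM : (1 - Polynomial.X) * num a b c p q D = (M.map (fun m => Polynomial.cyclotomic m ℤ)).prod) :
    False := by
  rcases lt_or_gt_of_ne hne with h | h
  · exact caseA hM ha hab hbc hcp hpq hsum h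
  · have hp : p = (p + q - D) + (D - q) := by omega
    have hq : q = (p + q - D) + (D - p) := by omega
    have hD : D = (p + q - D) + (D - q) + (D - p) := by omega
    have H : HB a b c (D - q) (D - p) (p + q - D) :=
      ⟨ha, hab, hbc, by omega, by omega, by omega⟩
    apply caseB H (by omega) (M := M)
    rw [← hM, ← hD, ← hp, ← hq]

end Pool.Agent.CycE4
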