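import Mathlib
import Pool.Agent.CycE4.Core

set_option autoImplicit false

namespace Pool.Agent.CycE4

open Polynomial in
/-- **Theorem A** (unsorted form). -/
theorem not_cyclotomic (d : Fin 5 → ℕ) (D : ℕ) (hpos : ∀ i, 0 < d i)
    (hsum : ∑ i, d i = 2 * D) (hne : ∀ i j, i ≠ j → d i + d j ≠ D)
    (hdisj : ∀ i j k, i ≠ j → i ≠ k → j ≠ k → D < d i + d j → D < d i + d k → False)
    {M : Multiset ℕ}
    (hM : (1 - X) * (1 - ∑ i, (X : ℤ[X]) ^ d i + ∑ i, X ^ (D - d i) - X ^ D)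
      = (M.map (fun m => Polynomial.cyclotomic m ℤ)).prod) : False := by
  set σ := Tuple.sort d with hσ
  have hmono : Monotone (d ∘ σ) := Tuple.monotone_sort d
  have m01 : d (σ 0) ≤ d (σ 1) := hmono (by decide)
  have m12 : d (σ 1) ≤ d (σ 2) := hmono (by decide)
  have m23 : d (σ 2) ≤ d (σ 3) := hmono (by decide)
  have m34 : d (σ 3) ≤ d (σ 4) := hmono (by decide)
  have hs : d (σ 0) + d (σ 1) + d (σ 2) + d (σ 3) + d (σ 4) = 2 * D := by
    rw [← hsum, ← Equiv.sum_comp σ d, Fin.sum_univ_five]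
  have n34 : d (σ 3) + d (σ 4) ≠ D := hne _ _ (by simp)
  have n24 : d (σ 2) + d (σ 4) ≠ D := hne _ _ (by simp)
  have h24 : d (σ 2) + d (σ 4) < D := by
    by_contra h
    refine hdisj (σ 4) (σ 2) (σ 3) (by simp) (by simp) (by simp) ?_ ?_
    · omega
    · omega
  refine not_cyclotomic_sorted (hpos (σ 0)) m01 m12 m23 m34 hs h24 n34 (M := M) ?_
  rw [← hM]
  congr 1
  have e1 : ∑ i, (X : ℤ[X]) ^ d i = X ^ d (σ 0) + X ^ d (σ 1) + X ^ d (σ 2) + X ^ d (σ 3)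
      + X ^ d (σ 4) := by
    rw [← Equiv.sum_comp σ (fun i => (X : ℤ[X]) ^ d i), Fin.sum_univ_five]
  have e2 : ∑ i, (X : ℤ[X]) ^ (D - d i) = X ^ (D - d (σ 0)) + X ^ (D - d (σ 1))
      + X ^ (D - d (σ 2)) + X ^ (D - d (σ 3)) + X ^ (D - d (σ 4)) := by
    rw [← Equiv.sum_comp σ (fun i => (X : ℤ[X]) ^ (D - d i)), Fin.sum_univ_five]
  rw [e1, e2]
  unfold num
  ring

end Pool.Agent.CycE4
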