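import Mathlib
import Pool.Agent.CycE4.Build
import Pool.Agent.CycE4.Sort

set_option autoImplicit false

namespace Pool.Agent.CycE4

open Polynomial

/-- index set of the Apéry set -/
def QQ (X Y X' Y' Z R : ℕ) : Finset (ℕ × ℕ × ℕ) :=
  (Finset.range X ×ˢ (Finset.range Y ×ˢ Finset.range Z)) ∪
    (Finset.range X' ×ˢ (Finset.range Y' ×ˢ Finset.Ico Z R))

lemma mem_QQ {X Y X' Y' Z R : ℕ} {q : ℕ × ℕ × ℕ} : q ∈ QQ X Y X' Y' Z R ↔
    (q.1 < X ∧ q.2.1 < Y ∧ q.2.2 < Z) ∨ (q.1 < X' ∧ q.2.1 < Y' ∧ Z ≤ q.2.2 ∧ q.2.2 < R) := by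
  simp [QQ]

/-- generating polynomial of the Apéry set -/
noncomputable def AA (n2 n3 n4 X Y X' Y' Z R : ℕ) : ℤ[X] :=
  ∑ q ∈ QQ X Y X' Y' Z R, Polynomial.X ^ (q.1 * n2 + q.2.1 * n3 + q.2.2 * n4)

lemma sum_prod3 (A B C : Finset ℕ) (n2 n3 n4 : ℕ) :
    ∑ q ∈ A ×ˢ (B ×ˢ C), (Polynomial.X : ℤ[X]) ^ (q.1 * n2 + q.2.1 * n3 + q.2.2 * n4)
      = (∑ b ∈ A, (Polynomial.X ^ n2) ^ b) * ((∑ c ∈ B, (Polynomial.X ^ n3) ^ c) *
        (∑ d ∈ C, (Polynomial.X ^ n4) ^ d)) := by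
  rw [Finset.sum_product, Finset.sum_mul]
  apply Finset.sum_congr rfl
  intro b _
  rw [Finset.sum_product, Finset.sum_mul, Finset.mul_sum]
  apply Finset.sum_congr rfl
  intro c _
  rw [Finset.mul_sum, Finset.mul_sum]
  apply Finset.sum_congr rfl
  intro d _
  ring

lemma AA_mul (n2 n3 n4 X Y X' Y' Z R : ℕ) (hZR : Z ≤ R) :
    AA n2 n3 n4 X Y X' Y' Z R * ((1 - Polynomial.X ^ n2) * (1 - Polynomial.X ^ n3) *
      (1 - Polynomial.X ^ n4))
    = (1 - Polynomial.X ^ (X * n2)) * (1 - Polynomial.X ^ (Y * n3)) *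
        (1 - Polynomial.X ^ (Z * n4))
      + (1 - Polynomial.X ^ (X' * n2)) * (1 - Polynomial.X ^ (Y' * n3)) *
        (Polynomial.X ^ (Z * n4) - Polynomial.X ^ (R * n4)) := by
  have hdisj : Disjoint (Finset.range X ×ˢ (Finset.range Y ×ˢ Finset.range Z))
      (Finset.range X' ×ˢ (Finset.range Y' ×ˢ Finset.Ico Z R)) := by
    rw [Finset.disjoint_left]
    rintro ⟨b, c, d⟩ h1 h2
    simp at h1 h2
    omega
  unfold AA QQ
  rw [Finset.sum_union hdisj, sum_prod3, sum_prod3]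
  have g1 : ∀ n m : ℕ, (∑ b ∈ Finset.range m, ((Polynomial.X : ℤ[X]) ^ n) ^ b) *
      (1 - Polynomial.X ^ n) = 1 - Polynomial.X ^ (m * n) := by
    intro n m
    rw [geom_sum_mul_neg, ← pow_mul, mul_comm n m]
  have g2 : (∑ b ∈ Finset.Ico Z R, ((Polynomial.X : ℤ[X]) ^ n4) ^ b) *
      (1 - Polynomial.X ^ n4) = Polynomial.X ^ (Z * n4) - Polynomial.X ^ (R * n4) := by
    have := geom_sum_Ico_mul ((Polynomial.X : ℤ[X]) ^ n4) hZR
    rw [← pow_mul, ← pow_mul] at this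
    rw [mul_comm Z n4, mul_comm R n4]
    linear_combination -this
  rw [← g1 n2 X, ← g1 n3 Y, ← g2, ← g1 n2 X', ← g1 n3 Y']
  have g3 := g1 n4 Z
  rw [← g3]
  ring

/-- Hilbert series -/
noncomputable def HS (S : AddSubmonoid ℕ) : PowerSeries ℤ := by
  classical
  exact PowerSeries.mk (fun n => if n ∈ S then 1 else 0)

lemma coeff_HS (S : AddSubmonoid ℕ) [DecidablePred (· ∈ S)] (n : ℕ) :
    PowerSeries.coeff n (HS S) = if n ∈ S then 1 else 0 := by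
  unfold HS
  rw [PowerSeries.coeff_mk]
  congr

lemma HS_mul (S : AddSubmonoid ℕ) (hS : ((S : Set ℕ)ᶜ).Finite) :
    ((1 - (1 - X) * ∑ n ∈ hS.toFinset, X ^ n : ℤ[X]) : PowerSeries ℤ)
      = (1 - PowerSeries.X) * HS S := by
  classical
  have h1 : HS S + ((∑ n ∈ hS.toFinset, (X : ℤ[X]) ^ n : ℤ[X]) : PowerSeries ℤ)
      = PowerSeries.mk 1 := by
    ext n
    rw [map_add, coeff_HS, PowerSeries.coeff_mk, Polynomial.coeff_coe, finsetSum_coeff]
    simp only [coeff_X_pow]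
    rw [Finset.sum_ite_eq]
    by_cases hn : n ∈ S <;> simp [hn]
  have h2 := PowerSeries.mk_one_mul_one_sub_eq_one ℤ
  rw [← h1] at h2
  push_cast
  linear_combination -h2

/-- data with natural numbers -/
theorem ap_series {S : AddSubmonoid ℕ} {G c1 : ℤ} {n1 n2 n3 n4 X Y R s t Z : ℕ}
    (h : Pf (TS S) G n1 n2 n3 n4 c1 X Y R s t Z) (hZR : Z < R) :
    (1 - PowerSeries.X ^ n1) * HS S
      = (AA n2 n3 n4 X Y (X-s) (Y-t) Z R : PowerSeries ℤ) := by
  classical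
  have sX := h.sX; have tY := h.tY; have s1 := h.s1; have t1 := h.t1; have Z1 := h.Z1
  have tt := h.tt
  have q4 := h.C4.pos
  have hX' : ((X - s : ℕ) : ℤ) = X - s := by omega
  have hY' : ((Y - t : ℕ) : ℤ) = Y - t := by omega
  -- membership facts
  have hin : ∀ q ∈ QQ X Y (X-s) (Y-t) Z R,
      (q.1 * n2 + q.2.1 * n3 + q.2.2 * n4) ∈ S ∧
      ¬ (n1 ≤ q.1 * n2 + q.2.1 * n3 + q.2.2 * n4 ∧
        (q.1 * n2 + q.2.1 * n3 + q.2.2 * n4) - n1 ∈ S) := by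
    intro q hq
    rw [mem_QQ] at hq
    constructor
    · have : TS S ((q.1 * n2 + q.2.1 * n3 + q.2.2 * n4 : ℕ) : ℤ) :=
        h.of 0 q.1 q.2.1 q.2.2 le_rfl (by omega) (by omega) (by omega) (by push_cast; ring)
      obtain ⟨m, hm, e⟩ := this
      have : q.1 * n2 + q.2.1 * n3 + q.2.2 * n4 = m := by exact_mod_cast e
      rw [this]; exact hm
    · rintro ⟨k1, k2⟩
      have hT : TS S ((q.1 : ℤ) * n2 + q.2.1 * n3 + q.2.2 * n4 - n1) := by
        refine ⟨_, k2, ?_⟩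
        rw [Nat.cast_sub k1]
        push_cast; ring
      rcases hq with ⟨a1, a2, a3⟩ | ⟨a1, a2, a3, a4⟩
      · exact h.Qin1 (by exact_mod_cast a1) (by exact_mod_cast a2) (by exact_mod_cast a3) hT
      · exact h.Qin2 (by omega) (by omega) (by omega) hT
  have huniq : ∀ q ∈ QQ X Y (X-s) (Y-t) Z R, ∀ q' ∈ QQ X Y (X-s) (Y-t) Z R,
      q.1 * n2 + q.2.1 * n3 + q.2.2 * n4 = q'.1 * n2 + q'.2.1 * n3 + q'.2.2 * n4 → q = q' := by
    intro q hq q' hq' e
    rw [mem_QQ] at hq hq'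
    have e' : (q.1 : ℤ) * n2 + q.2.1 * n3 + q.2.2 * n4 = q'.1 * n2 + q'.2.1 * n3 + q'.2.2 * n4 := by
      exact_mod_cast e
    have d1 := h.DL e'
    have : q.1 = q'.1 ∧ q.2.1 = q'.2.1 ∧ q.2.2 = q'.2.2 := by omega
    exact Prod.ext this.1 (Prod.ext this.2.1 this.2.2)
  have hex : ∀ n : ℕ, n ∈ S → ¬ (n1 ≤ n ∧ n - n1 ∈ S) → ∃ q ∈ QQ X Y (X-s) (Y-t) Z R,
      n = q.1 * n2 + q.2.1 * n3 + q.2.2 * n4 := by
    intro n hn hn'
    have hT : ¬ TS S ((n : ℤ) - n1) := by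
      rintro ⟨m, hm, e⟩
      apply hn'
      refine ⟨by omega, ?_⟩
      have : n - n1 = m := by omega
      rw [this]; exact hm
    obtain ⟨a, b, c, d, ha, hb, hc, hd, e⟩ := (h.mem (n : ℤ)).1 ⟨n, hn, rfl⟩
    have a0 : a = 0 := by
      by_contra hcon
      exact hT (h.of (a-1) b c d (by omega) hb hc hd (by linarith))
    subst a0
    set m := d/R with hm
    have hr0 := Int.emod_nonneg d q4.ne'
    have hr1 := Int.emod_lt_of_pos d q4
    have hmr : R*m + d%R = d := Int.mul_ediv_add_emod d R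
    set r := d%R with hr
    have hm0 : 0 ≤ m := Int.ediv_nonneg (by omega) q4.le
    have hms : 0 ≤ m*s := mul_nonneg hm0 (by omega)
    have hmt : 0 ≤ m*t := mul_nonneg hm0 (by omega)
    have e2 : (n : ℤ) = (b+m*s)*n2+(c+m*t)*n3+r*n4 := by
      have k : m*(R*n4) = m*(s*n2+t*n3) := by rw [tt]
      have k2 : d*n4 = (R*m + r)*n4 := by rw [hmr]
      linarith
    have := h.Qout (b := b+m*s) (c := c+m*t) (d := r) (by omega) (by omega) hr0
      (by rw [← e2]; exact hT)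
    refine ⟨((b+m*s).toNat, (c+m*t).toNat, r.toNat), ?_, ?_⟩
    · rw [mem_QQ]
      simp only
      omega
    · have k1 : (((b+m*s).toNat : ℕ) : ℤ) = b+m*s := Int.toNat_of_nonneg (by omega)
      have k2 : (((c+m*t).toNat : ℕ) : ℤ) = c+m*t := Int.toNat_of_nonneg (by omega)
      have k3 : ((r.toNat : ℕ) : ℤ) = r := Int.toNat_of_nonneg hr0
      have : (n : ℤ) = (((b+m*s).toNat * n2 + (c+m*t).toNat * n3 + r.toNat * n4 : ℕ) : ℤ) := by
        push_cast [k1, k2, k3]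
        exact e2
      exact_mod_cast this
  ext n
  have l1 : PowerSeries.coeff n ((1 - PowerSeries.X ^ n1) * HS S)
      = (if n ∈ S then 1 else 0) - (if n1 ≤ n then (if n - n1 ∈ S then 1 else 0) else 0) := by
    rw [sub_mul, one_mul, map_sub, coeff_HS, PowerSeries.coeff_X_pow_mul', coeff_HS]
  rw [l1]
  unfold AA
  rw [Polynomial.coeff_coe, finsetSum_coeff]
  simp only [coeff_X_pow]
  have hn1 : n1 ∈ S := by
    have : TS S (n1 : ℤ) := h.of 1 0 0 0 (by norm_num) le_rfl le_rfl le_rfl (by ring)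
    obtain ⟨m, hm, e⟩ := this
    have : n1 = m := by exact_mod_cast e
    rw [this]; exact hm
  by_cases hap : n ∈ S ∧ ¬ (n1 ≤ n ∧ n - n1 ∈ S)
  · obtain ⟨q, hq, hqn⟩ := hex n hap.1 hap.2
    rw [Finset.sum_eq_single q]
    · rw [if_pos hap.1, if_pos hqn]
      by_cases k : n1 ≤ n
      · have : n - n1 ∉ S := fun hh => hap.2 ⟨k, hh⟩
        rw [if_pos k, if_neg this]; ring
      · rw [if_neg k]; ring
    · intro q' hq' hne
      rw [if_neg]
      intro e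
      exact hne (huniq q' hq' q hq (by rw [← e, ← hqn]))
    · intro hh; exact absurd hq hh
  · rw [Finset.sum_eq_zero]
    · by_cases k : n ∈ S
      · have k2 : n1 ≤ n ∧ n - n1 ∈ S := by
          by_contra hh; exact hap ⟨k, hh⟩
        rw [if_pos k, if_pos k2.1, if_pos k2.2]; ring
      · rw [if_neg k]
        by_cases k2 : n1 ≤ n
        · have k3 : n - n1 ∉ S := by
            intro hh
            apply k
            have := S.add_mem hh hn1
            rwa [Nat.sub_add_cancel k2] at this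
          rw [if_pos k2, if_neg k3]; ring
        · rw [if_neg k2]; ring
    · intro q hq
      rw [if_neg]
      intro e
      exact hap (e ▸ hin q hq)

lemma prod_cyc_divisors {n : ℕ} (hn : 0 < n) :
    ((n.divisors.val).map (fun k => cyclotomic k ℤ)).prod = X ^ n - 1 :=
  prod_cyclotomic_eq_X_pow_sub_one hn ℤ

/-- the contradiction in the Pfaffian case -/
theorem pf_false {S : AddSubmonoid ℕ} (hS : ((S : Set ℕ)ᶜ).Finite)
    {G c1 : ℤ} {n1 n2 n3 n4 X Y R s t Z : ℕ}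
    (h : Pf (TS S) G n1 n2 n3 n4 c1 X Y R s t Z) (hZR : Z < R)
    (hs : (((X:ℤ)-s)*n2 < Y*n3 ∧ ((R:ℤ)-Z)*n4 < X*n2) ∨
       (((Y:ℤ)-t)*n3 < X*n2 ∧ ((R:ℤ)-Z)*n4 < Y*n3)) {M : Multiset ℕ}
    (hM : (1 - (1 - Polynomial.X) * ∑ n ∈ hS.toFinset, Polynomial.X ^ n : ℤ[X])
      = (M.map (fun k => cyclotomic k ℤ)).prod) : False := by
  have sX := h.sX; have tY := h.tY; have s1 := h.s1; have t1 := h.t1; have Z1 := h.Z1
  have tt := h.tt
  have p1 := h.p1; have p2 := h.p2; have p3 := h.p3; have p4 := h.p4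
  obtain ⟨k1, k2, k3, k4, k5⟩ := h.ne1
  obtain ⟨X', rfl⟩ : ∃ X', X = X' + s := ⟨X - s, by omega⟩
  obtain ⟨Y', rfl⟩ : ∃ Y', Y = Y' + t := ⟨Y - t, by omega⟩
  obtain ⟨W, rfl⟩ : ∃ W, R = Z + W := ⟨R - Z, by omega⟩
  have hap := ap_series h hZR
  rw [Nat.add_sub_cancel, Nat.add_sub_cancel] at hap
  have hmul := AA_mul n2 n3 n4 (X'+s) (Y'+t) X' Y' Z (Z+W) (by omega)
  -- products
  have hA : 0 < X' * n2 := Nat.mul_pos (by omega) (by omega)
  have hB : 0 < Y' * n3 := Nat.mul_pos (by omega) (by omega)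
  have hC : 0 < Z * n4 := Nat.mul_pos (by omega) (by omega)
  have hP : 0 < s * n2 := Nat.mul_pos (by omega) (by omega)
  have hQ : 0 < t * n3 := Nat.mul_pos (by omega) (by omega)
  have hW : 0 < W * n4 := Nat.mul_pos (by omega) (by omega)
  push_cast at k1 k2 k3 k4 k5 hs tt
  have f1 : ((X' * n2 : ℕ) : ℤ) = X' * n2 := by push_cast; ring
  have f2 : ((Y' * n3 : ℕ) : ℤ) = Y' * n3 := by push_cast; ring
  have f3 : ((Z * n4 : ℕ) : ℤ) = Z * n4 := by push_cast; ring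
  have f4 : ((s * n2 : ℕ) : ℤ) = s * n2 := by push_cast; ring
  have f5 : ((t * n3 : ℕ) : ℤ) = t * n3 := by push_cast; ring
  have f6 : ((W * n4 : ℕ) : ℤ) = W * n4 := by push_cast; ring
  have e1 : ((X' : ℤ) + s) * n2 = X' * n2 + s * n2 := by ring
  have e2 : ((Y' : ℤ) + t) * n3 = Y' * n3 + t * n3 := by ring
  have e3 : ((X' : ℤ) + s - s) * n2 = X' * n2 := by ring
  have e4 : ((Y' : ℤ) + t - t) * n3 = Y' * n3 := by ring
  have e5 : ((Z : ℤ) + W - Z) * n4 = W * n4 := by ring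
  have e6 : ((Z : ℤ) + W) * n4 = Z * n4 + W * n4 := by ring
  rw [e1, e4] at k1
  rw [e2, e4] at k2
  rw [e1, e5] at k3
  rw [e2, e5] at k4
  rw [e2, e3] at k5
  rw [e6] at tt
  rw [e1, e2, e3, e4, e5] at hs
  rw [← f1, ← f2, ← f4] at k1
  rw [← f2, ← f5] at k2
  rw [← f1, ← f4, ← f6] at k3
  rw [← f2, ← f5, ← f6] at k4
  rw [← f2, ← f5, ← f1] at k5
  rw [← f3, ← f6, ← f4, ← f5] at tt
  rw [← f1, ← f2, ← f4, ← f5, ← f6] at hs
  have g1 : (X' + s) * n2 = X' * n2 + s * n2 := by ring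
  have g2 : (Y' + t) * n3 = Y' * n3 + t * n3 := by ring
  have g3 : (Z + W) * n4 = Z * n4 + W * n4 := by ring
  rw [g1, g2, g3] at hmul
  generalize X' * n2 = A at *
  generalize Y' * n3 = B at *
  generalize Z * n4 = C at *
  generalize s * n2 = P at *
  generalize t * n3 = Q at *
  generalize W * n4 = V at *
  clear f1 f2 f3 f4 f5 f6 e1 e2 e3 e4 e5 e6 g1 g2 g3
  have hPQ : C + V = P + Q := by omega
  -- the polynomial identity
  have hN : AA n2 n3 n4 (X'+s) (Y'+t) X' Y' Z (Z+W) * ((1 - Polynomial.X ^ n2) *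
      (1 - Polynomial.X ^ n3) * (1 - Polynomial.X ^ n4))
      = 1 - ∑ i, (Polynomial.X : ℤ[X]) ^ (![C+B, A+P, B+Q, C+V, C+A] : Fin 5 → ℕ) i
        + ∑ i, Polynomial.X ^ ((A+P+B+Q+C) - (![C+B, A+P, B+Q, C+V, C+A] : Fin 5 → ℕ) i)
        - Polynomial.X ^ (A+P+B+Q+C) := by
    rw [hmul, Fin.sum_univ_five, Fin.sum_univ_five]
    have r0 : (![C+B, A+P, B+Q, C+V, C+A] : Fin 5 → ℕ) 0 = C+B := rfl
    have r1 : (![C+B, A+P, B+Q, C+V, C+A] : Fin 5 → ℕ) 1 = A+P := rfl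
    have r2 : (![C+B, A+P, B+Q, C+V, C+A] : Fin 5 → ℕ) 2 = B+Q := rfl
    have r3 : (![C+B, A+P, B+Q, C+V, C+A] : Fin 5 → ℕ) 3 = C+V := rfl
    have r4 : (![C+B, A+P, B+Q, C+V, C+A] : Fin 5 → ℕ) 4 = C+A := rfl
    rw [r0, r1, r2, r3, r4]
    have t0 : (A+P+B+Q+C) - (C+B) = A+P+Q := by omega
    have t1 : (A+P+B+Q+C) - (A+P) = B+Q+C := by omega
    have t2 : (A+P+B+Q+C) - (B+Q) = A+P+C := by omega
    have t3 : (A+P+B+Q+C) - (C+V) = A+B+C := by omega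
    have t4 : (A+P+B+Q+C) - (C+A) = P+B+Q := by omega
    rw [t0, t1, t2, t3, t4, hPQ]
    ring
  -- the main identity
  have key : (1 - Polynomial.X) * (AA n2 n3 n4 (X'+s) (Y'+t) X' Y' Z (Z+W) *
      ((1 - Polynomial.X ^ n2) * (1 - Polynomial.X ^ n3) * (1 - Polynomial.X ^ n4)))
      = (M.map (fun k => cyclotomic k ℤ)).prod *
        ((Polynomial.X ^ n1 - 1) * ((Polynomial.X ^ n2 - 1) * ((Polynomial.X ^ n3 - 1) *
          (Polynomial.X ^ n4 - 1)))) := by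
    rw [← hM]
    apply Polynomial.coe_injective ℤ
    have h1 := HS_mul S hS
    rw [Polynomial.coe_mul, Polynomial.coe_mul, Polynomial.coe_mul _ ((Polynomial.X ^ n1 - 1) * _),
      h1, ← hap]
    push_cast
    ring
  have hn1 : 0 < n1 := by omega
  have hn2 : 0 < n2 := by omega
  have hn3 : 0 < n3 := by omega
  have hn4 : 0 < n4 := by omega
  rw [hN, ← prod_cyc_divisors hn1, ← prod_cyc_divisors hn2, ← prod_cyc_divisors hn3,
    ← prod_cyc_divisors hn4, ← Multiset.prod_add, ← Multiset.prod_add, ← Multiset.prod_add,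
    ← Multiset.prod_add, ← Multiset.map_add, ← Multiset.map_add, ← Multiset.map_add,
    ← Multiset.map_add] at key
  refine not_cyclotomic (![C+B, A+P, B+Q, C+V, C+A] : Fin 5 → ℕ) (A+P+B+Q+C) ?_ ?_ ?_ ?_ key
  · intro i
    fin_cases i <;> simp <;> omega
  · rw [Fin.sum_univ_five]
    have r0 : (![C+B, A+P, B+Q, C+V, C+A] : Fin 5 → ℕ) 0 = C+B := rfl
    have r1 : (![C+B, A+P, B+Q, C+V, C+A] : Fin 5 → ℕ) 1 = A+P := rfl
    have r2 : (![C+B, A+P, B+Q, C+V, C+A] : Fin 5 → ℕ) 2 = B+Q := rfl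
    have r3 : (![C+B, A+P, B+Q, C+V, C+A] : Fin 5 → ℕ) 3 = C+V := rfl
    have r4 : (![C+B, A+P, B+Q, C+V, C+A] : Fin 5 → ℕ) 4 = C+A := rfl
    rw [r0, r1, r2, r3, r4]
    omega
  · intro i j hij
    fin_cases i <;> fin_cases j <;> first | exact absurd rfl hij | (simp; omega)
  · intro i j k hij hik hjk
    fin_cases i <;> fin_cases j <;> fin_cases k <;>
      first | exact absurd rfl hij | exact absurd rfl hik | exact absurd rfl hjk | (simp; omega)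

end Pool.Agent.CycE4
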